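import Pool.Agent.Helper11.CT.Defs

set_option autoImplicit false

/-!
# The class data of `S2`

The forms `A B C` are the variables `1 2 3`; the other forms are in the record `FC`.
-/

noncomputable section

namespace Helper11.CT

/-- forms of a class: `P`, `D`, `J`, index coordinate, abscissa, ordinate, row of `k` -/
structure FC where
  P : List ℤ
  D : List ℤ
  J : List ℤ
  I : List ℤ
  Z : List ℤ
  S : List ℤ
  R : List ℤ

/-- the `K` form of the extremal cluster -/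
def kfE (ds : ℤ) (f : FC) : ℕ → List (ℕ × List (ℤ × ℤ × List ℤ))
  | 1 => [(1, [(1, 0, axpy (-1) f.Z []), (-1, 0, [0, 0, 1]), (0, -1, [0, 1]), (0, 1, [0, 1])])]
  | 2 => [(1, [(-1, 0, f.Z), (1, 0, [0, 0, 1]), (0, -1, [0, 1]), (0, 1, [0, 1])])]
  | 3 => [(1, [(0, 1, axpy (-1) f.S []), (0, -1, [0, 1]), (-1, 0, [0, 0, 1]),
      (1, 0, [0, 0, 1])])]
  | 4 => [(1, [(0, -1, f.S), (0, 1, [0, 1]), (-1, 0, [0, 0, 1]), (1, 0, [0, 0, 1])])]
  | 10 => [(2, [(-1, 0, f.Z), (1, 0, axpy (Int.neg ds) f.D f.Z), (-1, 0, [0, 0, 1]),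
      (1, 0, [0, 0, 1]), (0, -1, [0, 1]), (0, 1, [0, 1])])]
  | _ => []

/-- the `K` forms of `S2` -/
def kfS (ds : ℤ) (f : FC) (ext : ℕ) : List (ℕ × List (ℤ × ℤ × List ℤ)) :=
  (0, [(ds, 0, [0, 0, 1]), (Int.neg ds, 0, axpy (-1) [0, 0, 1] f.D), (0, -1, [0, 1]),
    (0, 1, [0, 1])]) ::
  (0, [(-1, 0, [0, 0, 1]), (1, 0, [0, 0, 1]), (0, ds, [0, 1]),
    (0, Int.neg ds, axpy (-1) [0, 1] f.D)]) :: kfE ds f ext

/-- the facts of a class -/
def fax (f : FC) (cs : Bool) (cl : ℕ) (ds : ℤ) (ext : ℕ) (rs : Bool) (T : List Con) :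
    List Con :=
  ((true, [-1, 1]) :: (true, [-1, 0, 1]) :: (true, axpy (-2) [0, 1] f.P) ::
  (true, axpy (-2) [0, 0, 1] f.P) :: (true, f.J) :: (false, axpy (-1) f.J f.D) ::
  (false, axpy (-2) f.D f.P) :: (false, f.I) :: (false, axpy (-1) f.I f.D) ::
  (false, axpy (-1) f.Z [0, 0, 1]) :: (false, axpy 1 f.Z [0, 0, 1]) ::
  (false, axpy (-1) f.S [0, 1]) :: (false, axpy 1 f.S [0, 1]) ::
  (false, axpy (-1) f.D (axpy ds f.Z [0, 0, 1])) ::
  (false, axpy (-1) f.D (axpy ds f.S [0, 1])) :: T) ++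
  (match rs with
    | true => [(true, f.R)]
    | false => [(true, axpy (-1) f.R [])]) ++
  (match cs with
    | true => [(true, [0, 0, 0, 1]), (true, [0, 1, 0, -1])]
    | false => [(true, [0, 0, 0, -1]), (true, [1, 1, 0, 1]), (true, [0, 1, 0, 1])]) ++
  (match cl with
    | 1 => (match cs with | true => [(true, [0, 1, -1, -1])] | false => [(true, [0, 1, -1, 1])])
    | 2 => (true, [0, 1, -1]) ::
      (match cs with | true => [(true, [1, -1, 1, 1])] | false => [(true, [1, -1, 1, -1])])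
    | 3 => [(true, [1, -1, 1])]
    | 34 => [(true, [1, -2, 1])]
    | _ => [(true, [1, -1, 1]), (true, [0, 2, -1])]) ++
  (match ext with
    | 1 => [(false, axpy 2 f.Z (axpy (Int.neg ds) f.D []))]
    | 2 => [(false, axpy (-2) f.Z (axpy ds f.D []))]
    | 3 => [(false, axpy 2 f.S (axpy (Int.neg ds) f.D []))]
    | 4 => [(false, axpy (-2) f.S (axpy ds f.D []))]
    | _ => (false, axpy 2 f.Z (axpy (Int.neg ds) f.D [])) ::
      (match cl with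
        | 34 => [(false, axpy (-1) f.Z (axpy 1 (match ds with | .ofNat _ => f.D | _ => [])
            [0, 1, 0, match cs with | true => -1 | false => 1]))]
        | _ => []))

def cmem (c : Con) : List Con → Bool
  | [] => false
  | f :: F => ((f.1 == c.1) && leq f.2 c.2) || cmem c F

/-- the base list consists of facts and the tree is correct -/
def chkB (K : Cls) (F : List Con) (t : Tre) (B : List Con) : Bool :=
  B.all (fun c => cmem c F) && chk K t B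

theorem chkB_of {K : Cls} {F : List Con} {t : Tre} {B : List Con}
    (h1 : B.all (fun c => cmem c F) = true) (h2 : chk K t B = true) : chkB K F t B = true := by
  unfold chkB
  rw [h1, h2]
  rfl

/-- the forms of `u`, `v`: variables `1 a b c p J X r ru | D i iu` -/
def fcU (ds : ℤ) : FC where
  P := [0, 0, 0, 0, 1]
  D := [0, 0, 0, 0, 0, 0, 0, 0, 0, 1]
  J := [0, 0, 0, 0, 0, 1]
  I := [0, 0, 0, 0, 0, 0, 0, 0, 0, 0, 1]
  Z := [0, 0, 0, 0, 0, 0, 1, 0, 0, 0, ds]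
  S := [0, 0, 0, 0, 0, 0, 1, 1, 0, 0, ds]
  R := [0, 0, 0, 0, 0, 0, 0, 1]

/-- class data; `tok = true`: `u`, `false`: `v` -/
def cU (ds : ℤ) (tok : Bool) (ext : ℕ) : Cls where
  nI := 9
  ds := ds
  P := [0, 0, 0, 0, 1]
  D := [0, 0, 0, 0, 0, 0, 0, 0, 0, 1]
  A := [0, 1]
  B := [0, 0, 1]
  C := [0, 0, 0, 1]
  J := [0, 0, 0, 0, 0, 1]
  gI := [[0, 0, 0, 0, 0, 0, 0, 0, 0, 1], [0, 0, 0, 0, 0, 1], [0, 0, 0, 0, 0, 0, 0, 0, 0, 0, 1],
    [0, 0, 0, 0, 0, 0, 0, 0, 0, 0, 0, 1]]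
  gX := [[], [0, 0, -1, 0, 0, Int.neg ds], [0, 0, 0, 0, 0, 0, 1],
    match tok with | true => [0, 0, 1] | false => []]
  gR := [[], [0, 0, 1, 1], [0, 0, 0, 0, 0, 0, 0, 1], [0, 0, 0, 0, 0, 0, 0, 0, 1]]
  known := [1] :: [0, 1] :: [1, 1] :: [-1, 1] :: [0, 0, 1] ::
    (match tok with | true => [] | false => [[0, 0, 2]])
  kf := kfS ds (fcU ds) ext

/-- facts on `u`, `v` -/
def tU (tok : Bool) : List Con :=
  (false, [0, 0, 0, 0, 0, 0, 0, 0, 0, 0, 0, 1]) ::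
  (true, [0, 0, 0, 0, 1, 0, 0, 0, 2]) :: (true, [0, 0, 0, 0, 1, 0, 0, 0, -2]) ::
  (match tok with
    | true => [(false, [0, 0, 0, 0, 0, 0, 0, 0, 0, 1, 0, -1])]
    | false => [(false, [0, 0, 0, 0, 0, 0, 0, 0, 0, 1, 0, -2])])

/-- the forms of `v2`: variables `1 a b c J X r ru | i iu`; `p = 2 ru`, `D = 2 iu` -/
def fcW (ds : ℤ) : FC where
  P := [0, 0, 0, 0, 0, 0, 0, 2]
  D := [0, 0, 0, 0, 0, 0, 0, 0, 0, 2]
  J := [0, 0, 0, 0, 1]
  I := [0, 0, 0, 0, 0, 0, 0, 0, 1]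
  Z := [0, 0, 0, 0, 0, 1, 0, 0, ds]
  S := [0, 0, 0, 0, 0, 1, 1, 0, ds]
  R := [0, 0, 0, 0, 0, 0, 1]

/-- class data of `v2` -/
def cW (ds : ℤ) (ext : ℕ) : Cls where
  nI := 8
  ds := ds
  P := [0, 0, 0, 0, 0, 0, 0, 2]
  D := [0, 0, 0, 0, 0, 0, 0, 0, 0, 2]
  A := [0, 1]
  B := [0, 0, 1]
  C := [0, 0, 0, 1]
  J := [0, 0, 0, 0, 1]
  gI := [[0, 0, 0, 0, 0, 0, 0, 0, 0, 2], [0, 0, 0, 0, 1], [0, 0, 0, 0, 0, 0, 0, 0, 1],
    [0, 0, 0, 0, 0, 0, 0, 0, 0, 1]]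
  gX := [[], [0, 0, -1, 0, Int.neg ds], [0, 0, 0, 0, 0, 1], []]
  gR := [[], [0, 0, 1, 1], [0, 0, 0, 0, 0, 0, 1], [0, 0, 0, 0, 0, 0, 0, 1]]
  known := [[1], [0, 1], [1, 1], [-1, 1], [0, 0, 1]]
  kf := kfS ds (fcW ds) ext

/-- facts on `v2` -/
def tW : List Con := [(false, [0, 0, 0, 0, 0, 0, 0, 0, 0, 1])]

end Helper11.CT
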