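import Pool.Agent.Helper11.CT.Defs2

set_option autoImplicit false

/-!
# Cutting a tree
-/

namespace Helper11.CT

theorem chk_I {K : Cls} {e e' : List ℤ} {L R : Tre} {Q : List Con} (h1 : isI K e = true)
    (he : axpy (-1) e [1] = e')
    (h2 : chk K L ((true, e) :: Q) = true) (h3 : chk K R ((true, e') :: Q) = true) :
    chk K (.I e L R) Q = true := by
  subst he
  simp only [chk, h1, h2, h3, Bool.and_self]

theorem chk_Q {K : Cls} {e e' : List ℤ} {j : Ju} {L R : Tre} {Q : List Con}
    (h1 : juc K Q e j = true) (he : axpy (-1) e [] = e') (h2 : chk K L ((false, e) :: Q) = true)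
    (h3 : chk K R ((false, e') :: Q) = true) : chk K (.Q e j L R) Q = true := by
  subst he
  simp only [chk, h1, h2, h3, Bool.and_self]

theorem chk2_I {M : Cx} {e e' : List ℤ} {L R : Tr2} {Q : List Con} (h1 : isI M.K e = true)
    (he : axpy (-1) e [1] = e')
    (h2 : chk2 M L ((true, e) :: Q) = true) (h3 : chk2 M R ((true, e') :: Q) = true) :
    chk2 M (.I e L R) Q = true := by
  subst he
  simp only [chk2, h1, h2, h3, Bool.and_self]

theorem chk2_Q {M : Cx} {e e' : List ℤ} {j : Ju2} {L R : Tr2} {Q : List Con}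
    (h1 : juc2 M Q e j = true) (he : axpy (-1) e [] = e')
    (h2 : chk2 M L ((false, e) :: Q) = true)
    (h3 : chk2 M R ((false, e') :: Q) = true) : chk2 M (.Q e j L R) Q = true := by
  subst he
  simp only [chk2, h1, h2, h3, Bool.and_self]

end Helper11.CT
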