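import Pool.Agent.Helper11.CT.Main
import Pool.Agent.Helper11.CT.Cut

set_option autoImplicit false

/-!
# Trees with holes

`Clo K H Q`: the cell `Q` is closed by a tree over the class `K` whose leaves are subtrees of the
checker or cells in `H` (closed otherwise, e.g. over a class with more variables).
-/

noncomputable section

namespace Helper11.CT

open Helper25.KW Helper55.KE

inductive Clo (K : Cls) (H : List Con → Prop) : List Con → Prop
  | t {Q : List Con} (T : Tre) (h : chk K T Q = true) : Clo K H Q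
  | i {Q : List Con} (e : List ℤ) {e' : List ℤ} (h : isI K e = true) (he : axpy (-1) e [1] = e')
      (hl : Clo K H ((true, e) :: Q)) (hr : Clo K H ((true, e') :: Q)) : Clo K H Q
  | q {Q : List Con} (e : List ℤ) {e' : List ℤ} (j : Ju) (h : juc K Q e j = true)
      (he : axpy (-1) e [] = e')
      (hl : Clo K H ((false, e) :: Q)) (hr : Clo K H ((false, e') :: Q)) : Clo K H Q
  | w {Q : List Con} (e : List ℤ) {e' : List ℤ} (he : axpy (-1) e [1] = e')
      (hl : Clo K H ((false, e) :: Q)) (hr : Clo K H ((true, e') :: Q)) : Clo K H Q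
  | h {Q : List Con} (h : H Q) : Clo K H Q

section

variable {K : Cls} {p a b c J ds l q : ℤ} {D dl : ℝ} {Cl : ℤ → ℤ → ℤ → ℤ → ℝ → Prop}
  {vi : List ℤ} {vr : List ℝ} {Nr : List ℤ}

theorem Val.closed (h : Val K p a b c J ds l q D dl Cl vi vr Nr)
    (W : World p a b c J ds l q D dl Cl) (hg : gl K = true)
    {Nk : ℤ} (hNk : ∀ kf ∈ K.kf, 1 ≤ kf.1 → ∃ t, Nr = Nk :: t)
    (hK : ∀ kf ∈ K.kf, KOk p l Cl ds (xv vi vr) Nk kf) {H : List Con → Prop}
    (hH : ∀ Q, H Q → (∀ c ∈ Q, hld (xv vi vr) c) → False)
    {Q : List Con} (hc : Clo K H Q) (hQ : ∀ c ∈ Q, hld (xv vi vr) c) : False := by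
  have h1 : evg (xv vi vr) [1] = 1 := by
    obtain ⟨y, hy⟩ := h.hx
    rw [hy]
    simp
  induction hc with
  | t T hT => exact h.sound W hg hNk hK hQ hT
  | @i Q e e' hI he _ _ ihl ihr =>
    subst he
    have h4 := h.xI hI
    rcases le_or_gt 1 (evg vi e) with h5 | h5
    · refine ihl ?_
      intro c hc
      rcases List.mem_cons.1 hc with rfl | hc
      · show (1 : ℝ) ≤ evg (xv vi vr) e
        rw [h4]
        exact_mod_cast h5
      · exact hQ c hc
    · refine ihr ?_
      intro c hc
      rcases List.mem_cons.1 hc with rfl | hc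
      · show (1 : ℝ) ≤ evg (xv vi vr) (axpy (-1) e [1])
        rw [evg_axpy, h1, h4]
        have h7 : (1 : ℤ) ≤ -1 * evg vi e + 1 := by omega
        exact_mod_cast h7
      · exact hQ c hc
  | @q Q e e' j hj he _ _ ihl ihr =>
    subst he
    have h4 := h.ju (fun h1 h2 => W.nint h1 h2) hQ hj
    rcases lt_or_gt_of_ne h4 with h5 | h5
    · refine ihr ?_
      intro c hc
      rcases List.mem_cons.1 hc with rfl | hc
      · show (0 : ℝ) < evg (xv vi vr) (axpy (-1) e [])
        rw [evg_axpy, evg_nil]
        push_cast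
        linarith
      · exact hQ c hc
    · refine ihl ?_
      intro c hc
      rcases List.mem_cons.1 hc with rfl | hc
      · exact h5
      · exact hQ c hc
  | @w Q e e' he _ _ ihl ihr =>
    subst he
    rcases lt_or_ge 0 (evg (xv vi vr) e) with h5 | h5
    · refine ihl ?_
      intro c hc
      rcases List.mem_cons.1 hc with rfl | hc
      · exact h5
      · exact hQ c hc
    · refine ihr ?_
      intro c hc
      rcases List.mem_cons.1 hc with rfl | hc
      · show (1 : ℝ) ≤ evg (xv vi vr) (axpy (-1) e [1])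
        rw [evg_axpy, h1]
        push_cast
        linarith
      · exact hQ c hc
  | h hh => exact hH _ hh hQ

end

theorem Clo.mono {K : Cls} {H H' : List Con → Prop} (hH : ∀ Q, H Q → H' Q) {Q : List Con}
    (h : Clo K H Q) : Clo K H' Q := by
  induction h with
  | t T hT => exact .t T hT
  | i e hI he _ _ ihl ihr => exact .i e hI he ihl ihr
  | q e j hj he _ _ ihl ihr => exact .q e j hj he ihl ihr
  | w e he _ _ ihl ihr => exact .w e he ihl ihr
  | h hh => exact .h (hH _ hh)

/-- insert a zero coefficient at position `n` -/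
def ins0 : ℕ → List ℤ → List ℤ
  | _, [] => []
  | 0, e => 0 :: e
  | n + 1, c :: e => c :: ins0 n e

theorem evg_ins0 (y : ℝ) : ∀ (x1 x2 : List ℝ) (e : List ℤ),
    evg (x1 ++ y :: x2) (ins0 x1.length e) = evg (x1 ++ x2) e := by
  intro x1
  induction x1 with
  | nil =>
    intro x2 e
    cases e with
    | nil => simp [ins0]
    | cons c e => simp [ins0]
  | cons z x1 ih =>
    intro x2 e
    cases e with
    | nil => simp [ins0]
    | cons c e =>
      simp only [List.cons_append, List.length_cons, ins0, evg_cons, ih]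

def insC (n : ℕ) (c : Con) : Con := (c.1, ins0 n c.2)

theorem hld_insC {y : ℝ} {x1 x2 : List ℝ} {c : Con} (h : hld (x1 ++ x2) c) :
    hld (x1 ++ y :: x2) (insC x1.length c) := by
  obtain ⟨b, e⟩ := c
  cases b
  · show (0 : ℝ) < _
    rw [insC, evg_ins0]
    exact h
  · show (1 : ℝ) ≤ _
    rw [insC, evg_ins0]
    exact h

/-- two constraint lists: every constraint of `Q` is in `Q'` -/
def subQ (Q Q' : List Con) : Prop := ∀ c ∈ Q, c ∈ Q'

end Helper11.CT
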