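import Mathlib.Data.Int.Basic

set_option autoImplicit false

/-!
# Certified decision trees: the checker

Affine forms are lists of integers (constant first).  Descriptors are lists of integers
(coefficients of the generators `p`, `l`, `k`, `u`, ...).
-/

noncomputable section

namespace Helper11.CT

/-- `-(n + 1) + m` -/
def isb (m n : ℕ) : ℤ :=
  Nat.rec (motive := fun _ => ℤ) (Int.ofNat (Nat.sub m n))
    (fun k _ => Int.negSucc k) (Nat.sub n m)

def iadd (x y : ℤ) : ℤ :=
  Int.rec (motive := fun _ => ℤ)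
    (fun m => Int.rec (motive := fun _ => ℤ) (fun n => Int.ofNat (Nat.add m n))
      (fun n => isb m (Nat.succ n)) y)
    (fun m => Int.rec (motive := fun _ => ℤ) (fun n => isb n (Nat.succ m))
      (fun n => Int.negSucc (Nat.succ (Nat.add m n))) y) x

def ineg (m : ℕ) : ℤ := Nat.rec (motive := fun _ => ℤ) (Int.ofNat 0) (fun k _ => Int.negSucc k) m

def imul (x y : ℤ) : ℤ :=
  Int.rec (motive := fun _ => ℤ)
    (fun m => Int.rec (motive := fun _ => ℤ) (fun n => Int.ofNat (Nat.mul m n))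
      (fun n => ineg (Nat.mul m (Nat.succ n))) y)
    (fun m => Int.rec (motive := fun _ => ℤ) (fun n => ineg (Nat.mul (Nat.succ m) n))
      (fun n => Int.ofNat (Nat.mul (Nat.succ m) (Nat.succ n))) y) x

/-- `k e + acc` -/
def axpy (k : ℤ) (e : List ℤ) : List ℤ → List ℤ :=
  List.rec (motive := fun _ => List ℤ → List ℤ) (fun acc => acc)
    (fun c _ ih acc => List.rec (motive := fun _ => List ℤ) (imul k c :: ih [])
      (fun d acc _ => iadd (imul k c) d :: ih acc) acc) e

def izero (x : ℤ) : Bool :=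
  Int.rec (motive := fun _ => Bool) (fun n => Nat.beq n 0) (fun _ => false) x

def ipos (x : ℤ) : Bool :=
  Int.rec (motive := fun _ => Bool) (fun n => Nat.ble 1 n) (fun _ => false) x

def allz (e : List ℤ) : Bool :=
  List.rec (motive := fun _ => Bool) true (fun c _ ih => izero c && ih) e

/-- a certificate: the multiplier of the goal is `l0 + 1`; entries `(s, m)`: skip `s` constraints,
use the next one with multiplier `m + 1` -/
structure Cert where
  l0 : ℕ
  l : List (ℕ × ℕ)

/-- a constraint: `(true, e)` means `1 ≤ e`, `(false, e)` means `0 < e` -/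
abbrev Con := Bool × List ℤ

def fin (acc : List ℤ) (S : ℤ) (st : Bool) : Bool :=
  match acc with
  | [] => ipos S || (izero S && st)
  | C :: e => allz e && (ipos (Int.add C S) || (izero (Int.add C S) && st))

def drp (s : ℕ) : List Con → List Con :=
  Nat.rec (motive := fun _ => List Con → List Con) (fun Q => Q)
    (fun _ ih Q => List.rec (motive := fun _ => List Con) [] (fun _ Q' _ => ih Q') Q) s

def comb (l : List (ℕ × ℕ)) : List Con → List ℤ → ℤ → Bool → Bool :=
  List.rec (motive := fun _ => List Con → List ℤ → ℤ → Bool → Bool)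
    (fun _ acc S st => fin acc S st)
    (fun c _ ih Q acc S st =>
      match drp c.1 Q with
      | [] => false
      | (true, e) :: Q' => ih Q' (axpy (Int.negSucc c.2) e acc) (iadd S (Int.ofNat (Nat.succ c.2))) st
      | (false, e) :: Q' => ih Q' (axpy (Int.negSucc c.2) e acc) S true) l

def cert (Q : List Con) (c : Cert) (g : List ℤ) : Bool :=
  match c.l0 with
  | 0 => comb c.l Q g (Int.ofNat 0) false
  | n + 1 => comb c.l Q (axpy (Int.ofNat (n + 2)) g []) (Int.ofNat 0) false

def lin (G : List (List ℤ)) : List ℤ → List ℤ :=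
  List.rec (motive := fun _ => List ℤ → List ℤ) (fun _ => [])
    (fun g _ ih n => List.rec (motive := fun _ => List ℤ) []
      (fun k n _ => Bool.rec (motive := fun _ => List ℤ) (axpy k g (ih n)) (ih n) (izero k)) n) G

/-- data of a class -/
structure Cls where
  nI : ℕ
  ds : ℤ
  P : List ℤ
  D : List ℤ
  A : List ℤ
  B : List ℤ
  C : List ℤ
  J : List ℤ
  gI : List (List ℤ)
  gX : List (List ℤ)
  gR : List (List ℤ)
  known : List (List ℤ)
  kf : List (ℕ × List (ℤ × ℤ × List ℤ))

def fI (K : Cls) (n : List ℤ) : List ℤ := lin K.gI n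
def fX (K : Cls) (n : List ℤ) : List ℤ := lin K.gX n
def fR (K : Cls) (n : List ℤ) : List ℤ := lin K.gR n

/-- formal abscissa -/
def fx (K : Cls) (n : List ℤ) : List ℤ := axpy K.ds (lin K.gI n) (lin K.gX n)

def tau : List ℤ → ℤ
  | _ :: t :: _ => t
  | _ => 0

/-- `|t| ≤ 1` -/
def t1 : ℤ → Bool
  | .ofNat 0 => true
  | .ofNat 1 => true
  | .negSucc 0 => true
  | _ => false

def ieq : ℤ → ℤ → Bool
  | .ofNat m, .ofNat n => Nat.beq m n
  | .negSucc m, .negSucc n => Nat.beq m n
  | _, _ => false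

def leq : List ℤ → List ℤ → Bool
  | [], l => allz l
  | a :: l, [] => izero a && allz l
  | a :: l, b :: l' => ieq a b && leq l l'

def inl : List ℤ → List (List ℤ) → Bool
  | _, [] => false
  | v, w :: L => leq v w || inl v L

/-- certificate that `N(v)` is not divisible by `p` -/
inductive NZ where
  | k : NZ
  | r : ℤ → Cert → Cert → NZ
  | x : ℤ → Cert → Cert → NZ
  | i : ℤ → Cert → Cert → NZ

def nzc (K : Cls) (Q : List Con) (v : List ℤ) : NZ → Bool
  | .k => match v with
    | [] => false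
    | _ :: v' => inl v' K.known || inl (axpy (-1) v' []) K.known
  | .r m c1 c2 => cert Q c1 (axpy (Int.neg m) K.P (fR K v)) &&
      cert Q c2 (axpy (Int.add m 1) K.P (axpy (-1) (fR K v) []))
  | .x m c1 c2 => cert Q c1 (axpy (Int.neg m) K.P (fX K v)) &&
      cert Q c2 (axpy (Int.add m 1) K.P (axpy (-1) (fX K v) []))
  | .i s c1 c2 => izero (tau v) && cert Q c1 (axpy s K.D (fI K v)) &&
      cert Q c2 (axpy (-1) (axpy s K.D (fI K v)) K.D)

/-- `0 < N(n) < p` -/
def exc (K : Cls) (Q : List Con) (n : List ℤ) (c : Cert × Cert) (z : NZ) : Bool :=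
  t1 (tau n) && cert Q c.1 (fI K n) && cert Q c.2 (axpy (-1) (fI K n) K.D) &&
    (izero (tau n) || nzc K Q n z)

structure Mem where
  inn : Bool
  m : ℤ
  c1 : Cert
  c2 : Cert

/-- membership of `t` in `(k, k + len]` mod `p`, `off = [1]` for integers -/
def memc (Q : List Con) (P t k len off : List ℤ) (M : Mem) : Bool :=
  match M.inn with
  | true => cert Q M.c1 (axpy M.m P (axpy (-1) k t)) &&
      cert Q M.c2 (axpy (-1) (axpy M.m P (axpy (-1) k t)) (axpy 1 len off))
  | false => cert Q M.c1 (axpy (-1) len (axpy M.m P (axpy (-1) k t))) &&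
      cert Q M.c2 (axpy (-1) (axpy M.m P (axpy (-1) k t)) (axpy 1 P off))

/-- zone data: `o`: outside; `e`: no change of the arc; `a`: all; `fo`, `fa`: zones with known
value -/
inductive Zn where
  | o : Mem → Zn
  | e : Mem → Mem → Zn
  | a : Mem → Mem → Mem → Zn
  | fo : Zn
  | fa : Mem → Mem → Zn

def b2 : Bool → ℤ
  | true => 1
  | false => 0

/-- lower end of the zone -/
def z0f (K : Cls) : List ℤ := match K.ds with | .ofNat _ => [] | _ => axpy (-1) K.D []

/-- zone check: `zp` position, `W`, `t`, arc `(k, k + len]`; the zone is `(0, D]` or `(-D, 0]`;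
`sp = 1, 2`: known value `0`, `1` -/
def znc (K : Cls) (Q : List Con) (sp : ℕ) (zp W t k len off : List ℤ) : Zn → Bool
  | .o z => (!z.inn) && memc Q K.P zp (z0f K) K.D [] z
  | .e w s => (w.inn == s.inn) && memc Q K.P W k len [1] w && memc Q K.P t k len off s
  | .a z w s => memc Q K.P zp (z0f K) K.D [] z &&
      memc Q K.P W k len [1] w && memc Q K.P t k len off s
  | .fo => Nat.beq sp 1
  | .fa w s => Nat.ble 1 sp && memc Q K.P W k len [1] w && memc Q K.P t k len off s

/-- `z (W - t)` -/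
def znv (sp : ℕ) : Zn → ℤ
  | .o _ => 0
  | .e _ _ => 0
  | .a z w s => match z.inn with
    | true => Int.sub (b2 w.inn) (b2 s.inn)
    | false => 0
  | .fo => 0
  | .fa w s => match Nat.beq sp 1 with
    | true => 0
    | false => Int.sub (b2 w.inn) (b2 s.inn)

/-- the four zones -/
def zall (K : Cls) (Q : List Con) (s1 s2 s4 : ℕ) (S v W t off : List ℤ) : List Zn → Bool
  | [z1, z2, z3, z4] =>
    znc K Q s1 S W t [] K.B off z1 && znc K Q s2 (axpy (-1) K.A S) W t K.A K.B off z2 &&
      znc K Q 0 v W t [] K.A off z3 && znc K Q s4 (axpy 1 K.B v) W t K.B K.A off z4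
  | _ => false

def zG (K : Cls) (s1 s2 s4 : ℕ) : List Zn → ℤ
  | [z1, z2, z3, z4] =>
    Int.mul K.ds (Int.add (Int.sub (Int.sub (znv s1 z1) (znv s2 z2)) (znv 0 z3)) (znv s4 z4))
  | _ => 0

def isI (K : Cls) (e : List ℤ) : Bool := allz (e.drop K.nI)

/-- data of a rule leaf -/
structure RL where
  st : ℕ
  jr : Bool
  f0 : Bool
  dk : Bool
  n : List ℤ
  f : List ℤ
  W : List ℤ
  en : Cert × Cert
  ef : Cert × Cert
  sc : Cert
  zn : NZ
  zf : NZ
  zl : NZ
  znf : NZ
  znl : NZ
  zfl : NZ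
  KW : Mem
  Kt : Mem
  AW : Mem
  At : Mem
  BW : Mem
  Bt : Mem
  Z : List Zn

def dsub (a b : List ℤ) : List ℤ := axpy (-1) b a

def dL : List ℤ := [0, 1]

def JU (AW At : Bool) : ℤ := Int.sub (b2 AW) (b2 At)

def JM (AW At BW Bt : Bool) : ℤ := Int.sub (JU AW At) (JU BW Bt)

/-- the jumps in the two windows -/
def jmp0 (st : ℕ) (AW At BW Bt : Bool) : ℤ := match st with
  | 0 => JU AW At
  | _ => JM AW At BW Bt

def jmp1 (st : ℕ) (AW At BW Bt : Bool) : ℤ := match st with
  | 0 => JU AW At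
  | 1 => JM AW At BW Bt
  | _ => JU AW At

def any2 (x : ℤ) : List ℤ → Bool
  | [] => false
  | y :: L => ipos (iadd (iadd x (imul (-1) y)) (-2)) || ipos (iadd (iadd y (imul (-1) x)) (-2)) ||
      any2 x L

/-- two entries differ by more than `2` -/
def rng : List ℤ → Bool
  | [] => false
  | x :: L => any2 x L || rng L

def isone : ℤ → Bool
  | .ofNat 1 => true
  | .negSucc 0 => true
  | _ => false

def istwo : ℤ → Bool
  | .ofNat 2 => true
  | .negSucc 1 => true
  | _ => false

/-- index conditions of the vertical line -/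
def nix (K : Cls) (Q : List Con) (st : ℕ) (n : List ℤ) (en : Cert × Cert) (zn : NZ) (sc : Cert)
    (zl : NZ) : Bool :=
  match st with
    | 0 => exc K Q n en zn && cert Q sc (axpy (-1) (fI K n) K.J) &&
        (ieq (tau n) 1 || nzc K Q (dsub n dL) zl)
    | 1 => exc K Q n en zn && cert Q sc (axpy (-1) K.J (fI K n)) &&
        (ieq (tau n) 1 || nzc K Q (dsub n dL) zl)
    | _ => leq n dL

/-- index conditions of the pair -/
def rlix (K : Cls) (Q : List Con) (r : RL) : Bool :=
  nix K Q r.st r.n r.en r.zn r.sc r.zl &&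
  (match r.f0 with
    | true => leq r.f [] && r.jr && (match r.st with | 1 => true | _ => false)
    | false => exc K Q r.f r.ef r.zf &&
        (ieq (tau r.n) (tau r.f) || nzc K Q (dsub r.n r.f) r.znf) &&
        (match r.st with
          | 1 => ieq (tau r.n) (Int.add (tau r.f) 1) || nzc K Q (dsub (dsub r.n r.f) dL) r.znl
          | _ => true) &&
        ((!ieq (tau r.f) (Int.add (tau r.n) 2)) || nzc K Q (axpy 1 dL (dsub r.n r.f)) r.zfl))

def fd (K : Cls) (r : RL) : List ℤ :=
  match r.dk with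
  | true => axpy 1 K.A (axpy 1 (fR K r.f) (fx K r.f))
  | false => axpy 1 (fR K r.f) (fx K r.f)

def fkd (K : Cls) (r : RL) : List ℤ :=
  match r.dk with
  | true => axpy 1 K.A (fR K r.f)
  | false => fR K r.f

/-- memberships of the line functions -/
def lmem (K : Cls) (Q : List Con) (st : ℕ) (n W t off : List ℤ) (AW At BW Bt : Mem) : Bool :=
  memc Q K.P W (fR K n) K.A [1] AW && memc Q K.P t (fR K n) K.A off At &&
  (match st with
    | 0 => true
    | _ => memc Q K.P W (axpy (-1) K.C (fR K n)) K.A [1] BW &&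
        memc Q K.P t (axpy (-1) K.C (fR K n)) K.A off Bt)

/-- known value of zone 4 -/
def sp4 (K : Cls) (st : ℕ) : ℕ := match st with
  | 0 => 0
  | 1 => 0
  | _ => match K.ds with | .ofNat _ => 1 | _ => 2

def rlc (K : Cls) (Q : List Con) (r : RL) : Bool :=
  isI K r.W && rlix K Q r &&
  memc Q K.P r.W (fkd K r) K.B [1] r.KW &&
  memc Q K.P (axpy (-1) (fx K r.n) (fd K r)) (fkd K r) K.B [] r.Kt &&
  lmem K Q r.st r.n r.W (axpy (-1) (fx K r.n) (fd K r)) [] r.AW r.At r.BW r.Bt &&
  (match r.jr with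
    | true => (match r.st with | 0 => false | _ => true) && (r.KW.inn != r.Kt.inn) &&
        istwo (jmp0 r.st r.AW.inn r.At.inn r.BW.inn r.Bt.inn)
    | false =>
      zall K Q 0 0 (sp4 K r.st) (fd K r) (fx K r.n) r.W (axpy (-1) (fx K r.n) (fd K r)) [] r.Z &&
      (let G := zG K 0 0 (sp4 K r.st) r.Z
       let s := Int.mul (match r.dk with | true => 1 | false => -1)
          (Int.sub (b2 r.KW.inn) (b2 r.Kt.inn))
       let J0 := jmp0 r.st r.AW.inn r.At.inn r.BW.inn r.Bt.inn
       let J1 := jmp1 r.st r.AW.inn r.At.inn r.BW.inn r.Bt.inn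
       rng [0, J0, s, Int.add J0 s, G, Int.add G J1, Int.add G s, Int.add (Int.add G J1) s]))

/-- data of a test leaf (no diagonal line) -/
structure SL where
  st : ℕ
  ty : ℕ
  T : List ℤ
  n : List ℤ
  W : List ℤ
  en : Cert × Cert
  sc : Cert
  zn : NZ
  zl : NZ
  AW : Mem
  At : Mem
  BW : Mem
  Bt : Mem
  Z : List Zn

/-- ordinate of a test -/
def sS (K : Cls) (r : SL) : List ℤ := match r.ty with
  | 0 => axpy 1 r.T (fx K r.n)
  | 1 => z0f K
  | 2 => axpy 1 K.A (z0f K)
  | 3 => axpy 1 K.D (z0f K)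
  | _ => axpy 1 K.A (axpy 1 K.D (z0f K))

def sT (K : Cls) (r : SL) : List ℤ := match r.ty with
  | 0 => r.T
  | _ => axpy (-1) (fx K r.n) (sS K r)

def soff (r : SL) : List ℤ := match r.ty with
  | 0 => [1]
  | _ => []

def ss1 (r : SL) : ℕ := match r.ty with
  | 1 => 1
  | 3 => 2
  | _ => 0

def ss2 (r : SL) : ℕ := match r.ty with
  | 0 => 0
  | 1 => 0
  | 2 => 1
  | 3 => 0
  | _ => 2

def slc (K : Cls) (Q : List Con) (r : SL) : Bool :=
  isI K r.W && (match r.ty with
    | 0 => isI K r.T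
    | _ => Nat.ble r.st 1) &&
  nix K Q r.st r.n r.en r.zn r.sc r.zl &&
  lmem K Q r.st r.n r.W (sT K r) (soff r) r.AW r.At r.BW r.Bt &&
  zall K Q (ss1 r) (ss2 r) (sp4 K r.st) (sS K r) (fx K r.n) r.W (sT K r) (soff r) r.Z &&
  (let G := zG K (ss1 r) (ss2 r) (sp4 K r.st) r.Z
   let J0 := jmp0 r.st r.AW.inn r.At.inn r.BW.inn r.Bt.inn
   let J1 := jmp1 r.st r.AW.inn r.At.inn r.BW.inn r.Bt.inn
   rng [0, J0, G, Int.add G J1])

/-- data of a `K` leaf -/
structure KL where
  ty : ℕ
  n : List ℤ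
  q1 : ℤ
  q2 : ℤ
  en : Cert × Cert
  zn : NZ
  zl : NZ
  zp : NZ
  zk : NZ
  zk2 : NZ
  c : List Cert

def kgoals (Q : List Con) (z s : List ℤ) : List (ℤ × ℤ × List ℤ) → List Cert → Bool
  | [], _ => true
  | (a, b, e) :: gs, c :: cs => cert Q c (axpy a z (axpy b s e)) && kgoals Q z s gs cs
  | _ :: _, [] => false

def klc (K : Cls) (Q : List Con) (r : KL) : Bool :=
  exc K Q r.n r.en r.zn && nzc K Q (dsub r.n dL) r.zl && nzc K Q (axpy 1 dL r.n) r.zp &&
  (match K.kf.drop r.ty with
    | [] => false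
    | (fl, gs) :: _ => (izero (tau r.n) || (match fl with
        | 0 => true
        | 1 => nzc K Q (dsub r.n [0, 0, 1]) r.zk
        | _ => nzc K Q (dsub r.n [0, 0, 1]) r.zk && nzc K Q (axpy 1 [0, 0, 1] r.n) r.zk2)) &&
      kgoals Q (axpy r.q1 K.P (fx K r.n)) (axpy r.q2 K.P (axpy 1 (fR K r.n) (fx K r.n))) gs r.c)

/-- justification that a real form does not vanish -/
inductive Ju where
  /-- `e = ± (I n - I f) + int`, sign `+` if `s` -/
  | p (s : Bool) (n f : List ℤ) (en : Cert × Cert) (zn : NZ) (wf : ℕ) (ef : Cert × Cert) (zf : NZ)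
    (z : NZ)
  /-- `n - f = j l ± p` -/
  | pp (s : Bool) (v : List ℤ)
  | e0 (s : Bool) (n : List ℤ) (z : NZ)
  | ed (s : Bool) (n : List ℤ) (z : NZ)

def sg : Bool → ℤ
  | true => 1
  | false => -1

def juc (K : Cls) (Q : List Con) (e : List ℤ) : Ju → Bool
  | .p s n f en zn wf ef zf z =>
    isI K (axpy (sg s) (axpy (-1) (fI K n) (fI K f)) e) && exc K Q n en zn &&
    (match wf with
      | 0 => leq f []
      | 1 => leq f [1]
      | _ => exc K Q f ef zf) &&
    t1 (Int.sub (tau n) (tau f)) &&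
    nzc K Q (axpy (Int.sub (tau f) (tau n)) dL (dsub n f)) z
  | .pp s v => isI K (axpy (sg s) (axpy (-1) (fI K v) []) e) &&
    (match v with
      | a :: _ :: r => isone a && allz r
      | _ => false)
  | .e0 s n z => leq e (axpy (sg s) (fI K n) []) && t1 (tau n) && (!izero (tau n) || nzc K Q n z)
  | .ed s n z => leq e (axpy (sg s) (axpy (-1) (fI K n) K.D) []) && t1 (tau n) &&
      (!izero (tau n) || nzc K Q n z)

inductive Tre where
  | I (e : List ℤ) (L R : Tre)
  | Q (e : List ℤ) (j : Ju) (L R : Tre)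
  | C (c : List (ℕ × ℕ))
  | N (v : List ℤ) (m : ℤ) (c1 c2 : Cert) (z : NZ)
  | K (r : KL)
  | R (r : RL)
  | S (r : SL)

def chk (K : Cls) : Tre → List Con → Bool
  | .I e L R, Q => isI K e && chk K L ((true, e) :: Q) && chk K R ((true, axpy (-1) e [1]) :: Q)
  | .Q e j L R, Q => juc K Q e j && chk K L ((false, e) :: Q) &&
      chk K R ((false, axpy (-1) e []) :: Q)
  | .C c, Q => comb c Q [] (Int.ofNat 0) false
  | .N v m c1 c2 z, Q => nzc K Q v z &&
      cert Q c1 (axpy (Int.neg m) K.P (axpy 1 (fR K v) [1])) &&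
      cert Q c2 (axpy m K.P (axpy (-1) (fR K v) [1]))
  | .K r, Q => klc K Q r
  | .R r, Q => rlc K Q r
  | .S r, Q => slc K Q r

end Helper11.CT
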