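import Pool.Agent.Helper11.CT.Defs

set_option autoImplicit false

/-!
# Certified decision trees for the world with second ties: the checker

Generators: `p`, `l`, `q`, ...
-/

noncomputable section

namespace Helper11.CT

/-- data of a class: `E`, `T = t a`, descriptor of `k` -/
structure Cx where
  K : Cls
  E : List ℤ
  T : List ℤ
  kd : List ℤ

/-- `q - l` -/
def dM : List ℤ := [0, -1, 1]

/-- `p + l - q` -/
def dV : List ℤ := [1, 1, -1]

structure RL2 where
  r : RL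
  sc2 : Cert
  zm : NZ
  znm : NZ
  zfm : NZ

structure SL2 where
  r : SL
  sc2 : Cert
  zm : NZ

structure KL2 where
  r : KL
  zm : NZ
  zpm : NZ

/-- row of the class shift -/
def rB (M : Cx) (st : ℕ) (n : List ℤ) : List ℤ := match st with
  | 1 => axpy (-1) M.K.C (fR M.K n)
  | 2 => axpy (-1) M.K.C (fR M.K n)
  | _ => axpy 1 M.T (axpy (-1) M.K.C (fR M.K n))

/-- memberships of the line functions -/
def lmem2 (M : Cx) (Q : List Con) (st : ℕ) (n W t off : List ℤ) (AW At BW Bt : Mem) : Bool :=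
  memc Q M.K.P W (fR M.K n) M.K.A [1] AW && memc Q M.K.P t (fR M.K n) M.K.A off At &&
  (match st with
    | 0 => true
    | _ => memc Q M.K.P W (rB M st n) M.K.A [1] BW && memc Q M.K.P t (rB M st n) M.K.A off Bt)

/-- the jumps in the two windows -/
def jm0 (st : ℕ) (AW At BW Bt : Bool) : ℤ := match st with
  | 0 => JU AW At
  | 4 => JU AW At
  | _ => JM AW At BW Bt

def jm1 (st : ℕ) (AW At BW Bt : Bool) : ℤ := match st with
  | 0 => JU AW At
  | 2 => JU AW At
  | _ => JM AW At BW Bt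

/-- known value of zone 4 -/
def s4 (K : Cls) (st : ℕ) : ℕ := match st with
  | 2 => (match K.ds with | .ofNat _ => 1 | _ => 2)
  | 4 => (match K.ds with | .ofNat _ => 2 | _ => 1)
  | _ => 0

/-- index conditions of the vertical line -/
def nix2 (M : Cx) (Q : List Con) (st : ℕ) (n : List ℤ) (en : Cert × Cert) (zn : NZ)
    (sc sc2 : Cert) (zl zm : NZ) : Bool :=
  match st with
    | 0 => exc M.K Q n en zn && cert Q sc (axpy (-1) (fI M.K n) M.K.J) &&
        (ieq (tau n) 1 || nzc M.K Q (dsub n dL) zl) &&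
        cert Q sc2 (axpy (-1) M.K.J (axpy 1 M.E (axpy (-1) M.K.D (fI M.K n)))) &&
        (ieq (tau n) 1 || nzc M.K Q (axpy 1 dM n) zm)
    | 1 => exc M.K Q n en zn && cert Q sc (axpy (-1) M.K.J (fI M.K n)) &&
        (ieq (tau n) 1 || nzc M.K Q (dsub n dL) zl)
    | 2 => leq n dL
    | 3 => exc M.K Q n en zn &&
        cert Q sc (axpy (-1) (fI M.K n) (axpy (-1) M.E (axpy 1 M.K.D M.K.J))) &&
        (ieq (tau n) 1 || nzc M.K Q (axpy 1 dM n) zm)
    | 4 => leq n dV
    | _ => false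

/-- index conditions of the pair -/
def rlix2 (M : Cx) (Q : List Con) (x : RL2) : Bool :=
  nix2 M Q x.r.st x.r.n x.r.en x.r.zn x.r.sc x.sc2 x.r.zl x.zm &&
  (match x.r.f0 with
    | true => leq x.r.f [] && x.r.jr && (match x.r.st with | 1 => true | 3 => true | _ => false)
    | false => exc M.K Q x.r.f x.r.ef x.r.zf &&
        (ieq (tau x.r.n) (tau x.r.f) || nzc M.K Q (dsub x.r.n x.r.f) x.r.znf) &&
        (match x.r.st with
          | 1 => ieq (tau x.r.n) (Int.add (tau x.r.f) 1) ||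
              nzc M.K Q (dsub (dsub x.r.n x.r.f) dL) x.r.znl
          | 3 => ieq (tau x.r.n) (Int.add (tau x.r.f) 1) ||
              nzc M.K Q (axpy 1 dM (dsub x.r.n x.r.f)) x.znm
          | _ => true) &&
        (match x.r.st with
          | 2 => true
          | 4 => true
          | _ => ((!ieq (tau x.r.n) (Int.add (tau x.r.f) 2)) ||
                (nzc M.K Q (dsub (dsub x.r.n x.r.f) dL) x.r.znl &&
                  nzc M.K Q (axpy 1 dM (dsub x.r.n x.r.f)) x.znm)) &&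
              ((!ieq (tau x.r.f) (Int.add (tau x.r.n) 2)) ||
                (nzc M.K Q (axpy 1 dL (dsub x.r.n x.r.f)) x.r.zfl &&
                  nzc M.K Q (dsub (dsub x.r.n x.r.f) dM) x.zfm))))

def rlc2 (M : Cx) (Q : List Con) (x : RL2) : Bool :=
  isI M.K x.r.W && rlix2 M Q x &&
  memc Q M.K.P x.r.W (fkd M.K x.r) M.K.B [1] x.r.KW &&
  memc Q M.K.P (axpy (-1) (fx M.K x.r.n) (fd M.K x.r)) (fkd M.K x.r) M.K.B [] x.r.Kt &&
  lmem2 M Q x.r.st x.r.n x.r.W (axpy (-1) (fx M.K x.r.n) (fd M.K x.r)) [] x.r.AW x.r.At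
    x.r.BW x.r.Bt &&
  (match x.r.jr with
    | true => (match x.r.st with | 0 => false | _ => true) && (x.r.KW.inn != x.r.Kt.inn) &&
        istwo (JM x.r.AW.inn x.r.At.inn x.r.BW.inn x.r.Bt.inn)
    | false =>
      zall M.K Q 0 0 (s4 M.K x.r.st) (fd M.K x.r) (fx M.K x.r.n) x.r.W
        (axpy (-1) (fx M.K x.r.n) (fd M.K x.r)) [] x.r.Z &&
      (let G := zG M.K 0 0 (s4 M.K x.r.st) x.r.Z
       let s := Int.mul (match x.r.dk with | true => 1 | false => -1)
          (Int.sub (b2 x.r.KW.inn) (b2 x.r.Kt.inn))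
       let J0 := jm0 x.r.st x.r.AW.inn x.r.At.inn x.r.BW.inn x.r.Bt.inn
       let J1 := jm1 x.r.st x.r.AW.inn x.r.At.inn x.r.BW.inn x.r.Bt.inn
       rng [0, J0, s, Int.add J0 s, G, Int.add G J1, Int.add G s, Int.add (Int.add G J1) s]))

def slc2 (M : Cx) (Q : List Con) (x : SL2) : Bool :=
  isI M.K x.r.W && (match x.r.ty with
    | 0 => isI M.K x.r.T && (match x.r.st with | 4 => false | _ => true)
    | _ => (match x.r.st with | 0 => true | 1 => true | 3 => true | _ => false)) &&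
  nix2 M Q x.r.st x.r.n x.r.en x.r.zn x.r.sc x.sc2 x.r.zl x.zm &&
  lmem2 M Q x.r.st x.r.n x.r.W (sT M.K x.r) (soff x.r) x.r.AW x.r.At x.r.BW x.r.Bt &&
  zall M.K Q (ss1 x.r) (ss2 x.r) (s4 M.K x.r.st) (sS M.K x.r) (fx M.K x.r.n) x.r.W
    (sT M.K x.r) (soff x.r) x.r.Z &&
  (let G := zG M.K (ss1 x.r) (ss2 x.r) (s4 M.K x.r.st) x.r.Z
   let J0 := jm0 x.r.st x.r.AW.inn x.r.At.inn x.r.BW.inn x.r.Bt.inn
   let J1 := jm1 x.r.st x.r.AW.inn x.r.At.inn x.r.BW.inn x.r.Bt.inn
   rng [0, J0, G, Int.add G J1])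

def klc2 (M : Cx) (Q : List Con) (x : KL2) : Bool :=
  exc M.K Q x.r.n x.r.en x.r.zn && nzc M.K Q (dsub x.r.n dL) x.r.zl &&
  nzc M.K Q (axpy 1 dL x.r.n) x.r.zp && nzc M.K Q (dsub x.r.n dM) x.zm &&
  nzc M.K Q (axpy 1 dM x.r.n) x.zpm &&
  (match M.K.kf.drop x.r.ty with
    | [] => false
    | (fl, gs) :: _ => (izero (tau x.r.n) || (match fl with
        | 0 => true
        | 1 => nzc M.K Q (dsub x.r.n M.kd) x.r.zk
        | _ => nzc M.K Q (dsub x.r.n M.kd) x.r.zk && nzc M.K Q (axpy 1 M.kd x.r.n) x.r.zk2)) &&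
      kgoals Q (axpy x.r.q1 M.K.P (fx M.K x.r.n))
        (axpy x.r.q2 M.K.P (axpy 1 (fR M.K x.r.n) (fx M.K x.r.n))) gs x.r.c)

/-- second condition of a justification -/
def ju2 (M : Cx) (Q : List Con) (n f : List ℤ) (z : NZ) : Bool :=
  ((!ieq (Int.sub (tau n) (tau f)) 1) || nzc M.K Q (axpy 1 dM (dsub n f)) z) &&
    ((!ieq (Int.sub (tau n) (tau f)) (-1)) || nzc M.K Q (dsub (dsub n f) dM) z)

/-- justification that a real form does not vanish -/
inductive Ju2 where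
  | p (s : Bool) (n f : List ℤ) (en : Cert × Cert) (zn : NZ) (wf : ℕ) (ef : Cert × Cert) (zf : NZ)
    (z z2 : NZ)
  | pp (s : Bool) (v : List ℤ)
  | e0 (s : Bool) (n : List ℤ) (z : NZ)
  | ed (s : Bool) (n : List ℤ) (z : NZ)

def isone2 : ℤ → Bool
  | .ofNat 1 => true
  | .ofNat 2 => true
  | .negSucc 0 => true
  | .negSucc 1 => true
  | _ => false

def juc2 (M : Cx) (Q : List Con) (e : List ℤ) : Ju2 → Bool
  | .p s n f en zn wf ef zf z z2 =>
    isI M.K (axpy (sg s) (axpy (-1) (fI M.K n) (fI M.K f)) e) && exc M.K Q n en zn &&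
    (match wf with
      | 0 => leq f []
      | 1 => leq f [1]
      | _ => exc M.K Q f ef zf) &&
    t1 (Int.sub (tau n) (tau f)) &&
    nzc M.K Q (axpy (Int.sub (tau f) (tau n)) dL (dsub n f)) z && ju2 M Q n f z2
  | .pp s v => isI M.K (axpy (sg s) (axpy (-1) (fI M.K v) []) e) &&
    (match v with
      | a :: _ :: _ :: r => isone2 a && allz r
      | _ => false)
  | .e0 s n z => leq e (axpy (sg s) (fI M.K n) []) && t1 (tau n) &&
      (!izero (tau n) || nzc M.K Q n z)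
  | .ed s n z => leq e (axpy (sg s) (axpy (-1) (fI M.K n) M.K.D) []) && t1 (tau n) &&
      (!izero (tau n) || nzc M.K Q n z)

inductive Tr2 where
  | I (e : List ℤ) (L R : Tr2)
  | Q (e : List ℤ) (j : Ju2) (L R : Tr2)
  | C (c : List (ℕ × ℕ))
  | N (v : List ℤ) (m : ℤ) (c1 c2 : Cert) (z : NZ)
  | K (r : KL2)
  | R (r : RL2)
  | S (r : SL2)

def chk2 (M : Cx) : Tr2 → List Con → Bool
  | .I e L R, Q => isI M.K e && chk2 M L ((true, e) :: Q) &&
      chk2 M R ((true, axpy (-1) e [1]) :: Q)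
  | .Q e j L R, Q => juc2 M Q e j && chk2 M L ((false, e) :: Q) &&
      chk2 M R ((false, axpy (-1) e []) :: Q)
  | .C c, Q => comb c Q [] (Int.ofNat 0) false
  | .N v m c1 c2 z, Q => nzc M.K Q v z &&
      cert Q c1 (axpy (Int.neg m) M.K.P (axpy 1 (fR M.K v) [1])) &&
      cert Q c2 (axpy m M.K.P (axpy (-1) (fR M.K v) [1]))
  | .K r, Q => klc2 M Q r
  | .R r, Q => rlc2 M Q r
  | .S r, Q => slc2 M Q r

end Helper11.CT
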