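import Pool.Agent.Helper11.CT.Rule

set_option autoImplicit false
set_option linter.unusedSectionVars false

/-!
# Certified decision trees: index conditions, justifications, `K` leaves
-/

noncomputable section

namespace Helper11.CT

open Helper25.KW Helper55.KE

section

variable {K : Cls} {p a b c J ds l q : ℤ} {D dl : ℝ} {Cl : ℤ → ℤ → ℤ → ℤ → ℝ → Prop}
  {vi : List ℤ} {vr : List ℝ} {Nr : List ℤ}

theorem NN_dL (p l : ℤ) (Nr : List ℤ) : NN p l Nr dL = l := by
  simp [NN, dL]

theorem tau_dL : tau dL = 1 := rfl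

theorem NN_dsub (p l : ℤ) (Nr v w : List ℤ) :
    NN p l Nr (dsub v w) = NN p l Nr v - NN p l Nr w := by
  unfold dsub
  rw [NN_axpy]
  ring

theorem tau_dsub (v w : List ℤ) : tau (dsub v w) = tau v - tau w := by
  unfold dsub
  rw [tau_axpy]
  ring

theorem Val.clE (h : Val K p a b c J ds l q D dl Cl vi vr Nr) (n : List ℤ) :
    Cl (NN p l Nr n) (tau n) (eX K vi n) (eR K vi n) (eI K vi vr n) := h.cln n

/-- two clusters with the same index and the same `τ` -/
theorem Val.same (h : Val K p a b c J ds l q D dl Cl vi vr Nr) {N τ X R X' R' : ℤ} {I I' : ℝ}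
    (h1 : Cl N τ X R I) (h2 : Cl N τ X' R' I') :
    I = I' ∧ (∃ m : ℤ, X = X' + m * p) ∧ (∃ m : ℤ, R = R' + m * p) := by
  have h3 := h.add h1 (h.neg h2)
  have e1 : N + -N = 0 := by ring
  have e2 : τ + -τ = 0 := by ring
  rw [e1, e2] at h3
  have h4 := h.pos0 h3
  have h5 := h.pos0 (h.neg h3)
  refine ⟨?_, ?_, ?_⟩
  · by_contra hcon
    rcases lt_or_gt_of_ne hcon with h6 | h6
    · exact absurd (h5.1 (by linarith)) (by simp)
    · exact absurd (h4.1 (by linarith)) (by simp)
  · obtain ⟨m, hm⟩ := h.dvX h3 (dvd_zero p)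
    exact ⟨m, by linarith⟩
  · obtain ⟨m, hm⟩ := (h.dvd h3).1 (dvd_zero p)
    exact ⟨m, by linarith⟩

theorem ev_nil (vi : List ℤ) : evg vi (lin K.gI []) = 0 := by
  have e : ∀ G : List (List ℤ), lin G [] = [] := fun G => by cases G <;> rfl
  rw [e]
  simp

/-- the index conditions on the vertical line -/
theorem Val.ixn (h : Val K p a b c J ds l q D dl Cl vi vr Nr) {Q : List Con}
    (hQ : ∀ c ∈ Q, hld (xv vi vr) c) {st : ℕ} {n : List ℤ} {en : Cert × Cert} {zn : NZ}
    {sc : Cert} {zl : NZ} (hr : nix K Q st n en zn sc zl = true) :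
    |tau n| ≤ 1 ∧ 0 < NN p l Nr n ∧ NN p l Nr n < p ∧
      (st = 0 → NN p l Nr n < l) ∧ (st = 1 → l < NN p l Nr n) ∧
      (st ≠ 0 → st ≠ 1 → leq n dL = true ∧ NN p l Nr n = l ∧ tau n = 1) := by
  unfold nix at hr
  rcases st with _ | _ | s
  · simp only [Bool.and_eq_true, Bool.or_eq_true, ieq_iff] at hr
    obtain ⟨⟨e1, e2⟩, e3⟩ := hr
    obtain ⟨g1, g2, g3⟩ := h.ex hQ e1
    refine ⟨g1, g2, g3, fun _ => ?_, fun hh => absurd hh (by simp), fun hh => absurd rfl hh⟩
    have g4 := cert_sound h.hx hQ e2
    rw [evg_axpy, h.eJ] at g4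
    push_cast at g4
    have g5 := h.add h.cl (h.neg (h.clE n))
    have g6 : (0 : ℝ) < J + -eI K vi vr n := by
      unfold eI
      linarith
    rcases e3 with e3 | e3
    · rw [e3] at g5
      have := (h.pos0 (by simpa using g5)).1 g6
      linarith
    · have g7 := h.nz hQ e3
      rw [NN_dsub, NN_dL] at g7
      have g8 := h.pos g5 (by rw [abs_le] at *; omega) g6
      rcases lt_or_eq_of_le g8 with g9 | g9
      · linarith
      · exfalso
        apply g7
        have : NN p l Nr n - l = 0 := by linarith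
        rw [this]
        exact dvd_zero p
  · simp only [Bool.and_eq_true, Bool.or_eq_true, ieq_iff] at hr
    obtain ⟨⟨e1, e2⟩, e3⟩ := hr
    obtain ⟨g1, g2, g3⟩ := h.ex hQ e1
    refine ⟨g1, g2, g3, fun hh => absurd hh (by simp), fun _ => ?_, fun _ hh => absurd rfl hh⟩
    have g4 := cert_sound h.hx hQ e2
    rw [evg_axpy, h.eJ] at g4
    push_cast at g4
    have g5 := h.add (h.clE n) (h.neg h.cl)
    have g6 : (0 : ℝ) < eI K vi vr n + -J := by
      unfold eI
      linarith
    rcases e3 with e3 | e3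
    · rw [e3] at g5
      have := (h.pos0 (by simpa using g5)).1 g6
      linarith
    · have g7 := h.nz hQ e3
      rw [NN_dsub, NN_dL] at g7
      have g8 := h.pos g5 (by rw [abs_le] at *; omega) g6
      rcases lt_or_eq_of_le g8 with g9 | g9
      · linarith
      · exfalso
        apply g7
        have : NN p l Nr n - l = 0 := by linarith
        rw [this]
        exact dvd_zero p
  · simp only at hr
    have e1 := leq_ev _ _ hr (p :: l :: Nr)
    have e2 := leq_ev _ _ hr (0 :: 1 :: List.replicate 0 (0 : ℤ))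
    rw [evg_tau, evg_tau] at e2
    have e3 : NN p l Nr n = l := by
      have : NN p l Nr n = NN p l Nr dL := e1
      rw [this, NN_dL]
    refine ⟨by rw [e2]; decide, by rw [e3]; have := h.hl; omega, by rw [e3]; exact h.hlp,
      fun hh => absurd hh (by simp), fun hh => absurd hh (by simp), fun _ _ => ⟨hr, e3, e2⟩⟩

/-- the index conditions on the diagonal line -/
theorem Val.ixf (h : Val K p a b c J ds l q D dl Cl vi vr Nr) {Q : List Con}
    (hQ : ∀ c ∈ Q, hld (xv vi vr) c) {r : RL} (hr : RC K Q r) (hf : r.f0 = false) :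
    |tau r.f| ≤ 1 ∧ 0 < NN p l Nr r.f ∧ NN p l Nr r.f < p ∧ NN p l Nr r.f ≠ NN p l Nr r.n ∧
      (r.st = 1 → NN p l Nr r.f + l ≠ NN p l Nr r.n) ∧
      (tau r.f = tau r.n + 2 → NN p l Nr r.f ≠ NN p l Nr r.n + l) := by
  have hix := hr.ix
  unfold rlix at hix
  rw [hf] at hix
  simp only [Bool.and_eq_true, Bool.or_eq_true, ieq_iff, Bool.not_eq_true'] at hix
  obtain ⟨-, ⟨⟨e1, e2⟩, e3⟩, e4⟩ := hix
  obtain ⟨g1, g2, g3⟩ := h.ex hQ e1
  have hx1 := h.efx r.n
  have hx2 := h.efd r
  refine ⟨g1, g2, g3, ?_, ?_, ?_⟩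
  · intro hcon
    rcases e2 with e2 | e2
    · have c1 := h.clE r.f
      rw [hcon, ← e2] at c1
      obtain ⟨i1, ⟨m, i2⟩, -⟩ := h.same c1 (h.clE r.n)
      refine h.kt hQ hr (e := 0) (Or.inl rfl) ⟨m, ?_⟩
      rw [hx1, hx2]
      unfold dd kk
      cases r.dk with
      | true =>
        simp only
        rw [i1, i2]
        push_cast
        ring
      | false =>
        simp only
        rw [i1, i2]
        push_cast
        ring
    · apply h.nz hQ e2
      rw [NN_dsub, hcon, sub_self]
      exact dvd_zero p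
  · intro hst hcon
    rw [hst] at e3
    simp only [Bool.or_eq_true, ieq_iff] at e3
    rcases e3 with e3 | e3
    · have e3' : tau r.n = tau r.f + 1 := e3
      have c1 := h.add (h.clE r.f) h.cl
      rw [hcon, ← e3'] at c1
      obtain ⟨i1, ⟨m, i2⟩, -⟩ := h.same c1 (h.clE r.n)
      refine h.kt hQ hr (e := b) (Or.inr rfl) ⟨m, ?_⟩
      rw [hx1, hx2]
      have i2' : eX K vi r.n = eX K vi r.f + (-b - ds * J) - m * p := by linarith
      have i2r : ((eX K vi r.n : ℤ) : ℝ) = eX K vi r.f + (-b - ds * J) - m * p := by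
        rw [i2']
        push_cast
        ring
      unfold dd kk
      cases r.dk with
      | true =>
        simp only
        rw [← i1, i2r]
        push_cast
        ring
      | false =>
        simp only
        rw [← i1, i2r]
        push_cast
        ring
    · apply h.nz hQ e3
      rw [NN_dsub, NN_dsub, NN_dL]
      have : NN p l Nr r.n - NN p l Nr r.f - l = 0 := by linarith
      rw [this]
      exact dvd_zero p
  · intro htau hcon
    rcases e4 with e4 | e4
    · have : ieq (tau r.f) (Int.add (tau r.n) 2) = true := by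
        rw [ieq_iff]
        exact htau
      rw [this] at e4
      exact absurd e4 (by simp)
    · apply h.nz hQ e4
      rw [NN_axpy, NN_dsub, NN_dL]
      have : 1 * l + (NN p l Nr r.n - NN p l Nr r.f) = 0 := by linarith
      rw [this]
      exact dvd_zero p

/-- the case `f = 0` -/
theorem Val.ixf0 {Q : List Con} {r : RL} (hr : rlix K Q r = true) (hf : r.f0 = true) :
    leq r.f [] = true ∧ r.jr = true ∧ r.st = 1 := by
  unfold rlix at hr
  rw [hf] at hr
  simp only [Bool.and_eq_true] at hr
  obtain ⟨-, ⟨e1, e2⟩, e3⟩ := hr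
  refine ⟨e1, e2, ?_⟩
  split at e3
  · assumption
  · exact absurd e3 (by simp)

/-- the world decides that the difference of two index coordinates is not an integer -/
def NI (p l : ℤ) (Cl : ℤ → ℤ → ℤ → ℤ → ℝ → Prop) : Prop :=
  ∀ {N τ X R N' τ' X' R' : ℤ} {I I' : ℝ}, Cl N τ X R I → Cl N' τ' X' R' I' →
    |τ - τ'| ≤ 1 → 0 < N → N < p → 0 ≤ N' → N' ≤ p → N - N' ≠ (τ - τ') * l →
    ∀ m : ℤ, I - I' ≠ m

theorem Val.eI_axpy (_h : Val K p a b c J ds l q D dl Cl vi vr Nr) (k : ℤ) (v w : List ℤ) :
    eI K vi vr (axpy k v w) = k * eI K vi vr v + eI K vi vr w := lin_axpy _ _ _ _ _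

/-- justification of a real split -/
theorem Val.ju (h : Val K p a b c J ds l q D dl Cl vi vr Nr) (hNI : NI p l Cl) {Q : List Con}
    (hQ : ∀ c ∈ Q, hld (xv vi vr) c) {e : List ℤ} {j : Ju} (hj : juc K Q e j = true) :
    evg (xv vi vr) e ≠ 0 := by
  intro h0
  have hD : evg (xv vi vr) K.D = D := h.vD
  cases j with
  | p s n f en zn wf ef zf z =>
    simp only [juc, Bool.and_eq_true, t1_iff] at hj
    obtain ⟨⟨⟨⟨h1, h2⟩, h3⟩, h4⟩, h5⟩ := hj
    obtain ⟨g1, g2, g3⟩ := h.ex hQ h2
    have g4 : 0 ≤ NN p l Nr f ∧ NN p l Nr f ≤ p := by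
      rcases wf with _ | _ | wf
      · simp only at h3
        have : NN p l Nr f = 0 := by
          have := leq_ev _ _ h3 (p :: l :: Nr)
          unfold NN
          rw [this]
          simp
        rw [this]
        exact ⟨le_rfl, h.p0.le⟩
      · simp only at h3
        have : NN p l Nr f = p := by
          have := leq_ev _ _ h3 (p :: l :: Nr)
          unfold NN
          rw [this]
          simp
        rw [this]
        exact ⟨h.p0.le, le_rfl⟩
      · simp only at h3
        obtain ⟨-, g5, g6⟩ := h.ex hQ h3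
        exact ⟨g5.le, g6.le⟩
    have g5 := h.nz hQ h5
    have g6 : NN p l Nr n - NN p l Nr f ≠ (tau n - tau f) * l := by
      intro hcon
      apply g5
      rw [NN_axpy, NN_dsub, NN_dL]
      have e1 : Int.sub (tau f) (tau n) = tau f - tau n := rfl
      rw [e1]
      have : (tau f - tau n) * l + (NN p l Nr n - NN p l Nr f) = 0 := by
        rw [hcon]
        ring
      rw [this]
      exact dvd_zero p
    have e2 : Int.sub (tau n) (tau f) = tau n - tau f := rfl
    rw [e2] at h4
    have g7 := hNI (h.clE n) (h.clE f) h4 g2 g3 g4.1 g4.2 g6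
    have g8 := h.xI h1
    rw [evg_axpy, evg_axpy, h0] at g8
    have hs : ((sg s : ℤ) : ℝ) = 1 ∨ ((sg s : ℤ) : ℝ) = -1 := by
      cases s
      · right; simp [sg]
      · left; simp [sg]
    rcases hs with hs | hs
    · rw [hs] at g8
      push_cast at g8
      apply g7 (-(evg vi (axpy (sg s) (axpy (-1) (fI K n) (fI K f)) e)))
      unfold eI
      push_cast
      linarith
    · rw [hs] at g8
      push_cast at g8
      apply g7 (evg vi (axpy (sg s) (axpy (-1) (fI K n) (fI K f)) e))
      unfold eI
      linarith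
  | pp s v =>
    simp only [juc, Bool.and_eq_true] at hj
    obtain ⟨h1, h2⟩ := hj
    have g8 := h.xI h1
    rw [evg_axpy, evg_axpy, h0, evg_nil] at g8
    have hp := h.p0
    have key : ∃ (x t : ℤ) (r : List ℤ), v = x :: t :: r ∧ isone x = true ∧ allz r = true := by
      split at h2
      · rename_i x t r
        simp only [Bool.and_eq_true] at h2
        exact ⟨x, t, r, rfl, h2.1, h2.2⟩
      · exact absurd h2 (by simp)
    obtain ⟨x, t, r, rfl, hx, hr⟩ := key
    have hcl := h.clE (x :: t :: r)
    have e1 : NN p l Nr (x :: t :: r) = x * p + t * l := by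
      simp [NN, allz_ev r hr]
    have hx' : x = 1 ∨ x = -1 := by
      rcases x with z | z
      · rcases z with _ | _ | z
        · exact absurd hx (by show ¬ (false = true); simp)
        · left; rfl
        · exact absurd hx (by show ¬ (false = true); simp)
      · rcases z with _ | z
        · right; rfl
        · exact absurd hx (by show ¬ (false = true); simp)
    have key2 : ∀ m : ℤ, eI K vi vr (x :: t :: r) ≠ m := by
      intro m hm
      have h3 := h.int hcl hm
      rw [e1] at h3
      have e4 : tau (x :: t :: r) = t := rfl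
      rw [e4] at h3
      have h4 : q ∣ x * p := by
        have : x * p + t * l - t * l = x * p := by ring
        rwa [this] at h3
      have h5 : q ∣ p := by
        rcases hx' with rfl | rfl
        · simpa using h4
        · rw [neg_one_mul, dvd_neg] at h4
          exact h4
      have := Int.le_of_dvd hp h5
      have := h.hpq
      omega
    have hs : ((sg s : ℤ) : ℝ) = 1 ∨ ((sg s : ℤ) : ℝ) = -1 := by
      cases s
      · right; simp [sg]
      · left; simp [sg]
    rcases hs with hs | hs
    · rw [hs] at g8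
      push_cast at g8
      apply key2 (-(evg vi (axpy (sg s) (axpy (-1) (fI K (x :: t :: r)) []) e)))
      unfold eI
      push_cast
      linarith
    · rw [hs] at g8
      push_cast at g8
      apply key2 (evg vi (axpy (sg s) (axpy (-1) (fI K (x :: t :: r)) []) e))
      unfold eI
      linarith
  | e0 s n z =>
    simp only [juc, Bool.and_eq_true, Bool.or_eq_true, t1_iff, Bool.not_eq_true'] at hj
    obtain ⟨⟨h1, h2⟩, h3⟩ := hj
    have g1 := leq_ev _ _ h1 (xv vi vr)
    rw [h0, evg_axpy, evg_nil, add_zero] at g1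
    have hI : eI K vi vr n = 0 := by
      unfold eI
      cases s
      · simp only [sg] at g1
        push_cast at g1
        linarith
      · simp only [sg] at g1
        push_cast at g1
        linarith
    refine h.ne0 (h.clE n) h2 ?_ hI
    rcases h3 with h3 | h3
    · right
      intro hcon
      rw [(izero_iff _).2 hcon] at h3
      exact absurd h3 (by simp)
    · left
      intro hcon
      apply h.nz hQ h3
      rw [hcon]
      exact dvd_zero p
  | ed s n z =>
    simp only [juc, Bool.and_eq_true, Bool.or_eq_true, t1_iff, Bool.not_eq_true'] at hj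
    obtain ⟨⟨h1, h2⟩, h3⟩ := hj
    have g1 := leq_ev _ _ h1 (xv vi vr)
    rw [h0, evg_axpy, evg_axpy, evg_nil, add_zero, hD] at g1
    have hI : eI K vi vr n = D := by
      unfold eI
      cases s
      · simp only [sg] at g1
        push_cast at g1
        linarith
      · simp only [sg] at g1
        push_cast at g1
        linarith
    refine h.neD (h.clE n) h2 ?_ hI
    rcases h3 with h3 | h3
    · right
      intro hcon
      rw [(izero_iff _).2 hcon] at h3
      exact absurd h3 (by simp)
    · left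
      intro hcon
      apply h.nz hQ h3
      rw [hcon]

/-- the fact behind one `K` form -/
def KOk (p l : ℤ) (Cl : ℤ → ℤ → ℤ → ℤ → ℝ → Prop) (ds : ℤ) (x : List ℝ) (Nk : ℤ)
    (kf : ℕ × List (ℤ × ℤ × List ℤ)) : Prop :=
  ∀ {N τ X R : ℤ} {I : ℝ}, Cl N τ X R I → |τ| ≤ 1 → 0 < N → N < p → N ≠ l → N + l ≠ p →
    (τ = 0 ∨ (1 ≤ kf.1 → N ≠ Nk) ∧ (2 ≤ kf.1 → N + Nk ≠ p)) →
    (∀ g ∈ kf.2, (0 : ℝ) < g.1 * (X + ds * I) + g.2.1 * (X + ds * I + R) + evg x g.2.2) → False

theorem Val.kgoals_sound (h : Val K p a b c J ds l q D dl Cl vi vr Nr) {Q : List Con}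
    (hQ : ∀ c ∈ Q, hld (xv vi vr) c) {z s : List ℤ} : ∀ {gs : List (ℤ × ℤ × List ℤ)}
    {cs : List Cert}, kgoals Q z s gs cs = true →
    ∀ g ∈ gs, (0 : ℝ) < g.1 * evg (xv vi vr) z + g.2.1 * evg (xv vi vr) s +
      evg (xv vi vr) g.2.2 := by
  intro gs
  induction gs with
  | nil => intro cs _ g hg; exact absurd hg (by simp)
  | cons g gs ih =>
    intro cs hk g' hg'
    cases cs with
    | nil => exact absurd hk (by obtain ⟨a, b, e⟩ := g; simp [kgoals])
    | cons c cs =>
      obtain ⟨a1, b1, e⟩ := g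
      simp only [kgoals, Bool.and_eq_true] at hk
      rcases List.mem_cons.1 hg' with rfl | hg''
      · have := cert_sound h.hx hQ hk.1
        rw [evg_axpy, evg_axpy] at this
        simp only
        linarith
      · exact ih hk.2 g' hg''

theorem Val.klf (h : Val K p a b c J ds l q D dl Cl vi vr Nr) {Q : List Con}
    (hQ : ∀ c ∈ Q, hld (xv vi vr) c) {Nk : ℤ} (hNk : ∀ kf ∈ K.kf, 1 ≤ kf.1 →
      ∃ t, Nr = Nk :: t) (hK : ∀ kf ∈ K.kf, KOk p l Cl ds (xv vi vr) Nk kf)
    {r : KL} (hr : klc K Q r = true) : False := by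
  unfold klc at hr
  simp only [Bool.and_eq_true] at hr
  obtain ⟨⟨⟨h1, h2⟩, h3⟩, h4⟩ := hr
  obtain ⟨g1, g2, g3⟩ := h.ex hQ h1
  have g4 := h.nz hQ h2
  have g5 := h.nz hQ h3
  rw [NN_dsub, NN_dL] at g4
  rw [NN_axpy, NN_dL] at g5
  rcases hd : K.kf.drop r.ty with _ | ⟨⟨fl, gs⟩, L⟩
  · rw [hd] at h4
    exact absurd h4 (by simp)
  · rw [hd] at h4
    simp only [Bool.and_eq_true, Bool.or_eq_true] at h4
    obtain ⟨h5, h6⟩ := h4
    have hmem : (fl, gs) ∈ K.kf := List.mem_of_mem_drop (by rw [hd]; exact List.mem_cons_self)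
    have hcl := h.add (h.add (h.clE r.n) (Base.smul h.toBase h.cX r.q1))
      (Base.smul h.toBase h.cR (r.q2 - r.q1))
    simp only [mul_zero, add_zero] at hcl
    have hP : ∀ v : List ℤ, (∃ t, Nr = Nk :: t) → NN p l Nr [0, 0, 1] = Nk := by
      rintro _ ⟨t, rfl⟩
      simp [NN]
    refine hK _ hmem hcl g1 g2 g3 ?_ ?_ ?_ ?_
    · intro hcon
      apply g4
      rw [hcon, sub_self]
      exact dvd_zero p
    · intro hcon
      apply g5
      have : 1 * l + NN p l Nr r.n = p := by linarith
      rw [this]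
    · rcases h5 with h5 | h5
      · left
        exact (izero_iff _).1 h5
      · right
        rcases fl with _ | _ | fl
        · exact ⟨fun hh => absurd hh (by simp), fun hh => absurd hh (by simp)⟩
        · refine ⟨fun hh => ?_, fun hh => absurd hh (by simp)⟩
          simp only at h5
          have h7 := h.nz hQ h5
          rw [NN_dsub, hP [] (hNk _ hmem hh)] at h7
          intro hcon
          apply h7
          rw [hcon, sub_self]
          exact dvd_zero p
        · simp only [Bool.and_eq_true] at h5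
          refine ⟨fun hh => ?_, fun hh => ?_⟩
          · have h7 := h.nz hQ h5.1
            rw [NN_dsub, hP [] (hNk _ hmem hh)] at h7
            intro hcon
            apply h7
            rw [hcon, sub_self]
            exact dvd_zero p
          · have h7 := h.nz hQ h5.2
            rw [NN_axpy, hP [] (hNk _ hmem (by omega))] at h7
            intro hcon
            apply h7
            have : 1 * Nk + NN p l Nr r.n = p := by linarith
            rw [this]
    · intro g hg
      have h7 := h.kgoals_sound hQ h6 g hg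
      have e1 := h.efx r.n
      have e2 := h.xR r.n
      simp only [evg_axpy, h.eP, e1, e2] at h7
      have e3 : ((evg vi (fR K r.n) : ℤ) : ℝ) = eR K vi r.n := rfl
      rw [e3] at h7
      push_cast at h7 ⊢
      have e4 : (g.1 : ℝ) * ((eX K vi r.n : ℝ) + r.q1 * p + ds * eI K vi vr r.n) +
          g.2.1 * ((eX K vi r.n : ℝ) + r.q1 * p + ds * eI K vi vr r.n +
            (eR K vi r.n + (r.q2 - r.q1) * p)) + evg (xv vi vr) g.2.2 =
          g.1 * (r.q1 * p + (eX K vi r.n + ds * eI K vi vr r.n)) +
          g.2.1 * (r.q2 * p + (1 * eR K vi r.n + (eX K vi r.n + ds * eI K vi vr r.n))) +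
          evg (xv vi vr) g.2.2 := by ring
      rw [e4]
      exact h7

end

end Helper11.CT
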