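import Pool.Agent.Helper11.CT.Rule2

set_option autoImplicit false
set_option linter.unusedSectionVars false

/-!
# Certified decision trees with second ties: index conditions, justifications, `K` leaves
-/

noncomputable section

namespace Helper11.CT

open Helper25.KW Helper55.KE

section

variable {M : Cx} {p a b c J ds l q t E Nk : ℤ} {D dl : ℝ} {Cl : ℤ → ℤ → ℤ → ℤ → ℝ → Prop}
  {vi : List ℤ} {vr : List ℝ} {Nr : List ℤ}

/-- valuation of a class in the second world -/
structure Val2 (M : Cx) (p a b c J ds l q E t : ℤ) (D dl : ℝ) (Cl : ℤ → ℤ → ℤ → ℤ → ℝ → Prop)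
    (vi : List ℤ) (vr : List ℝ) (Nr : List ℤ) (Nk : ℤ) : Prop extends
    Val M.K p a b c J ds l q D dl Cl vi vr (q :: Nr) where
  vE : evg (xv vi vr) M.E = E
  vT : evg (xv vi vr) M.T = ((t * a : ℤ) : ℝ)
  vk : ∃ j : ℤ, NN p l (q :: Nr) M.kd = Nk + j * p

theorem NN_dM (p l q : ℤ) (Nr : List ℤ) : NN p l (q :: Nr) dM = q - l := by
  simp [NN, dM]
  ring

theorem NN_dV (p l q : ℤ) (Nr : List ℤ) : NN p l (q :: Nr) dV = p + l - q := by
  simp [NN, dV]
  ring

theorem tau_dV : tau dV = 1 := rfl

theorem tau_dM : tau dM = -1 := rfl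

/-- the cluster `p + l - q` -/
theorem cv2 (W : World2 p a b c J ds l q E t D dl Cl) :
    Cl (p + l - q) 1 (-b - ds * J + ds * E) (c + b - t * a) (D + J - E) := by
  have h1 := W.add (W.add W.cp W.cl) (W.neg W.cq)
  have e1 : p + l + -q = p + l - q := by ring
  have e2 : (0 : ℤ) + 1 + -0 = 1 := by ring
  have e3 : (0 : ℤ) + (-b - ds * J) + -(-ds * E) = -b - ds * J + ds * E := by ring
  have e4 : (0 : ℤ) + (c + b) + -(t * a) = c + b - t * a := by ring
  have e5 : D + (J : ℝ) + -(E : ℝ) = D + J - E := by ring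
  rw [e1, e2, e3, e4, e5] at h1
  exact h1

/-- the index conditions on the vertical line -/
theorem Val2.ixn (h : Val2 M p a b c J ds l q E t D dl Cl vi vr Nr Nk)
    (W : World2 p a b c J ds l q E t D dl Cl) {Q : List Con}
    (hQ : ∀ c ∈ Q, hld (xv vi vr) c) {st : ℕ} {n : List ℤ} {en : Cert × Cert} {zn : NZ}
    {sc sc2 : Cert} {zl zm : NZ} (hr : nix2 M Q st n en zn sc sc2 zl zm = true) :
    |tau n| ≤ 1 ∧ 0 < NN p l (q :: Nr) n ∧ NN p l (q :: Nr) n < p ∧
      (st = 0 → p + l < NN p l (q :: Nr) n + q ∧ NN p l (q :: Nr) n < l) ∧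
      (st = 1 → l < NN p l (q :: Nr) n) ∧
      (st = 2 → leq n dL = true ∧ NN p l (q :: Nr) n = l ∧ tau n = 1) ∧
      (st = 3 → NN p l (q :: Nr) n + q < p + l) ∧
      (st = 4 → leq n dV = true ∧ NN p l (q :: Nr) n = p + l - q ∧ tau n = 1) ∧ st ≤ 4 := by
  have hq := W.hq
  have hpq := W.hpq
  -- `n < l`
  have lo : |tau n| ≤ 1 → cert Q sc (axpy (-1) (fI M.K n) M.K.J) = true →
      (tau n = 1 ∨ nzc M.K Q (dsub n dL) zl = true) → NN p l (q :: Nr) n < l := by
    intro g1 e2 e3
    have g4 := cert_sound h.hx hQ e2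
    rw [evg_axpy, h.eJ] at g4
    push_cast at g4
    have g5 := h.add h.cl (h.neg (h.clE n))
    have g6 : (0 : ℝ) < J + -eI M.K vi vr n := by
      unfold eI
      linarith
    rcases e3 with e3 | e3
    · rw [e3] at g5
      have := (h.pos0 (by simpa using g5)).1 g6
      linarith
    · have g7 := h.nz hQ e3
      rw [NN_dsub, NN_dL] at g7
      have g8 := h.pos g5 (by rw [abs_le] at *; omega) g6
      rcases lt_or_eq_of_le g8 with g9 | g9
      · linarith
      · exfalso
        apply g7
        have : NN p l (q :: Nr) n - l = 0 := by linarith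
        rw [this]
        exact dvd_zero p
  -- `n > l`
  have hi : |tau n| ≤ 1 → cert Q sc (axpy (-1) M.K.J (fI M.K n)) = true →
      (tau n = 1 ∨ nzc M.K Q (dsub n dL) zl = true) → l < NN p l (q :: Nr) n := by
    intro g1 e2 e3
    have g4 := cert_sound h.hx hQ e2
    rw [evg_axpy, h.eJ] at g4
    push_cast at g4
    have g5 := h.add (h.clE n) (h.neg h.cl)
    have g6 : (0 : ℝ) < eI M.K vi vr n + -J := by
      unfold eI
      linarith
    rcases e3 with e3 | e3
    · rw [e3] at g5
      have := (h.pos0 (by simpa using g5)).1 g6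
      linarith
    · have g7 := h.nz hQ e3
      rw [NN_dsub, NN_dL] at g7
      have g8 := h.pos g5 (by rw [abs_le] at *; omega) g6
      rcases lt_or_eq_of_le g8 with g9 | g9
      · linarith
      · exfalso
        apply g7
        have : NN p l (q :: Nr) n - l = 0 := by linarith
        rw [this]
        exact dvd_zero p
  have hD : evg (xv vi vr) M.K.D = D := h.vD
  -- `n > p + l - q`
  have hi2 : |tau n| ≤ 1 →
      cert Q sc2 (axpy (-1) M.K.J (axpy 1 M.E (axpy (-1) M.K.D (fI M.K n)))) = true →
      (tau n = 1 ∨ nzc M.K Q (axpy 1 dM n) zm = true) → p + l < NN p l (q :: Nr) n + q := by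
    intro g1 e2 e3
    have g4 := cert_sound h.hx hQ e2
    rw [evg_axpy, evg_axpy, evg_axpy, h.eJ, h.vE, hD] at g4
    push_cast at g4
    have g5 := h.add (h.clE n) (h.neg (cv2 W))
    have g6 : (0 : ℝ) < eI M.K vi vr n + -(D + J - E) := by
      unfold eI
      linarith
    rcases e3 with e3 | e3
    · rw [e3] at g5
      have := (h.pos0 (by simpa using g5)).1 g6
      linarith
    · have g7 := h.nz hQ e3
      rw [NN_axpy, NN_dM] at g7
      have g8 := h.pos g5 (by rw [abs_le] at *; omega) g6
      rcases lt_or_eq_of_le g8 with g9 | g9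
      · linarith
      · exfalso
        apply g7
        have : 1 * (q - l) + NN p l (q :: Nr) n = p := by linarith
        rw [this]
  -- `n < p + l - q`
  have lo2 : |tau n| ≤ 1 →
      cert Q sc (axpy (-1) (fI M.K n) (axpy (-1) M.E (axpy 1 M.K.D M.K.J))) = true →
      (tau n = 1 ∨ nzc M.K Q (axpy 1 dM n) zm = true) → NN p l (q :: Nr) n + q < p + l := by
    intro g1 e2 e3
    have g4 := cert_sound h.hx hQ e2
    rw [evg_axpy, evg_axpy, evg_axpy, h.eJ, h.vE, hD] at g4
    push_cast at g4
    have g5 := h.add (cv2 W) (h.neg (h.clE n))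
    have g6 : (0 : ℝ) < D + J - E + -eI M.K vi vr n := by
      unfold eI
      linarith
    rcases e3 with e3 | e3
    · rw [e3] at g5
      have := (h.pos0 (by simpa using g5)).1 g6
      linarith
    · have g7 := h.nz hQ e3
      rw [NN_axpy, NN_dM] at g7
      have g8 := h.pos g5 (by rw [abs_le] at *; omega) g6
      rcases lt_or_eq_of_le g8 with g9 | g9
      · linarith
      · exfalso
        apply g7
        have : 1 * (q - l) + NN p l (q :: Nr) n = p := by linarith
        rw [this]
  unfold nix2 at hr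
  rcases st with _ | _ | _ | _ | _ | s
  · simp only [Bool.and_eq_true, Bool.or_eq_true, ieq_iff] at hr
    obtain ⟨⟨⟨⟨e1, e2⟩, e3⟩, e4⟩, e5⟩ := hr
    obtain ⟨g1, g2, g3⟩ := h.ex hQ e1
    exact ⟨g1, g2, g3, fun _ => ⟨hi2 g1 e4 e5, lo g1 e2 e3⟩, fun hh => absurd hh (by simp),
      fun hh => absurd hh (by simp), fun hh => absurd hh (by simp),
      fun hh => absurd hh (by simp), by omega⟩
  · simp only [Bool.and_eq_true, Bool.or_eq_true, ieq_iff] at hr
    obtain ⟨⟨e1, e2⟩, e3⟩ := hr
    obtain ⟨g1, g2, g3⟩ := h.ex hQ e1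
    exact ⟨g1, g2, g3, fun hh => absurd hh (by simp), fun _ => hi g1 e2 e3,
      fun hh => absurd hh (by simp), fun hh => absurd hh (by simp),
      fun hh => absurd hh (by simp), by omega⟩
  · simp only at hr
    have e1 := leq_ev _ _ hr (p :: l :: q :: Nr)
    have e2 := leq_ev _ _ hr (0 :: 1 :: List.replicate 0 (0 : ℤ))
    rw [evg_tau, evg_tau] at e2
    have e3 : NN p l (q :: Nr) n = l := by
      have : NN p l (q :: Nr) n = NN p l (q :: Nr) dL := e1
      rw [this, NN_dL]
    refine ⟨by rw [e2]; decide, by rw [e3]; have := h.hl; omega, by rw [e3]; exact h.hlp,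
      fun hh => absurd hh (by simp), fun hh => absurd hh (by simp), fun _ => ⟨hr, e3, e2⟩,
      fun hh => absurd hh (by simp), fun hh => absurd hh (by simp), by omega⟩
  · simp only [Bool.and_eq_true, Bool.or_eq_true, ieq_iff] at hr
    obtain ⟨⟨e1, e2⟩, e3⟩ := hr
    obtain ⟨g1, g2, g3⟩ := h.ex hQ e1
    exact ⟨g1, g2, g3, fun hh => absurd hh (by simp), fun hh => absurd hh (by simp),
      fun hh => absurd hh (by simp), fun _ => lo2 g1 e2 e3,
      fun hh => absurd hh (by simp), by omega⟩
  · simp only at hr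
    have e1 := leq_ev _ _ hr (p :: l :: q :: Nr)
    have e2 := leq_ev _ _ hr (0 :: 1 :: List.replicate 0 (0 : ℤ))
    rw [evg_tau, evg_tau] at e2
    have e3 : NN p l (q :: Nr) n = p + l - q := by
      have : NN p l (q :: Nr) n = NN p l (q :: Nr) dV := e1
      rw [this, NN_dV]
    have := W.hlp
    refine ⟨by rw [e2]; decide, by rw [e3]; omega, by rw [e3]; omega,
      fun hh => absurd hh (by simp), fun hh => absurd hh (by simp),
      fun hh => absurd hh (by simp), fun hh => absurd hh (by simp), fun _ => ⟨hr, e3, e2⟩,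
      by omega⟩
  · exact absurd hr (by simp)

/-- the index conditions on the diagonal line -/
theorem Val2.ixf (h : Val2 M p a b c J ds l q E t D dl Cl vi vr Nr Nk)
    (W : World2 p a b c J ds l q E t D dl Cl) {Q : List Con}
    (hQ : ∀ c ∈ Q, hld (xv vi vr) c) {x : RL2} (hr : RC2 M Q x) (hf : x.r.f0 = false) :
    |tau x.r.f| ≤ 1 ∧ 0 < NN p l (q :: Nr) x.r.f ∧ NN p l (q :: Nr) x.r.f < p ∧
      NN p l (q :: Nr) x.r.f ≠ NN p l (q :: Nr) x.r.n ∧
      (x.r.st = 1 → NN p l (q :: Nr) x.r.f + l ≠ NN p l (q :: Nr) x.r.n) ∧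
      (x.r.st = 3 → NN p l (q :: Nr) x.r.f + l ≠ NN p l (q :: Nr) x.r.n + q) ∧
      (x.r.st ≠ 2 → x.r.st ≠ 4 → tau x.r.f = tau x.r.n + 2 →
        NN p l (q :: Nr) x.r.f ≠ NN p l (q :: Nr) x.r.n + l ∧
        NN p l (q :: Nr) x.r.f + q ≠ NN p l (q :: Nr) x.r.n + l) ∧
      (x.r.st ≠ 2 → x.r.st ≠ 4 → tau x.r.n = tau x.r.f + 2 →
        NN p l (q :: Nr) x.r.n ≠ NN p l (q :: Nr) x.r.f + l ∧
        NN p l (q :: Nr) x.r.n + q ≠ NN p l (q :: Nr) x.r.f + l) := by
  have hix := hr.ix
  unfold rlix2 at hix
  rw [hf] at hix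
  simp only [Bool.and_eq_true, Bool.or_eq_true, ieq_iff] at hix
  obtain ⟨-, ⟨⟨e1, e2⟩, e3⟩, e4⟩ := hix
  obtain ⟨g1, g2, g3⟩ := h.ex hQ e1
  have hx1 := h.efx x.r.n
  have hx2 := h.efd x.r
  refine ⟨g1, g2, g3, ?_, ?_, ?_, ?_⟩
  · intro hcon
    rcases e2 with e2 | e2
    · have c1 := h.clE x.r.f
      rw [hcon, ← e2] at c1
      obtain ⟨i1, ⟨m, i2⟩, -⟩ := h.same c1 (h.clE x.r.n)
      refine h.kt2 hQ hr (e := 0) (Or.inl rfl) ⟨m, ?_⟩
      rw [hx1, hx2]
      unfold dd kk
      cases x.r.dk with
      | true =>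
        simp only
        rw [i1, i2]
        push_cast
        ring
      | false =>
        simp only
        rw [i1, i2]
        push_cast
        ring
    · apply h.nz hQ e2
      rw [NN_dsub, hcon, sub_self]
      exact dvd_zero p
  · intro hst hcon
    rw [hst] at e3
    simp only [Bool.or_eq_true, ieq_iff] at e3
    rcases e3 with e3 | e3
    · have e3' : tau x.r.n = tau x.r.f + 1 := e3
      have c1 := h.add (h.clE x.r.f) h.cl
      rw [hcon, ← e3'] at c1
      obtain ⟨i1, ⟨m, i2⟩, -⟩ := h.same c1 (h.clE x.r.n)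
      refine h.kt2 hQ hr (e := b) (Or.inr rfl) ⟨m, ?_⟩
      rw [hx1, hx2]
      have i2' : eX M.K vi x.r.n = eX M.K vi x.r.f + (-b - ds * J) - m * p := by linarith
      have i2r : ((eX M.K vi x.r.n : ℤ) : ℝ) = eX M.K vi x.r.f + (-b - ds * J) - m * p := by
        rw [i2']
        push_cast
        ring
      unfold dd kk
      cases x.r.dk with
      | true =>
        simp only
        rw [← i1, i2r]
        push_cast
        ring
      | false =>
        simp only
        rw [← i1, i2r]
        push_cast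
        ring
    · apply h.nz hQ e3
      rw [NN_dsub, NN_dsub, NN_dL]
      have : NN p l (q :: Nr) x.r.n - NN p l (q :: Nr) x.r.f - l = 0 := by linarith
      rw [this]
      exact dvd_zero p
  · intro hst hcon
    rw [hst] at e3
    simp only [Bool.or_eq_true, ieq_iff] at e3
    rcases e3 with e3 | e3
    · have e3' : tau x.r.n = tau x.r.f + 1 := e3
      have c1 := h.add (h.clE x.r.f) (h.add h.cl (h.neg W.cq))
      have e5 : tau x.r.f + (1 + -0) = tau x.r.n := by rw [e3']; ring
      have e6 : NN p l (q :: Nr) x.r.f + (l + -q) = NN p l (q :: Nr) x.r.n := by linarith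
      rw [e5, e6] at c1
      obtain ⟨i1, ⟨m, i2⟩, -⟩ := h.same c1 (h.clE x.r.n)
      refine h.kt2 hQ hr (e := b) (Or.inr rfl) ⟨m, ?_⟩
      rw [hx1, hx2]
      have i2' : eX M.K vi x.r.n = eX M.K vi x.r.f + (-b - ds * J + -(-ds * E)) - m * p := by
        linarith
      have i2r : ((eX M.K vi x.r.n : ℤ) : ℝ) =
          eX M.K vi x.r.f + (-b - ds * J + -(-ds * E)) - m * p := by
        rw [i2']
        push_cast
        ring
      unfold dd kk
      cases x.r.dk with
      | true =>
        simp only
        rw [← i1, i2r]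
        push_cast
        ring
      | false =>
        simp only
        rw [← i1, i2r]
        push_cast
        ring
    · apply h.nz hQ e3
      rw [NN_axpy, NN_dsub, NN_dM]
      have : 1 * (q - l) + (NN p l (q :: Nr) x.r.n - NN p l (q :: Nr) x.r.f) = 0 := by linarith
      rw [this]
      exact dvd_zero p
  · have key : x.r.st ≠ 2 → x.r.st ≠ 4 →
        ((!ieq (tau x.r.n) (Int.add (tau x.r.f) 2)) = true ∨
          nzc M.K Q (dsub (dsub x.r.n x.r.f) dL) x.r.znl = true ∧
            nzc M.K Q (axpy 1 dM (dsub x.r.n x.r.f)) x.znm = true) ∧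
        ((!ieq (tau x.r.f) (Int.add (tau x.r.n) 2)) = true ∨
          nzc M.K Q (axpy 1 dL (dsub x.r.n x.r.f)) x.r.zfl = true ∧
            nzc M.K Q (dsub (dsub x.r.n x.r.f) dM) x.zfm = true) := by
      intro s2 s4
      split at e4
      · exact absurd (by assumption) s2
      · exact absurd (by assumption) s4
      · simp only [Bool.and_eq_true, Bool.or_eq_true] at e4
        exact e4
    refine ⟨fun s2 s4 htau => ?_, fun s2 s4 htau => ?_⟩
    · obtain ⟨-, e5⟩ := key s2 s4
      rcases e5 with e5 | ⟨e5, e6⟩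
      · exfalso
        have : ieq (tau x.r.f) (Int.add (tau x.r.n) 2) = true := by
          rw [ieq_iff]
          exact htau
        rw [this] at e5
        exact absurd e5 (by simp)
      · constructor
        · intro hcon
          apply h.nz hQ e5
          rw [NN_axpy, NN_dsub, NN_dL]
          have : 1 * l + (NN p l (q :: Nr) x.r.n - NN p l (q :: Nr) x.r.f) = 0 := by linarith
          rw [this]
          exact dvd_zero p
        · intro hcon
          apply h.nz hQ e6
          rw [NN_dsub, NN_dsub, NN_dM]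
          have : NN p l (q :: Nr) x.r.n - NN p l (q :: Nr) x.r.f - (q - l) = 0 := by linarith
          rw [this]
          exact dvd_zero p
    · obtain ⟨e5, -⟩ := key s2 s4
      rcases e5 with e5 | ⟨e5, e6⟩
      · exfalso
        have : ieq (tau x.r.n) (Int.add (tau x.r.f) 2) = true := by
          rw [ieq_iff]
          exact htau
        rw [this] at e5
        exact absurd e5 (by simp)
      · constructor
        · intro hcon
          apply h.nz hQ e5
          rw [NN_dsub, NN_dsub, NN_dL]
          have : NN p l (q :: Nr) x.r.n - NN p l (q :: Nr) x.r.f - l = 0 := by linarith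
          rw [this]
          exact dvd_zero p
        · intro hcon
          apply h.nz hQ e6
          rw [NN_axpy, NN_dsub, NN_dM]
          have : 1 * (q - l) + (NN p l (q :: Nr) x.r.n - NN p l (q :: Nr) x.r.f) = 0 := by
            linarith
          rw [this]
          exact dvd_zero p

/-- the case `f = 0` -/
theorem ixf02 {Q : List Con} {x : RL2} (hr : rlix2 M Q x = true) (hf : x.r.f0 = true) :
    leq x.r.f [] = true ∧ x.r.jr = true ∧ (x.r.st = 1 ∨ x.r.st = 3) := by
  unfold rlix2 at hr
  rw [hf] at hr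
  simp only [Bool.and_eq_true] at hr
  obtain ⟨-, ⟨e1, e2⟩, e3⟩ := hr
  refine ⟨e1, e2, ?_⟩
  split at e3
  · left; assumption
  · right; assumption
  · exact absurd e3 (by simp)

/-- justification of a real split -/
theorem Val2.ju (h : Val2 M p a b c J ds l q E t D dl Cl vi vr Nr Nk)
    (W : World2 p a b c J ds l q E t D dl Cl) {Q : List Con}
    (hQ : ∀ c ∈ Q, hld (xv vi vr) c) {e : List ℤ} {j : Ju2} (hj : juc2 M Q e j = true) :
    evg (xv vi vr) e ≠ 0 := by
  intro h0
  have hD : evg (xv vi vr) M.K.D = D := h.vD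
  have hlp := W.hlp
  have hl := W.hl
  have hpq := W.hpq
  have hqpl := W.hq
  cases j with
  | p s n f en zn wf ef zf z z2 =>
    simp only [juc2, Bool.and_eq_true, t1_iff] at hj
    obtain ⟨⟨⟨⟨⟨h1, h2⟩, h3⟩, h4⟩, h5⟩, h6⟩ := hj
    obtain ⟨g1, g2, g3⟩ := h.ex hQ h2
    have g4 : 0 ≤ NN p l (q :: Nr) f ∧ NN p l (q :: Nr) f ≤ p := by
      rcases wf with _ | _ | wf
      · simp only at h3
        have : NN p l (q :: Nr) f = 0 := by
          have := leq_ev _ _ h3 (p :: l :: q :: Nr)
          unfold NN
          rw [this]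
          simp
        rw [this]
        exact ⟨le_rfl, h.p0.le⟩
      · simp only at h3
        have : NN p l (q :: Nr) f = p := by
          have := leq_ev _ _ h3 (p :: l :: q :: Nr)
          unfold NN
          rw [this]
          simp
        rw [this]
        exact ⟨h.p0.le, le_rfl⟩
      · simp only at h3
        obtain ⟨-, g5, g6⟩ := h.ex hQ h3
        exact ⟨g5.le, g6.le⟩
    have g5 := h.nz hQ h5
    rw [NN_axpy, NN_dsub, NN_dL] at g5
    have e1 : Int.sub (tau f) (tau n) = tau f - tau n := rfl
    rw [e1] at g5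
    have e2 : Int.sub (tau n) (tau f) = tau n - tau f := rfl
    rw [e2] at h4
    unfold ju2 at h6
    simp only [Bool.and_eq_true, Bool.or_eq_true, e2] at h6
    obtain ⟨h6, h7⟩ := h6
    have k1 : tau n - tau f = 1 → ¬ p ∣ NN p l (q :: Nr) n - NN p l (q :: Nr) f + (q - l) := by
      intro hh
      rcases h6 with h6 | h6
      · rw [(ieq_iff _ _).2 hh] at h6
        exact absurd h6 (by simp)
      · have := h.nz hQ h6
        rw [NN_axpy, NN_dsub, NN_dM] at this
        intro hcon
        apply this
        have e3 : 1 * (q - l) + (NN p l (q :: Nr) n - NN p l (q :: Nr) f) =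
          NN p l (q :: Nr) n - NN p l (q :: Nr) f + (q - l) := by ring
        rw [e3]
        exact hcon
    have k2 : tau n - tau f = -1 → ¬ p ∣ NN p l (q :: Nr) n - NN p l (q :: Nr) f - (q - l) := by
      intro hh
      rcases h7 with h7 | h7
      · rw [(ieq_iff _ _).2 hh] at h7
        exact absurd h7 (by simp)
      · have := h.nz hQ h7
        rw [NN_dsub, NN_dsub, NN_dM] at this
        exact this
    -- the difference is not an integer
    have g7 : ∀ m : ℤ, eI M.K vi vr n - eI M.K vi vr f ≠ m := by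
      intro m hm
      have g8 := h.add (h.clE n) (h.neg (h.clE f))
      have g9 := h.int g8 (m := m) (by rw [← hm]; ring)
      have g10 : NN p l (q :: Nr) n + -NN p l (q :: Nr) f - (tau n + -tau f) * l =
        NN p l (q :: Nr) n - NN p l (q :: Nr) f - (tau n - tau f) * l := by ring
      rw [g10] at g9
      obtain ⟨w, hw⟩ := g9
      rw [abs_le] at h4
      set A := NN p l (q :: Nr) n - NN p l (q :: Nr) f with hA
      have hA1 : -p < A := by omega
      have hA2 : A < p := by omega
      have hw0 : w ≠ 0 := by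
        intro hcon
        rw [hcon, mul_zero] at hw
        apply g5
        have : (tau f - tau n) * l + A = 0 := by linarith
        rw [this]
        exact dvd_zero p
      rcases (by omega : tau n - tau f = 0 ∨ tau n - tau f = 1 ∨ tau n - tau f = -1) with
        h8 | h8 | h8
      · rw [h8, zero_mul, sub_zero] at hw
        rcases lt_or_gt_of_ne hw0 with h9 | h9
        · have : q * w ≤ q * (-1) := mul_le_mul_of_nonneg_left (by omega) (by omega)
          omega
        · have : q * 1 ≤ q * w := mul_le_mul_of_nonneg_left (by omega) (by omega)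
          omega
      · rw [h8, one_mul] at hw
        rcases lt_or_gt_of_ne hw0 with h9 | h9
        · rcases (by omega : w = -1 ∨ w ≤ -2) with h10 | h10
          · apply k1 h8
            rw [h10] at hw
            have : A + (q - l) = 0 := by linarith
            rw [this]
            exact dvd_zero p
          · have : q * w ≤ q * (-2) := mul_le_mul_of_nonneg_left (by omega) (by omega)
            omega
        · have : q * 1 ≤ q * w := mul_le_mul_of_nonneg_left (by omega) (by omega)
          omega
      · rw [h8] at hw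
        rcases lt_or_gt_of_ne hw0 with h9 | h9
        · have : q * w ≤ q * (-1) := mul_le_mul_of_nonneg_left (by omega) (by omega)
          omega
        · rcases (by omega : w = 1 ∨ 2 ≤ w) with h10 | h10
          · apply k2 h8
            rw [h10] at hw
            have : A - (q - l) = 0 := by linarith
            rw [this]
            exact dvd_zero p
          · have : q * 2 ≤ q * w := mul_le_mul_of_nonneg_left (by omega) (by omega)
            omega
    have g8 := h.xI h1
    rw [evg_axpy, evg_axpy, h0] at g8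
    have hs : ((sg s : ℤ) : ℝ) = 1 ∨ ((sg s : ℤ) : ℝ) = -1 := by
      cases s
      · right; simp [sg]
      · left; simp [sg]
    rcases hs with hs | hs
    · rw [hs] at g8
      push_cast at g8
      apply g7 (-(evg vi (axpy (sg s) (axpy (-1) (fI M.K n) (fI M.K f)) e)))
      unfold eI
      push_cast
      linarith
    · rw [hs] at g8
      push_cast at g8
      apply g7 (evg vi (axpy (sg s) (axpy (-1) (fI M.K n) (fI M.K f)) e))
      unfold eI
      linarith
  | pp s v =>
    simp only [juc2, Bool.and_eq_true] at hj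
    obtain ⟨h1, h2⟩ := hj
    have g8 := h.xI h1
    rw [evg_axpy, evg_axpy, h0, evg_nil] at g8
    have hp := h.p0
    have key : ∃ (x t j : ℤ) (r : List ℤ), v = x :: t :: j :: r ∧ isone2 x = true ∧
        allz r = true := by
      split at h2
      · rename_i x t j r
        simp only [Bool.and_eq_true] at h2
        exact ⟨x, t, j, r, rfl, h2.1, h2.2⟩
      · exact absurd h2 (by simp)
    obtain ⟨x, t, j, r, rfl, hx, hr⟩ := key
    have hcl := h.clE (x :: t :: j :: r)
    have e1 : NN p l (q :: Nr) (x :: t :: j :: r) = x * p + (t * l + j * q) := by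
      simp [NN, allz_ev r hr]
    have hx' : x = 1 ∨ x = 2 ∨ x = -1 ∨ x = -2 := by
      rcases x with z | z
      · rcases z with _ | _ | _ | z
        · exact absurd hx (by show ¬ (false = true); simp)
        · left; rfl
        · right; left; rfl
        · exact absurd hx (by show ¬ (false = true); simp)
      · rcases z with _ | _ | z
        · right; right; left; rfl
        · right; right; right; rfl
        · exact absurd hx (by show ¬ (false = true); simp)
    have nd1 : ¬ q ∣ p := by
      intro h5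
      have := Int.le_of_dvd hp h5
      omega
    have nd2 : ¬ q ∣ 2 * p := by
      rintro ⟨w, hw⟩
      have hw1 : 0 < w := by
        by_contra hcon
        push Not at hcon
        have : q * w ≤ 0 := mul_nonpos_of_nonneg_of_nonpos (by omega) hcon
        omega
      rcases (by omega : w = 1 ∨ 2 ≤ w) with h10 | h10
      · rw [h10] at hw
        omega
      · have : q * 2 ≤ q * w := mul_le_mul_of_nonneg_left h10 (by omega)
        omega
    have key2 : ∀ m : ℤ, eI M.K vi vr (x :: t :: j :: r) ≠ m := by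
      intro m hm
      have h3 := h.int hcl hm
      rw [e1] at h3
      have e4 : tau (x :: t :: j :: r) = t := rfl
      rw [e4] at h3
      have h4 : q ∣ x * p := by
        have : x * p = x * p + (t * l + j * q) - t * l - j * q := by ring
        rw [this]
        exact dvd_sub h3 ⟨j, by ring⟩
      rcases hx' with rfl | rfl | rfl | rfl
      · exact nd1 (by simpa using h4)
      · exact nd2 h4
      · rw [neg_one_mul, dvd_neg] at h4
        exact nd1 h4
      · rw [neg_mul, dvd_neg] at h4
        exact nd2 h4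
    have hs : ((sg s : ℤ) : ℝ) = 1 ∨ ((sg s : ℤ) : ℝ) = -1 := by
      cases s
      · right; simp [sg]
      · left; simp [sg]
    rcases hs with hs | hs
    · rw [hs] at g8
      push_cast at g8
      apply key2 (-(evg vi (axpy (sg s) (axpy (-1) (fI M.K (x :: t :: j :: r)) []) e)))
      unfold eI
      push_cast
      linarith
    · rw [hs] at g8
      push_cast at g8
      apply key2 (evg vi (axpy (sg s) (axpy (-1) (fI M.K (x :: t :: j :: r)) []) e))
      unfold eI
      linarith
  | e0 s n z =>
    simp only [juc2, Bool.and_eq_true, Bool.or_eq_true, t1_iff, Bool.not_eq_true'] at hj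
    obtain ⟨⟨h1, h2⟩, h3⟩ := hj
    have g1 := leq_ev _ _ h1 (xv vi vr)
    rw [h0, evg_axpy, evg_nil, add_zero] at g1
    have hI : eI M.K vi vr n = 0 := by
      unfold eI
      cases s
      · simp only [sg] at g1
        push_cast at g1
        linarith
      · simp only [sg] at g1
        push_cast at g1
        linarith
    refine h.ne0 (h.clE n) h2 ?_ hI
    rcases h3 with h3 | h3
    · right
      intro hcon
      rw [(izero_iff _).2 hcon] at h3
      exact absurd h3 (by simp)
    · left
      intro hcon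
      apply h.nz hQ h3
      rw [hcon]
      exact dvd_zero p
  | ed s n z =>
    simp only [juc2, Bool.and_eq_true, Bool.or_eq_true, t1_iff, Bool.not_eq_true'] at hj
    obtain ⟨⟨h1, h2⟩, h3⟩ := hj
    have g1 := leq_ev _ _ h1 (xv vi vr)
    rw [h0, evg_axpy, evg_axpy, evg_nil, add_zero, hD] at g1
    have hI : eI M.K vi vr n = D := by
      unfold eI
      cases s
      · simp only [sg] at g1
        push_cast at g1
        linarith
      · simp only [sg] at g1
        push_cast at g1
        linarith
    refine h.neD (h.clE n) h2 ?_ hI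
    rcases h3 with h3 | h3
    · right
      intro hcon
      rw [(izero_iff _).2 hcon] at h3
      exact absurd h3 (by simp)
    · left
      intro hcon
      apply h.nz hQ h3
      rw [hcon]

/-- the fact behind one `K` form -/
def KOk2 (p l q : ℤ) (Cl : ℤ → ℤ → ℤ → ℤ → ℝ → Prop) (ds : ℤ) (x : List ℝ) (Nk : ℤ)
    (kf : ℕ × List (ℤ × ℤ × List ℤ)) : Prop :=
  ∀ {N τ X R : ℤ} {I : ℝ}, Cl N τ X R I → |τ| ≤ 1 → 0 < N → N < p → N ≠ l → N + l ≠ p →
    N + l ≠ q → N + q ≠ p + l →
    (τ = 0 ∨ (1 ≤ kf.1 → N ≠ Nk) ∧ (2 ≤ kf.1 → N + Nk ≠ p)) →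
    (∀ g ∈ kf.2, (0 : ℝ) < g.1 * (X + ds * I) + g.2.1 * (X + ds * I + R) + evg x g.2.2) → False

theorem Val2.klf (h : Val2 M p a b c J ds l q E t D dl Cl vi vr Nr Nk) {Q : List Con}
    (hQ : ∀ c ∈ Q, hld (xv vi vr) c)
    (hK : ∀ kf ∈ M.K.kf, KOk2 p l q Cl ds (xv vi vr) Nk kf)
    {x : KL2} (hr : klc2 M Q x = true) : False := by
  unfold klc2 at hr
  simp only [Bool.and_eq_true] at hr
  obtain ⟨⟨⟨⟨⟨h1, h2⟩, h3⟩, h3a⟩, h3b⟩, h4⟩ := hr
  obtain ⟨g1, g2, g3⟩ := h.ex hQ h1
  have g4 := h.nz hQ h2
  have g5 := h.nz hQ h3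
  have g6 := h.nz hQ h3a
  have g7 := h.nz hQ h3b
  rw [NN_dsub, NN_dL] at g4
  rw [NN_axpy, NN_dL] at g5
  rw [NN_dsub, NN_dM] at g6
  rw [NN_axpy, NN_dM] at g7
  obtain ⟨jk, hjk⟩ := h.vk
  rcases hd : M.K.kf.drop x.r.ty with _ | ⟨⟨fl, gs⟩, L⟩
  · rw [hd] at h4
    exact absurd h4 (by simp)
  · rw [hd] at h4
    simp only [Bool.and_eq_true, Bool.or_eq_true] at h4
    obtain ⟨h5, h6⟩ := h4
    have hmem : (fl, gs) ∈ M.K.kf := List.mem_of_mem_drop (by rw [hd]; exact List.mem_cons_self)
    have hcl := h.add (h.add (h.clE x.r.n) (Base.smul h.toBase h.cX x.r.q1))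
      (Base.smul h.toBase h.cR (x.r.q2 - x.r.q1))
    simp only [mul_zero, add_zero] at hcl
    have c1 : nzc M.K Q (dsub x.r.n M.kd) x.r.zk = true → NN p l (q :: Nr) x.r.n ≠ Nk := by
      intro h5 hcon
      have h7 := h.nz hQ h5
      rw [NN_dsub, hjk, hcon] at h7
      apply h7
      exact ⟨-jk, by ring⟩
    have c2 : nzc M.K Q (axpy 1 M.kd x.r.n) x.r.zk2 = true →
        NN p l (q :: Nr) x.r.n + Nk ≠ p := by
      intro h5 hcon
      have h7 := h.nz hQ h5
      rw [NN_axpy, hjk] at h7
      apply h7
      refine ⟨1 + jk, ?_⟩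
      have : NN p l (q :: Nr) x.r.n = p - Nk := by linarith
      rw [this]
      ring
    refine hK _ hmem hcl g1 g2 g3 ?_ ?_ ?_ ?_ ?_ ?_
    · intro hcon
      apply g4
      rw [hcon, sub_self]
      exact dvd_zero p
    · intro hcon
      apply g5
      have : 1 * l + NN p l (q :: Nr) x.r.n = p := by linarith
      rw [this]
    · intro hcon
      apply g6
      have : NN p l (q :: Nr) x.r.n - (q - l) = 0 := by linarith
      rw [this]
      exact dvd_zero p
    · intro hcon
      apply g7
      have : 1 * (q - l) + NN p l (q :: Nr) x.r.n = p := by linarith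
      rw [this]
    · rcases h5 with h5 | h5
      · left
        exact (izero_iff _).1 h5
      · right
        rcases fl with _ | _ | fl
        · exact ⟨fun hh => absurd hh (by simp), fun hh => absurd hh (by simp)⟩
        · refine ⟨fun hh => ?_, fun hh => absurd hh (by simp)⟩
          simp only at h5
          exact c1 h5
        · simp only [Bool.and_eq_true] at h5
          exact ⟨fun hh => c1 h5.1, fun hh => c2 h5.2⟩
    · intro g hg
      have h7 := h.kgoals_sound hQ h6 g hg
      have e1 := h.efx x.r.n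
      have e2 := h.xR x.r.n
      simp only [evg_axpy, h.eP, e1, e2] at h7
      have e3 : ((evg vi (fR M.K x.r.n) : ℤ) : ℝ) = eR M.K vi x.r.n := rfl
      rw [e3] at h7
      push_cast at h7 ⊢
      have e4 : (g.1 : ℝ) * ((eX M.K vi x.r.n : ℝ) + x.r.q1 * p + ds * eI M.K vi vr x.r.n) +
          g.2.1 * ((eX M.K vi x.r.n : ℝ) + x.r.q1 * p + ds * eI M.K vi vr x.r.n +
            (eR M.K vi x.r.n + (x.r.q2 - x.r.q1) * p)) + evg (xv vi vr) g.2.2 =
          g.1 * (x.r.q1 * p + (eX M.K vi x.r.n + ds * eI M.K vi vr x.r.n)) +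
          g.2.1 * (x.r.q2 * p + (1 * eR M.K vi x.r.n + (eX M.K vi x.r.n +
            ds * eI M.K vi vr x.r.n))) + evg (xv vi vr) g.2.2 := by ring
      rw [e4]
      exact h7

end

end Helper11.CT
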