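import Pool.Agent.Helper11.CT.Ix

set_option autoImplicit false
set_option linter.unusedSectionVars false

/-!
# Certified decision trees: soundness
-/

noncomputable section

namespace Helper11.CT

open Helper25.KW Helper55.KE

section

variable {K : Cls} {p a b c J ds l q : ℤ} {D dl : ℝ} {Cl : ℤ → ℤ → ℤ → ℤ → ℝ → Prop}
  {vi : List ℤ} {vr : List ℝ} {Nr : List ℤ}

theorem sp4_lo {st : ℕ} (hst : st ≤ 1) (z : ℤ) : spv (sp4 K st) z := by
  rcases st with _ | _ | s
  · exact ⟨fun hh => absurd hh (by simp [sp4]), fun hh => absurd hh (by simp [sp4])⟩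
  · exact ⟨fun hh => absurd hh (by simp [sp4]), fun hh => absurd hh (by simp [sp4])⟩
  · omega

/-- zone 4 of the special line -/
theorem Val.sp4_hi (h : Val K p a b c J ds l q D dl Cl vi vr Nr) (st : ℕ) :
    2 ≤ st → spv (sp4 K st) (zz ds (Helper10.KE.ind p (-b) dl (-b))) := by
  intro hst
  have hp : (0 : ℝ) < p := by exact_mod_cast h.p0
  have hD := h.hD
  have hJD := h.hJD
  have hJ := h.hJ
  have hJ' : (1 : ℝ) ≤ J := by exact_mod_cast hJ
  have hdl : 0 < dl ∧ dl < p := by
    rcases h.dsc with ⟨-, -, d3, -⟩ | ⟨-, -, d3, -⟩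
    · rw [d3]
      constructor <;> linarith
    · rw [d3]
      constructor <;> linarith
  have h0 : Helper10.KE.ind (p : ℝ) (-b) dl (-b) = 0 :=
    ind_zero hp 1 (by push_cast; linarith) (by push_cast; linarith)
  rw [h0]
  rcases st with _ | _ | s
  · omega
  · omega
  · unfold zz spv sp4
    rcases h.dsc with ⟨d1, d2, -, -⟩ | ⟨d1, d2, -, -⟩
    · rw [d1, if_pos d2]
      exact ⟨fun _ => rfl, fun hh => absurd hh (by simp)⟩
    · rw [d1, if_neg (by rw [d2]; decide)]
      exact ⟨fun hh => absurd hh (by show ¬ ((2 : ℕ) = 1); decide), fun _ => rfl⟩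

theorem Val.L_facts (h : Val K p a b c J ds l q D dl Cl vi vr Nr) {n : List ℤ}
    (hn : leq n dL = true) : ∃ m m' : ℤ, evg (xv vi vr) (fx K n) = -(b : ℝ) + m * p ∧
      eR K vi n = c + b + m' * p ∧ eI K vi vr n = J := by
  have hN : NN p l Nr n = l := by
    have : NN p l Nr n = NN p l Nr dL := leq_ev _ _ hn (p :: l :: Nr)
    rw [this, NN_dL]
  have ht : tau n = 1 := by
    have e2 := leq_ev _ _ hn (0 :: 1 :: List.replicate 0 (0 : ℤ))
    rw [evg_tau, evg_tau] at e2
    rw [e2]
    rfl
  have h1 := h.clE n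
  rw [hN, ht] at h1
  obtain ⟨e1, ⟨m, e2⟩, ⟨m', e3⟩⟩ := h.same h1 h.cl
  refine ⟨m, m', ?_, e3, e1⟩
  rw [h.efx, e1, e2]
  push_cast
  ring

/-- the generator `l` -/
theorem lin_dL (g1 g2 : List ℤ) (G : List (List ℤ)) (n : List ℤ) (hn : leq n dL = true) :
    ∀ x : List ℝ, evg x (lin (g1 :: g2 :: G) n) = evg x g2 := by
  intro x
  have h0 : ∀ (r : List ℤ) (G : List (List ℤ)), allz r = true → evg x (lin G r) = 0 := by
    intro r
    induction r with
    | nil =>
      intro G _
      have e : lin G [] = [] := by cases G <;> rfl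
      rw [e]
      simp
    | cons c r ih =>
      intro G hr
      have hr' : (izero c && allz r) = true := hr
      rw [Bool.and_eq_true] at hr'
      cases G with
      | nil =>
        have e : lin [] (c :: r) = [] := rfl
        rw [e]
        simp
      | cons g G =>
        rw [evg_lin, ih G hr'.2, (izero_iff c).1 hr'.1]
        simp
  rcases n with _ | ⟨c0, _ | ⟨c1, r⟩⟩
  · have h1 : allz [0, 1] = true := hn
    exact absurd h1 (by decide)
  · have h1 : (ieq c0 0 && (allz [1])) = true := hn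
    rw [Bool.and_eq_true] at h1
    exact absurd h1.2 (by decide)
  · have h1 : (ieq c0 0 && (ieq c1 1 && leq r [])) = true := hn
    rw [Bool.and_eq_true, Bool.and_eq_true, ieq_iff, ieq_iff] at h1
    obtain ⟨rfl, rfl, h3⟩ := h1
    have h4 : allz r = true := by
      cases r with
      | nil => rfl
      | cons a r =>
        exact h3
    rw [evg_lin, evg_lin, h0 r G h4]
    simp

end

/-- the generator `l` of the class is the cluster `l` exactly -/
def gl (K : Cls) : Bool :=
  match K.gX, K.gR with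
  | _ :: X :: _, _ :: R :: _ =>
    leq X (axpy (Int.neg K.ds) K.J (axpy (-1) K.B [])) && leq R (axpy 1 K.C K.B)
  | _, _ => false

section

variable {K : Cls} {p a b c J ds l q : ℤ} {D dl : ℝ} {Cl : ℤ → ℤ → ℤ → ℤ → ℝ → Prop}
  {vi : List ℤ} {vr : List ℝ} {Nr : List ℤ}

theorem Val.exl (h : Val K p a b c J ds l q D dl Cl vi vr Nr) (hg : gl K = true) {n : List ℤ}
    (hn : leq n dL = true) : evg (xv vi vr) (fx K n) = -(b : ℝ) ∧ eR K vi n = c + b := by
  obtain ⟨m, m', -, -, e3⟩ := h.L_facts hn
  unfold gl at hg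
  split at hg
  · rename_i X0 X gX R0 R gR hX hR
    rw [Bool.and_eq_true] at hg
    have h1 := leq_ev _ _ hg.1 (xv vi vr)
    have h2 := leq_ev _ _ hg.2 (xv vi vr)
    rw [evg_axpy, evg_axpy, evg_nil, h.eJ, h.eB] at h1
    rw [evg_axpy, h.eC, h.eB] at h2
    have e1 : ((Int.neg K.ds : ℤ) : ℝ) = -(ds : ℝ) := by
      rw [h.vds]
      show ((-ds : ℤ) : ℝ) = _
      push_cast
      ring
    rw [e1] at h1
    constructor
    · rw [h.efx, e3]
      have e4 : ((eX K vi n : ℤ) : ℝ) = evg (xv vi vr) X := by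
        have := h.xX n
        unfold fX at this
        rw [hX, lin_dL _ _ _ _ hn] at this
        unfold eX fX
        rw [hX]
        exact this.symm
      rw [e4, h1]
      push_cast
      ring
    · have e4 : ((eR K vi n : ℤ) : ℝ) = evg (xv vi vr) R := by
        have := h.xR n
        unfold fR at this
        rw [hR, lin_dL _ _ _ _ hn] at this
        unfold eR fR
        rw [hR]
        exact this.symm
      rw [h2] at e4
      have : ((eR K vi n : ℤ) : ℝ) = ((c + b : ℤ) : ℝ) := by
        rw [e4]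
        push_cast
        ring
      exact_mod_cast this
  · exact absurd hg (by simp)

/-- the rule leaf in the world -/
theorem Val.rule (h : Val K p a b c J ds l q D dl Cl vi vr Nr)
    (W : World p a b c J ds l q D dl Cl) (hg : gl K = true) {Q : List Con}
    (hQ : ∀ c ∈ Q, hld (xv vi vr) c) {r : RL} (hr : rlc K Q r = true) : False := by
  have hc := rc_of hr
  have hix := hc.ix
  have hix' := hix
  unfold rlix at hix'
  rw [Bool.and_eq_true] at hix'
  obtain ⟨n1, n2, n3, n4, n5, n6⟩ := h.ixn hQ hix'.1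
  have hvx := h.efx r.n
  have hdx := h.efd r
  rcases hf : r.f0 with _ | _
  · obtain ⟨f1, f2, f3, f4, f5, f6⟩ := h.ixf hQ hc hf
    have hcn := h.clE r.n
    have hcf := h.clE r.f
    rcases hst : r.st with _ | _ | s
    · -- not merged
      have hjr : r.jr = false := by
        rcases hj : r.jr with _ | _
        · rfl
        · exact absurd hst (hc.J hj).1
      obtain ⟨R1, R2⟩ := W.ruleUR hcn hcf n1 f1 f6 n2 (n4 hst) f2 f3 f4
      have hlv : lv p a c r.st (eR K vi r.n) = hu p a (eR K vi r.n) := by rw [hst]; rfl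
      have hlv' : lv' p a c r.st (eR K vi r.n) = hu p a (eR K vi r.n) := by rw [hst]; rfl
      rcases hdk : r.dk with _ | _
      · obtain ⟨v', d', t1, t2, t3, t4⟩ := R1
        refine h.coreF hQ hc hjr (v' := v') (d' := d') (by rw [hvx]; exact t1)
          (by rw [hdx]; unfold dd; rw [hdk]; exact t2)
          (by rw [hvx, hdx]; unfold dd; rw [hdk]; exact t3) (sp4_lo (by omega) _) ?_
        rw [hlv, hlv', hdk]
        exact t4
      · obtain ⟨v', d', t1, t2, t3, t4⟩ := R2
        refine h.coreF hQ hc hjr (v' := v') (d' := d') (by rw [hvx]; exact t1)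
          (by rw [hdx]; unfold dd; rw [hdk]; exact t2)
          (by rw [hvx, hdx]; unfold dd; rw [hdk]; exact t3) (sp4_lo (by omega) _) ?_
        rw [hlv, hlv', hdk]
        unfold kk
        push_cast
        exact t4
    · -- merged
      have hlv : lv p a c r.st (eR K vi r.n) = hh p a (-c) (eR K vi r.n) := by rw [hst]; rfl
      have hlv' : lv' p a c r.st (eR K vi r.n) = hh p a (-c) (eR K vi r.n) := by rw [hst]; rfl
      rcases hj : r.jr with _ | _
      · obtain ⟨R1, R2⟩ := W.ruleMR hcn hcf n1 f1 f6 (n5 hst) n3 f2 f3 f4 (f5 hst)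
        rcases hdk : r.dk with _ | _
        · obtain ⟨v', d', t1, t2, t3, t4⟩ := R1
          refine h.coreF hQ hc hj (v' := v') (d' := d') (by rw [hvx]; exact t1)
            (by rw [hdx]; unfold dd; rw [hdk]; exact t2)
            (by rw [hvx, hdx]; unfold dd; rw [hdk]; exact t3) (sp4_lo (by omega) _) ?_
          rw [hlv, hlv', hdk]
          exact t4
        · obtain ⟨v', d', t1, t2, t3, t4⟩ := R2
          refine h.coreF hQ hc hj (v' := v') (d' := d') (by rw [hvx]; exact t1)
            (by rw [hdx]; unfold dd; rw [hdk]; exact t2)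
            (by rw [hvx, hdx]; unfold dd; rw [hdk]; exact t3) (sp4_lo (by omega) _) ?_
          rw [hlv, hlv', hdk]
          unfold kk
          push_cast
          exact t4
      · obtain ⟨R1, R2⟩ := W.ruleJ hcn hcf n1 f1 f6 (n5 hst).le n3 f2.le f3 f4 (f5 hst)
        rcases hdk : r.dk with _ | _
        · obtain ⟨t', t1, t2⟩ := R1
          refine h.coreJ hQ hc hj (t' := t') (by rw [hvx, hdx]; unfold dd; rw [hdk]; exact t1) ?_
          rw [hdk]
          exact t2
        · obtain ⟨t', t1, t2⟩ := R2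
          refine h.coreJ hQ hc hj (t' := t') (by rw [hvx, hdx]; unfold dd; rw [hdk]; exact t1) ?_
          rw [hdk]
          unfold kk
          push_cast
          exact t2
    · -- the line of `l`
      obtain ⟨g1, g2, g3⟩ := n6 (by omega) (by omega)
      obtain ⟨x1, x2⟩ := h.exl hg g1
      have hfl : NN p l Nr r.f ≠ l := fun hcon => f4 (by rw [hcon, g2])
      obtain ⟨R1, R2⟩ := W.ruleLR hcf f1 f2 f3 hfl
      have hxr : ((eR K vi r.n : ℤ) : ℝ) = (c : ℝ) + b := by rw [x2]; push_cast; ring
      have hlv : lv p a c r.st (eR K vi r.n) = hh p a (-c) (c + b) := by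
        rw [hst]
        show hh p a (-c) (eR K vi r.n : ℤ) = _
        rw [hxr]
      have hlv' : lv' p a c r.st (eR K vi r.n) = hu p a (c + b) := by
        rw [hst]
        show hu p a (eR K vi r.n : ℤ) = _
        rw [hxr]
      have hs4 : spv (sp4 K r.st) (zz ds (Helper10.KE.ind p (-b) dl (-b))) :=
        h.sp4_hi r.st (by omega)
      have htr : Tr dl (-(b : ℝ)) (-b) := fun m => ⟨id, id, id, id⟩
      rcases hj : r.jr with _ | _
      · rcases hdk : r.dk with _ | _
        · obtain ⟨d', t2, t3, t4⟩ := R1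
          refine h.coreF hQ hc hj (v' := -b) (d' := d') (by rw [x1]; exact htr)
            (by rw [hdx]; unfold dd; rw [hdk]; exact t2)
            (by rw [x1, hdx]; unfold dd; rw [hdk]; exact t3) hs4 ?_
          rw [hlv, hlv', hdk]
          exact t4
        · obtain ⟨d', t2, t3, t4⟩ := R2
          refine h.coreF hQ hc hj (v' := -b) (d' := d') (by rw [x1]; exact htr)
            (by rw [hdx]; unfold dd; rw [hdk]; exact t2)
            (by rw [x1, hdx]; unfold dd; rw [hdk]; exact t3) hs4 ?_
          rw [hlv, hlv', hdk]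
          unfold kk
          push_cast
          exact t4
      · rcases hdk : r.dk with _ | _
        · obtain ⟨t', t1, t2⟩ := R1.je (Or.inr rfl)
          refine h.coreJ hQ hc hj (t' := t') (by rw [x1, hdx]; unfold dd; rw [hdk]; exact t1) ?_
          rw [hdk, hxr]
          exact t2
        · obtain ⟨t', t1, t2⟩ := R2.je (Or.inl rfl)
          refine h.coreJ hQ hc hj (t' := t') (by rw [x1, hdx]; unfold dd; rw [hdk]; exact t1) ?_
          rw [hdk, hxr]
          unfold kk
          push_cast
          exact t2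
  · -- `f = 0`
    obtain ⟨e1, hj, hst⟩ := Val.ixf0 hix hf
    have z1 : eX K vi r.f = 0 ∧ eR K vi r.f = 0 ∧ eI K vi vr r.f = 0 ∧ True := by
      have h0 : ∀ (R : Type) [CommRing R] (x : List R) (r : List ℤ) (G : List (List ℤ)),
          allz r = true → evg x (lin G r) = 0 := by
        intro R _ x r
        induction r with
        | nil =>
          intro G _
          have e : lin G [] = [] := by cases G <;> rfl
          rw [e]
          simp
        | cons c r ih =>
          intro G hr
          have hr' : (izero c && allz r) = true := hr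
          rw [Bool.and_eq_true] at hr'
          cases G with
          | nil =>
            have e : lin [] (c :: r) = [] := rfl
            rw [e]
            simp
          | cons g G =>
            rw [evg_lin, ih G hr'.2, (izero_iff c).1 hr'.1]
            simp
      have e2 : allz r.f = true := by
        rcases hh : r.f with _ | ⟨x, y⟩
        · rfl
        · rw [hh] at e1
          exact e1
      exact ⟨h0 ℤ vi r.f K.gX e2, h0 ℤ vi r.f K.gR e2, h0 ℝ (xv vi vr) r.f K.gI e2, trivial⟩
    obtain ⟨z1, z2, z3, -⟩ := z1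
    have hcn := h.clE r.n
    have h5 := n5 hst
    have hp := h.p0
    obtain ⟨R1, R2⟩ := W.ruleJ hcn (Base.zero h.toBase) n1 (by simp)
      (by intro hh; rw [abs_le] at n1; omega) h5.le n3 le_rfl hp (by omega) (by omega)
    rcases hdk : r.dk with _ | _
    · obtain ⟨t', t1, t2⟩ := R1
      refine h.coreJ hQ hc hj (t' := t') ?_ ?_
      · rw [hvx, hdx]
        unfold dd
        rw [hdk, z1, z2, z3]
        exact t1
      · rw [hdk]
        unfold kk
        rw [z2]
        exact t2
    · obtain ⟨t', t1, t2⟩ := R2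
      refine h.coreJ hQ hc hj (t' := t') ?_ ?_
      · rw [hvx, hdx]
        unfold dd
        rw [hdk, z1, z2, z3]
        exact t1
      · rw [hdk]
        unfold kk
        rw [z2]
        push_cast at t2 ⊢
        exact t2

theorem Tr.refl (dl x : ℝ) : Tr dl x x := fun _ => ⟨id, id, id, id⟩

/-- values of the two ends of the zone -/
theorem Val.ends (h : Val K p a b c J ds l q D dl Cl vi vr Nr) (k0 : ℤ) :
    ((ds = 1 ∧ evg (xv vi vr) (z0f K) = 0 ∧ D = dl) ∨
      (ds = -1 ∧ evg (xv vi vr) (z0f K) = -D ∧ D = p - dl)) ∧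
    zz ds (Helper10.KE.ind p k0 dl (evg (xv vi vr) (z0f K) + k0)) = 0 ∧
      zz ds (Helper10.KE.ind p k0 dl (evg (xv vi vr) (z0f K) + D + k0)) = 1 := by
  have hp : (0 : ℝ) < p := by exact_mod_cast h.p0
  have hD := h.hD
  have hJD := h.hJD
  have hJ' : (1 : ℝ) ≤ J := by exact_mod_cast h.hJ
  have hDv : evg (xv vi vr) K.D = D := h.vD
  unfold zz
  rcases h.dsc with ⟨d1, d2, d3, d4⟩ | ⟨d1, d2, d3, d4⟩
  · have e0 : evg (xv vi vr) (z0f K) = 0 := by rw [d4]; simp
    refine ⟨Or.inl ⟨d2, e0, d3.symm⟩, ?_, ?_⟩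
    · rw [if_pos d2, e0]
      exact ind_zero hp 1 (by push_cast; linarith) (by push_cast; linarith)
    · rw [if_pos d2, e0]
      exact ind_one 0 (by push_cast; linarith) (by push_cast; linarith)
  · have e0 : evg (xv vi vr) (z0f K) = -D := by
      rw [d4, evg_axpy, hDv]
      simp
    refine ⟨Or.inr ⟨d2, e0, by rw [d3]; ring⟩, ?_, ?_⟩
    · rw [if_neg (by rw [d2]; decide), e0]
      rw [ind_one 1 (by push_cast; linarith) (by push_cast; linarith)]
      norm_num
    · rw [if_neg (by rw [d2]; decide), e0]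
      rw [ind_zero hp 1 (by push_cast; linarith) (by push_cast; linarith)]
      norm_num

theorem hu_per (p a R t : ℝ) (m : ℤ) : hu p a R (t + m * p) = hu p a R t := ind_per _ _ _ _ _

theorem hh_per (p a k R t : ℝ) (m : ℤ) : hh p a k R (t + m * p) = hh p a k R t := by
  unfold hh
  rw [ind_per, ind_per]

theorem gg_per (p a b dl v S w : ℝ) (m : ℤ) : Helper10.KE.gg p a b dl v (S + m * p) w =
    Helper10.KE.gg p a b dl v S w := by
  unfold Helper10.KE.gg
  rw [ind_per, ind_per]

theorem gg_per' (p a b dl v S w : ℝ) (m : ℤ) : Helper10.KE.gg p a b dl v S (w + m * p) =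
    Helper10.KE.gg p a b dl v S w := by
  unfold Helper10.KE.gg
  rw [ind_per, ind_per, ind_per, ind_per]

/-- tests at the ends of the zone -/
theorem SQ.end0 (h : Val K p a b c J ds l q D dl Cl vi vr Nr) {hv hv' : ℝ → ℤ} {v' : ℝ}
    (hp1 : ∀ (t : ℝ) (m : ℤ), hv (t + m * p) = hv t)
    (hp2 : ∀ (t : ℝ) (m : ℤ), hv' (t + m * p) = hv' t)
    (h3 : ∀ B : ℤ, SQ p a b dl hv hv' v' B (B - v'))
    (h4 : ∀ B : ℤ, SQ p a b dl hv hv' v' (dl + B) (dl + B - v')) (B : ℤ) :
    SQ p a b dl hv hv' v' (evg (xv vi vr) (z0f K) + B) (evg (xv vi vr) (z0f K) + B - v') ∧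
    SQ p a b dl hv hv' v' (evg (xv vi vr) (z0f K) + D + B)
      (evg (xv vi vr) (z0f K) + D + B - v') := by
  rcases (h.ends 0).1 with ⟨-, e1, e2⟩ | ⟨-, e1, e2⟩
  · rw [e1, e2, zero_add, zero_add]
    exact ⟨h3 B, h4 B⟩
  · rw [e1]
    have e3 : -D + D + (B : ℝ) = B := by ring
    rw [e3]
    refine ⟨?_, h3 B⟩
    intro W
    have h5 := h4 B W
    have e4 : -D + (B : ℝ) = (dl + B) + ((-1 : ℤ) : ℝ) * p := by
      rw [e2]
      push_cast
      ring
    have e5 : -D + (B : ℝ) - v' = (dl + B - v') + ((-1 : ℤ) : ℝ) * p := by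
      rw [e2]
      push_cast
      ring
    rw [e5, hp1, hp2, e4, gg_per, gg_per, gg_per']
    exact h5

/-- crossing levels at the ends of the zone -/
theorem Val.tz_end (h : Val K p a b c J ds l q D dl Cl vi vr Nr) {v v' : ℝ} (hv : Tr dl v v')
    (B : ℤ) : Tz (evg (xv vi vr) (z0f K) + B - v) (evg (xv vi vr) (z0f K) + B - v') ∧
      Tz (evg (xv vi vr) (z0f K) + D + B - v) (evg (xv vi vr) (z0f K) + D + B - v') := by
  rcases (h.ends 0).1 with ⟨-, e1, e2⟩ | ⟨-, e1, e2⟩
  · rw [e1, e2]
    constructor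
    · intro m
      have h1 := hv (B - m)
      push_cast at h1
      exact ⟨fun hh => by have := h1.2.1 (by linarith); linarith,
        fun hh => by have := h1.1 (by linarith); linarith⟩
    · intro m
      have h1 := hv (B - m)
      push_cast at h1
      exact ⟨fun hh => by have := h1.2.2.2 (by linarith); linarith,
        fun hh => by have := h1.2.2.1 (by linarith); linarith⟩
  · rw [e1, e2]
    constructor
    · intro m
      have h1 := hv (B - m - p)
      push_cast at h1
      exact ⟨fun hh => by have := h1.2.2.2 (by linarith); linarith,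
        fun hh => by have := h1.2.2.1 (by linarith); linarith⟩
    · intro m
      have h1 := hv (B - m)
      push_cast at h1
      exact ⟨fun hh => by have := h1.2.1 (by linarith); linarith,
        fun hh => by have := h1.1 (by linarith); linarith⟩

theorem Val.tr_end (h : Val K p a b c J ds l q D dl Cl vi vr Nr) (r : SL) (hty : r.ty ≠ 0) :
    ∃ B : ℤ, (B = 0 ∨ B = a) ∧ ((r.ty = 1 ∧ B = 0 ∨ r.ty = 2 ∧ B = a) ∧
      evg (xv vi vr) (sS K r) = evg (xv vi vr) (z0f K) + B ∨
      (r.ty = 3 ∧ B = 0 ∨ 4 ≤ r.ty ∧ B = a) ∧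
      evg (xv vi vr) (sS K r) = evg (xv vi vr) (z0f K) + D + B) := by
  have hDv : evg (xv vi vr) K.D = D := h.vD
  unfold sS
  rcases ht : r.ty with _ | _ | _ | _ | t
  · exact absurd ht hty
  · exact ⟨0, Or.inl rfl, Or.inl ⟨Or.inl ⟨rfl, rfl⟩, by simp⟩⟩
  · refine ⟨a, Or.inr rfl, Or.inl ⟨Or.inr ⟨rfl, rfl⟩, ?_⟩⟩
    simp only [evg_axpy, h.eA]
    push_cast
    ring
  · refine ⟨0, Or.inl rfl, Or.inr ⟨Or.inl ⟨rfl, rfl⟩, ?_⟩⟩
    simp only [evg_axpy, hDv]
    push_cast
    ring
  · refine ⟨a, Or.inr rfl, Or.inr ⟨Or.inr ⟨by omega, rfl⟩, ?_⟩⟩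
    simp only [evg_axpy, hDv, h.eA]
    push_cast
    ring

/-- the test leaf in the world -/
theorem Val.test (h : Val K p a b c J ds l q D dl Cl vi vr Nr)
    (W : World p a b c J ds l q D dl Cl) (hg : gl K = true) {Q : List Con}
    (hQ : ∀ c ∈ Q, hld (xv vi vr) c) {r : SL} (hr : slc K Q r = true) : False := by
  unfold slc at hr
  simp only [Bool.and_eq_true] at hr
  obtain ⟨⟨⟨⟨⟨r1, r2⟩, r3⟩, r4⟩, r5⟩, r6⟩ := hr
  obtain ⟨n1, n2, n3, n4, n5, n6⟩ := h.ixn hQ r3
  have hvx := h.efx r.n
  have hcn := h.clE r.n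
  have hst : r.st ≤ 1 ∨ r.ty = 0 := by
    rcases ht : r.ty with _ | t
    · right; rfl
    · left
      rw [ht] at r2
      have : Nat.ble r.st 1 = true := r2
      rw [Nat.ble_eq] at this
      exact this
  rcases lt_or_ge r.st 2 with hs | hs
  · -- ordinary lines
    have key : FS p a b dl (lv p a c r.st (eR K vi r.n)) (lv' p a c r.st (eR K vi r.n))
        (eX K vi r.n + ds * eI K vi vr r.n) := by
      rcases hst0 : r.st with _ | _ | s
      · exact W.testU hcn n1 n2 (n4 hst0)
      · exact W.testM hcn n1 (n5 hst0) n3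
      · omega
    obtain ⟨v', t1, t2, t3, t4⟩ := key
    have hv1 : Tr dl (evg (xv vi vr) (fx K r.n)) v' := by rw [hvx]; exact t1
    rcases ht : r.ty with _ | t
    · -- type 0
      have hT : isI K r.T = true := by
        rw [ht] at r2
        exact r2
      obtain ⟨S', u1, u2⟩ := t2 (evg vi r.T)
      have eS : sS K r = axpy 1 r.T (fx K r.n) := by simp only [sS, ht]
      have eT : sT K r = r.T := by simp only [sT, ht]
      have eo : soff r = [1] := by simp only [soff, ht]
      have e1 : ss1 r = 0 := by simp only [ss1, ht]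
      have e2 : ss2 r = 0 := by simp only [ss2, ht]
      refine h.coreS hQ r4 r5 r6 r1 (v' := v') (S' := S') (t' := ((evg vi r.T : ℤ) : ℝ)) hv1
        ?_ ?_ ?_ ?_ (sp4_lo (by omega) _) u2
      · rw [eS, evg_axpy, h.xI hT, hvx, Int.cast_one, one_mul, add_comm]
        exact u1
      · rw [eT, eo]
        exact h.lt_int hQ (h.xI hT)
      · rw [e1]
        exact ⟨fun hh => absurd hh (by simp), fun hh => absurd hh (by simp)⟩
      · rw [e2]
        exact ⟨fun hh => absurd hh (by simp), fun hh => absurd hh (by simp)⟩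
    · -- types 1 - 4
      have hty : r.ty ≠ 0 := by omega
      obtain ⟨B, hB, hS⟩ := h.tr_end r hty
      have hp1 : ∀ (t : ℝ) (m : ℤ), lv p a c r.st (eR K vi r.n) (t + m * p) =
          lv p a c r.st (eR K vi r.n) t := by
        intro t m
        rcases r.st with _ | s
        · exact hu_per _ _ _ _ _
        · exact hh_per _ _ _ _ _ _
      have hp2 : ∀ (t : ℝ) (m : ℤ), lv' p a c r.st (eR K vi r.n) (t + m * p) =
          lv' p a c r.st (eR K vi r.n) t := by
        intro t m
        rcases r.st with _ | _ | s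
        · exact hu_per _ _ _ _ _
        · exact hh_per _ _ _ _ _ _
        · exact hu_per _ _ _ _ _
      obtain ⟨q1, q2⟩ := SQ.end0 h hp1 hp2 t3 t4 B
      obtain ⟨w1, w2⟩ := h.tz_end hv1 B
      obtain ⟨-, x1, x2⟩ := h.ends B
      have eT : sT K r = axpy (-1) (fx K r.n) (sS K r) := by simp only [sT, ht]
      have eo : soff r = [] := by simp only [soff, ht]
      have no0 : ∀ z : ℤ, spv 0 z :=
        fun z => ⟨fun hh => absurd hh (by simp), fun hh => absurd hh (by simp)⟩
      rcases hS with ⟨hS1, hS2⟩ | ⟨hS1, hS2⟩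
      · refine h.coreS hQ r4 r5 r6 r1 (v' := v') (S' := evg (xv vi vr) (z0f K) + B)
          (t' := evg (xv vi vr) (z0f K) + B - v') hv1 ?_ ?_ ?_ ?_ (sp4_lo (by omega) _) q1
        · rw [hS2]
          exact Tr.refl _ _
        · rw [eT, eo]
          refine h.lt_tz hQ ?_
          rw [h.etv, hS2]
          exact w1
        · rcases hS1 with ⟨h1, h2⟩ | ⟨h1, h2⟩
          · have e1 : ss1 r = 1 := by simp only [ss1, h1]
            rw [e1]
            rw [h2, Int.cast_zero] at x1
            rw [h2, Int.cast_zero]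
            exact ⟨fun _ => x1, fun hh => absurd hh (by simp)⟩
          · have e1 : ss1 r = 0 := by simp only [ss1, h1]
            rw [e1]
            exact no0 _
        · rcases hS1 with ⟨h1, h2⟩ | ⟨h1, h2⟩
          · have e1 : ss2 r = 0 := by simp only [ss2, h1]
            rw [e1]
            exact no0 _
          · have e1 : ss2 r = 1 := by simp only [ss2, h1]
            rw [e1]
            rw [h2] at x1 ⊢
            exact ⟨fun _ => x1, fun hh => absurd hh (by simp)⟩
      · refine h.coreS hQ r4 r5 r6 r1 (v' := v') (S' := evg (xv vi vr) (z0f K) + D + B)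
          (t' := evg (xv vi vr) (z0f K) + D + B - v') hv1 ?_ ?_ ?_ ?_ (sp4_lo (by omega) _) q2
        · rw [hS2]
          exact Tr.refl _ _
        · rw [eT, eo]
          refine h.lt_tz hQ ?_
          rw [h.etv, hS2]
          exact w2
        · rcases hS1 with ⟨h1, h2⟩ | ⟨h1, h2⟩
          · have e1 : ss1 r = 2 := by simp only [ss1, h1]
            rw [e1]
            rw [h2, Int.cast_zero] at x2
            rw [h2, Int.cast_zero]
            exact ⟨fun hh => absurd hh (by simp), fun _ => x2⟩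
          · have e1 : ss1 r = 0 := by
              obtain ⟨m, hm⟩ : ∃ m, r.ty = m + 4 := ⟨r.ty - 4, by omega⟩
              simp only [ss1, hm]
            rw [e1]
            exact no0 _
        · rcases hS1 with ⟨h1, h2⟩ | ⟨h1, h2⟩
          · have e1 : ss2 r = 0 := by simp only [ss2, h1]
            rw [e1]
            exact no0 _
          · have e1 : ss2 r = 2 := by
              obtain ⟨m, hm⟩ : ∃ m, r.ty = m + 4 := ⟨r.ty - 4, by omega⟩
              simp only [ss2, hm]
            rw [e1]
            rw [h2] at x2 ⊢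
            exact ⟨fun hh => absurd hh (by simp), fun _ => x2⟩
  · -- the line of `l`
    obtain ⟨g1, g2, g3⟩ := n6 (by omega) (by omega)
    obtain ⟨x1, x2⟩ := h.exl hg g1
    have ht : r.ty = 0 := by omega
    have hT : isI K r.T = true := by
      rw [ht] at r2
      exact r2
    obtain ⟨S', u1, u2⟩ := W.testL (evg vi r.T)
    have eS : sS K r = axpy 1 r.T (fx K r.n) := by simp only [sS, ht]
    have eT : sT K r = r.T := by simp only [sT, ht]
    have eo : soff r = [1] := by simp only [soff, ht]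
    have e1 : ss1 r = 0 := by simp only [ss1, ht]
    have e2 : ss2 r = 0 := by simp only [ss2, ht]
    have hxr : ((eR K vi r.n : ℤ) : ℝ) = (c : ℝ) + b := by rw [x2]; push_cast; ring
    obtain ⟨s, hs'⟩ : ∃ s, r.st = s + 2 := ⟨r.st - 2, by omega⟩
    have hlv : lv p a c r.st (eR K vi r.n) = hh p a (-c) (c + b) := by
      rw [hs']
      show hh p a (-c) (eR K vi r.n : ℤ) = _
      rw [hxr]
    have hlv' : lv' p a c r.st (eR K vi r.n) = hu p a (c + b) := by
      rw [hs']
      show hu p a (eR K vi r.n : ℤ) = _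
      rw [hxr]
    refine h.coreS hQ r4 r5 r6 r1 (v' := -(b : ℝ)) (S' := S') (t' := ((evg vi r.T : ℤ) : ℝ))
      (by rw [x1]; exact Tr.refl _ _) ?_ ?_ ?_ ?_ (h.sp4_hi r.st (by omega)) ?_
    · rw [eS, evg_axpy, h.xI hT, x1, Int.cast_one, one_mul, add_comm]
      exact u1
    · rw [eT, eo]
      exact h.lt_int hQ (h.xI hT)
    · rw [e1]
      exact ⟨fun hh => absurd hh (by simp), fun hh => absurd hh (by simp)⟩
    · rw [e2]
      exact ⟨fun hh => absurd hh (by simp), fun hh => absurd hh (by simp)⟩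
    · rw [hlv, hlv']
      exact u2

/-- soundness of the checker, from the soundness of the leaves -/
theorem Val.tree (h : Val K p a b c J ds l q D dl Cl vi vr Nr) (hNI : NI p l Cl)
    {Nk : ℤ} (hNk : ∀ kf ∈ K.kf, 1 ≤ kf.1 → ∃ t, Nr = Nk :: t)
    (hK : ∀ kf ∈ K.kf, KOk p l Cl ds (xv vi vr) Nk kf)
    (hR : ∀ (Q : List Con) (r : RL), (∀ c ∈ Q, hld (xv vi vr) c) → rlc K Q r = true → False)
    (hS : ∀ (Q : List Con) (r : SL), (∀ c ∈ Q, hld (xv vi vr) c) → slc K Q r = true → False) :
    ∀ (t : Tre) (Q : List Con), (∀ c ∈ Q, hld (xv vi vr) c) → chk K t Q = true → False := by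
  intro t
  induction t with
  | I e L R ihL ihR =>
    intro Q hQ hc
    simp only [chk, Bool.and_eq_true] at hc
    obtain ⟨⟨h1, h2⟩, h3⟩ := hc
    have h4 := h.xI h1
    rcases le_or_gt 1 (evg vi e) with h5 | h5
    · refine ihL _ ?_ h2
      intro c hc
      rcases List.mem_cons.1 hc with rfl | hc
      · show (1 : ℝ) ≤ evg (xv vi vr) e
        rw [h4]
        exact_mod_cast h5
      · exact hQ c hc
    · refine ihR _ ?_ h3
      intro c hc
      rcases List.mem_cons.1 hc with rfl | hc
      · show (1 : ℝ) ≤ evg (xv vi vr) (axpy (-1) e [1])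
        have h6 : evg (xv vi vr) [1] = 1 := by
          obtain ⟨y, hy⟩ := h.hx
          rw [hy]
          simp
        rw [evg_axpy, h6, h4]
        have h7 : (1 : ℤ) ≤ -1 * evg vi e + 1 := by omega
        exact_mod_cast h7
      · exact hQ c hc
  | Q e j L R ihL ihR =>
    intro Q hQ hc
    simp only [chk, Bool.and_eq_true] at hc
    obtain ⟨⟨h1, h2⟩, h3⟩ := hc
    have h4 := h.ju hNI hQ h1
    rcases lt_or_gt_of_ne h4 with h5 | h5
    · refine ihR _ ?_ h3
      intro c hc
      rcases List.mem_cons.1 hc with rfl | hc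
      · show (0 : ℝ) < evg (xv vi vr) (axpy (-1) e [])
        rw [evg_axpy, evg_nil]
        push_cast
        linarith
      · exact hQ c hc
    · refine ihL _ ?_ h2
      intro c hc
      rcases List.mem_cons.1 hc with rfl | hc
      · exact h5
      · exact hQ c hc
  | C c =>
    intro Q hQ hc
    have h1 := comb_sound h.hx _ _ _ _ _ hQ hc
    rcases h1 with h1 | ⟨h1, -⟩
    · rw [evg_nil, Int.ofNat_eq_natCast] at h1
      push_cast at h1
      linarith
    · exact absurd h1 (by simp)
  | N v m c1 c2 z =>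
    intro Q hQ hc
    simp only [chk, Bool.and_eq_true] at hc
    obtain ⟨⟨h1, h2⟩, h3⟩ := hc
    have g1 := h.nz hQ h1
    have g2 := cert_sound h.hx hQ h2
    have g3 := cert_sound h.hx hQ h3
    have h6 : evg (xv vi vr) [1] = 1 := by
      obtain ⟨y, hy⟩ := h.hx
      rw [hy]
      simp
    rw [evg_axpy, evg_axpy, h6, h.eP, h.xR] at g2 g3
    have e1 : ((Int.neg m : ℤ) : ℝ) = -(m : ℝ) := by
      show ((-m : ℤ) : ℝ) = _
      push_cast
      ring
    rw [e1] at g2
    push_cast at g2 g3
    have g4 : (-1 : ℤ) < evg vi (fR K v) - m * p := by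
      have : ((-1 : ℤ) : ℝ) < ((evg vi (fR K v) - m * p : ℤ) : ℝ) := by push_cast; linarith
      exact_mod_cast this
    have g5 : evg vi (fR K v) - m * p < 1 := by
      have : ((evg vi (fR K v) - m * p : ℤ) : ℝ) < ((1 : ℤ) : ℝ) := by push_cast; linarith
      exact_mod_cast this
    apply g1
    rw [h.dvd (h.cln v)]
    have g6 : evg vi (fR K v) = m * p := by omega
    rw [g6]
    exact ⟨m, by ring⟩
  | K r =>
    intro Q hQ hc
    exact h.klf hQ hNk hK hc
  | R r =>
    intro Q hQ hc
    exact hR Q r hQ hc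
  | S r =>
    intro Q hQ hc
    exact hS Q r hQ hc

/-- soundness in the world `q ≥ p + l` -/
theorem Val.sound (h : Val K p a b c J ds l q D dl Cl vi vr Nr)
    (W : World p a b c J ds l q D dl Cl) (hg : gl K = true)
    {Nk : ℤ} (hNk : ∀ kf ∈ K.kf, 1 ≤ kf.1 → ∃ t, Nr = Nk :: t)
    (hK : ∀ kf ∈ K.kf, KOk p l Cl ds (xv vi vr) Nk kf)
    {t : Tre} {Q : List Con} (hQ : ∀ c ∈ Q, hld (xv vi vr) c) (hc : chk K t Q = true) : False :=
  h.tree (fun h1 h2 => W.nint h1 h2) hNk hK (fun _ _ hQ hr => h.rule W hg hQ hr)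
    (fun _ _ hQ hr => h.test W hg hQ hr) t Q hQ hc

end

end Helper11.CT
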