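import Pool.Agent.Helper11.CT.Ix2

set_option autoImplicit false
set_option linter.unusedSectionVars false

/-!
# Certified decision trees with second ties: soundness
-/

noncomputable section

namespace Helper11.CT

open Helper25.KW Helper55.KE

theorem ruq_shift {p a b dl : ℝ} {hv hv' : ℝ → ℤ} {v d kd : ℝ} {sd : ℤ}
    (hp1 : ∀ (t : ℝ) (m : ℤ), hv (t + m * p) = hv t)
    (hp2 : ∀ (t : ℝ) (m : ℤ), hv' (t + m * p) = hv' t) (m : ℤ)
    (h : RUq p a b dl hv hv' v d kd sd) : RUq p a b dl hv hv' (v + m * p) d kd sd := by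
  intro W
  have h1 := h W
  have e1 : d - (v + m * p) = (d - v) + ((-m : ℤ) : ℝ) * p := by push_cast; ring
  rw [e1, hp1, hp2, ind_per]
  have e2 : ∀ w : ℝ, Helper10.KE.gg p a b dl (v + m * p) d w = Helper10.KE.gg p a b dl v d w := by
    intro w
    unfold Helper10.KE.gg
    rw [ind_per, ind_per]
  rw [e2, e2, gg_per']
  exact h1

theorem tz_shift {t t' s : ℝ} {m : ℤ} (h : Tz t t') (hs : s = m) : Tz (t - s) (t' - s) := by
  intro n
  have h1 := h (n + m)
  subst hs
  push_cast at h1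
  exact ⟨fun hh => by have := h1.1 (by linarith); linarith,
    fun hh => by have := h1.2 (by linarith); linarith⟩

/-- the generators `p`, `l`, `q` of the class are exact -/
def gl2 (M : Cx) : Bool :=
  match M.K.gX, M.K.gR with
  | X0 :: X :: Xq :: _, R0 :: R :: Rq :: _ =>
    leq X0 [] && leq R0 [] &&
    leq X (axpy (Int.neg M.K.ds) M.K.J (axpy (-1) M.K.B [])) && leq R (axpy 1 M.K.C M.K.B) &&
    leq Xq (axpy (Int.neg M.K.ds) M.E []) && leq Rq M.T
  | _, _ => false

/-- the descriptor `p + l - q` -/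
theorem lin_dV (g0 g1 g2 : List ℤ) (G : List (List ℤ)) (n : List ℤ) (hn : leq n dV = true) :
    ∀ x : List ℝ, evg x (lin (g0 :: g1 :: g2 :: G) n) = evg x g0 + evg x g1 - evg x g2 := by
  intro x
  have h0 : ∀ (r : List ℤ) (G : List (List ℤ)), allz r = true → evg x (lin G r) = 0 := by
    intro r
    induction r with
    | nil =>
      intro G _
      have e : lin G [] = [] := by cases G <;> rfl
      rw [e]
      simp
    | cons c r ih =>
      intro G hr
      have hr' : (izero c && allz r) = true := hr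
      rw [Bool.and_eq_true] at hr'
      cases G with
      | nil =>
        have e : lin [] (c :: r) = [] := rfl
        rw [e]
        simp
      | cons g G =>
        rw [evg_lin, ih G hr'.2, (izero_iff c).1 hr'.1]
        simp
  rcases n with _ | ⟨c0, _ | ⟨c1, _ | ⟨c2, r⟩⟩⟩
  · have h1 : allz [1, 1, -1] = true := hn
    exact absurd h1 (by decide)
  · have h1 : (ieq c0 1 && (allz [1, -1])) = true := hn
    rw [Bool.and_eq_true] at h1
    exact absurd h1.2 (by decide)
  · have h1 : (ieq c0 1 && (ieq c1 1 && allz [-1])) = true := hn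
    rw [Bool.and_eq_true, Bool.and_eq_true] at h1
    exact absurd h1.2.2 (by decide)
  · have h1 : (ieq c0 1 && (ieq c1 1 && (ieq c2 (-1) && leq r []))) = true := hn
    rw [Bool.and_eq_true, Bool.and_eq_true, Bool.and_eq_true, ieq_iff, ieq_iff, ieq_iff] at h1
    obtain ⟨rfl, rfl, rfl, h3⟩ := h1
    have h4 : allz r = true := by
      cases r with
      | nil => rfl
      | cons a r =>
        exact h3
    rw [evg_lin, evg_lin, evg_lin, h0 r G h4]
    push_cast
    ring

section

variable {M : Cx} {p a b c J ds l q t E Nk : ℤ} {D dl : ℝ} {Cl : ℤ → ℤ → ℤ → ℤ → ℝ → Prop}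
  {vi : List ℤ} {vr : List ℝ} {Nr : List ℤ}

theorem gl2_gl (hg : gl2 M = true) : gl M.K = true := by
  unfold gl2 at hg
  split at hg
  · rename_i X0 X Xq gX R0 R Rq gR hX hR
    simp only [Bool.and_eq_true] at hg
    unfold gl
    rw [hX, hR]
    simp only [Bool.and_eq_true]
    exact ⟨hg.1.1.1.2, hg.1.1.2⟩
  · exact absurd hg (by simp)

/-- coordinates of `p + l - q` -/
theorem Val2.exv (h : Val2 M p a b c J ds l q E t D dl Cl vi vr Nr Nk)
    (W : World2 p a b c J ds l q E t D dl Cl) (hg : gl2 M = true) {n : List ℤ}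
    (hn : leq n dV = true) :
    (∃ m : ℤ, evg (xv vi vr) (fx M.K n) = dl - b + m * p ∧ (ds = 1 ∧ m = 0 ∨ ds = -1 ∧ m = -1)) ∧
      eR M.K vi n = c + b - t * a := by
  have hN : NN p l (q :: Nr) n = p + l - q := by
    have : NN p l (q :: Nr) n = NN p l (q :: Nr) dV := leq_ev _ _ hn (p :: l :: q :: Nr)
    rw [this, NN_dV]
  have ht : tau n = 1 := by
    have e2 := leq_ev _ _ hn (0 :: 1 :: List.replicate 0 (0 : ℤ))
    rw [evg_tau, evg_tau] at e2
    rw [e2]
    rfl
  have h1 := h.clE n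
  rw [hN, ht] at h1
  obtain ⟨e1, -, -⟩ := h.same h1 (cv2 W)
  unfold gl2 at hg
  split at hg
  · rename_i X0 X Xq gX R0 R Rq gR hX hR
    simp only [Bool.and_eq_true] at hg
    obtain ⟨⟨⟨⟨⟨g1, g2⟩, g3⟩, g4⟩, g5⟩, g6⟩ := hg
    have a1 := leq_ev _ _ g1 (xv vi vr)
    have a2 := leq_ev _ _ g2 (xv vi vr)
    have a3 := leq_ev _ _ g3 (xv vi vr)
    have a4 := leq_ev _ _ g4 (xv vi vr)
    have a5 := leq_ev _ _ g5 (xv vi vr)
    have a6 := leq_ev _ _ g6 (xv vi vr)
    have en : ((Int.neg M.K.ds : ℤ) : ℝ) = -(ds : ℝ) := by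
      rw [h.vds]
      show ((-ds : ℤ) : ℝ) = _
      push_cast
      ring
    rw [evg_nil] at a1 a2
    rw [evg_axpy, evg_axpy, evg_nil, h.eJ, h.eB, en] at a3
    rw [evg_axpy, h.eC, h.eB] at a4
    rw [evg_axpy, evg_nil, h.vE, en] at a5
    rw [h.vT] at a6
    constructor
    · have e4 : ((eX M.K vi n : ℤ) : ℝ) = -(b : ℝ) - ds * J + ds * E := by
        have e5 := h.xX n
        unfold fX at e5
        rw [hX, lin_dV _ _ _ _ _ hn, a1, a3, a5] at e5
        unfold eX fX
        rw [hX, ← e5]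
        push_cast
        ring
      have e6 : evg (xv vi vr) (fx M.K n) = -(b : ℝ) + ds * D := by
        rw [h.efx, e4, e1]
        ring
      rcases h.dsc with ⟨-, d2, d3, -⟩ | ⟨-, d2, d3, -⟩
      · refine ⟨0, ?_, Or.inl ⟨d2, rfl⟩⟩
        rw [e6, d2, d3]
        push_cast
        ring
      · refine ⟨-1, ?_, Or.inr ⟨d2, rfl⟩⟩
        rw [e6, d2, d3]
        push_cast
        ring
    · have e5 := h.xR n
      unfold fR at e5
      rw [hR, lin_dV _ _ _ _ _ hn, a2, a4, a6] at e5
      have e6 : ((eR M.K vi n : ℤ) : ℝ) = ((c + b - t * a : ℤ) : ℝ) := by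
        unfold eR fR
        rw [hR, ← e5]
        push_cast
        ring
      exact_mod_cast e6
  · exact absurd hg (by simp)

theorem s4_lo {K : Cls} {st : ℕ} (h2 : st ≠ 2) (h4 : st ≠ 4) (z : ℤ) : spv (s4 K st) z := by
  have e : s4 K st = 0 := by
    unfold s4
    split
    · exact absurd rfl h2
    · exact absurd rfl h4
    · rfl
  rw [e]
  exact ⟨fun hh => absurd hh (by simp), fun hh => absurd hh (by simp)⟩

theorem lw_per (p a c ta : ℤ) (st : ℕ) (R : ℤ) (x : ℝ) (m : ℤ) :
    lw p a c ta st R (x + m * p) = lw p a c ta st R x := by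
  unfold lw
  split
  · exact hu_per _ _ _ _ _
  · exact hu_per _ _ _ _ _
  · exact hh_per _ _ _ _ _ _

theorem lw'_per (p a c ta : ℤ) (st : ℕ) (R : ℤ) (x : ℝ) (m : ℤ) :
    lw' p a c ta st R (x + m * p) = lw' p a c ta st R x := by
  unfold lw'
  split
  · exact hu_per _ _ _ _ _
  · exact hu_per _ _ _ _ _
  · exact hh_per _ _ _ _ _ _

/-- the value of the zone for `l` -/
theorem Val2.sp_l (h : Val2 M p a b c J ds l q E t D dl Cl vi vr Nr Nk) :
    spv (s4 M.K 2) (zz ds (Helper10.KE.ind p (-b) dl (-b))) := h.sp4_hi 2 le_rfl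

/-- the value of the zone for `p + l - q` -/
theorem Val2.sp_v (h : Val2 M p a b c J ds l q E t D dl Cl vi vr Nr Nk) (m : ℤ) :
    spv (s4 M.K 4) (zz ds (Helper10.KE.ind p (-b) dl (dl - b + m * p))) := by
  have hp : (0 : ℝ) < p := by exact_mod_cast h.p0
  have hD := h.hD
  have hJD := h.hJD
  have hJ := h.hJ
  have hJ' : (1 : ℝ) ≤ J := by exact_mod_cast hJ
  have hdl : 0 < dl ∧ dl < p := by
    rcases h.dsc with ⟨-, -, d3, -⟩ | ⟨-, -, d3, -⟩
    · rw [d3]
      constructor <;> linarith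
    · rw [d3]
      constructor <;> linarith
  have h0 : Helper10.KE.ind (p : ℝ) (-b) dl (dl - b + m * p) = 1 := by
    rw [ind_per]
    exact ind_one 0 (by push_cast; linarith) (by push_cast; linarith)
  rw [h0]
  unfold zz spv s4
  rcases h.dsc with ⟨d1, d2, -, -⟩ | ⟨d1, d2, -, -⟩
  · rw [d1, if_pos d2]
    exact ⟨fun hh => absurd hh (by show ¬ ((2 : ℕ) = 1); decide), fun _ => rfl⟩
  · rw [d1, if_neg (by rw [d2]; decide)]
    exact ⟨fun _ => rfl, fun hh => absurd hh (by show ¬ ((2 : ℕ) ≤ 1); decide)⟩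

/-- common form of the rules -/
theorem Val2.useF (h : Val2 M p a b c J ds l q E t D dl Cl vi vr Nr Nk) {Q : List Con}
    (hQ : ∀ c ∈ Q, hld (xv vi vr) c) {x : RL2} (hr : RC2 M Q x) (hj : x.r.jr = false)
    (h2 : x.r.st ≠ 2) (h4 : x.r.st ≠ 4) {hv hv' : ℝ → ℤ}
    (hlv : lw p a c (t * a) x.r.st (eR M.K vi x.r.n) = hv)
    (hlv' : lw' p a c (t * a) x.r.st (eR M.K vi x.r.n) = hv')
    (R1 : FR p a b dl hv hv' (eX M.K vi x.r.n + ds * eI M.K vi vr x.r.n)
      (eX M.K vi x.r.f + ds * eI M.K vi vr x.r.f + eR M.K vi x.r.f) (eR M.K vi x.r.f) (-1))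
    (R2 : FR p a b dl hv hv' (eX M.K vi x.r.n + ds * eI M.K vi vr x.r.n)
      (eX M.K vi x.r.f + ds * eI M.K vi vr x.r.f + eR M.K vi x.r.f + a)
      (eR M.K vi x.r.f + a) 1) : False := by
  have hvx := h.efx x.r.n
  have hdx := h.efd x.r
  rcases hdk : x.r.dk with _ | _
  · obtain ⟨v', d', t1, t2, t3, t4⟩ := R1
    refine h.coreF2 hQ h.vT hr hj (v' := v') (d' := d') (by rw [hvx]; exact t1)
      (by rw [hdx]; unfold dd; rw [hdk]; exact t2)
      (by rw [hvx, hdx]; unfold dd; rw [hdk]; exact t3) (s4_lo h2 h4 _) ?_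
    rw [hlv, hlv', hdk]
    exact t4
  · obtain ⟨v', d', t1, t2, t3, t4⟩ := R2
    refine h.coreF2 hQ h.vT hr hj (v' := v') (d' := d') (by rw [hvx]; exact t1)
      (by rw [hdx]; unfold dd; rw [hdk]; exact t2)
      (by rw [hvx, hdx]; unfold dd; rw [hdk]; exact t3) (s4_lo h2 h4 _) ?_
    rw [hlv, hlv', hdk]
    unfold kk
    push_cast
    exact t4

/-- common form of the jump rules -/
theorem Val2.useJ (h : Val2 M p a b c J ds l q E t D dl Cl vi vr Nr Nk) {Q : List Con}
    (hQ : ∀ c ∈ Q, hld (xv vi vr) c) {x : RL2} (hr : RC2 M Q x) (hj : x.r.jr = true)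
    {hv : ℝ → ℤ} (hlv : hh p a (sB c (t * a) x.r.st) (eR M.K vi x.r.n) = hv)
    {vx : ℝ} (hvx : evg (xv vi vr) (fx M.K x.r.n) = vx)
    (R1 : JE p b hv (eX M.K vi x.r.f + ds * eI M.K vi vr x.r.f + eR M.K vi x.r.f - vx)
      (eR M.K vi x.r.f))
    (R2 : JE p b hv (eX M.K vi x.r.f + ds * eI M.K vi vr x.r.f + eR M.K vi x.r.f + a - vx)
      (eR M.K vi x.r.f + a)) : False := by
  have hdx := h.efd x.r
  rcases hdk : x.r.dk with _ | _
  · obtain ⟨t', t1, t2⟩ := R1
    refine h.coreJ2 hQ h.vT hr hj (t' := t')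
      (by rw [hvx, hdx]; unfold dd; rw [hdk]; exact t1) ?_
    rw [hlv, hdk]
    exact t2
  · obtain ⟨t', t1, t2⟩ := R2
    refine h.coreJ2 hQ h.vT hr hj (t' := t')
      (by rw [hvx, hdx]; unfold dd; rw [hdk]; exact t1) ?_
    rw [hlv, hdk]
    unfold kk
    push_cast
    exact t2

/-- common form of the rules of the exact lines -/
theorem Val2.useL (h : Val2 M p a b c J ds l q E t D dl Cl vi vr Nr Nk) {Q : List Con}
    (hQ : ∀ c ∈ Q, hld (xv vi vr) c) {x : RL2} (hr : RC2 M Q x) (hj : x.r.jr = false)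
    {hv hv' : ℝ → ℤ}
    (hlv : lw p a c (t * a) x.r.st (eR M.K vi x.r.n) = hv)
    (hlv' : lw' p a c (t * a) x.r.st (eR M.K vi x.r.n) = hv') {v0 : ℝ} {m : ℤ}
    (hvx : evg (xv vi vr) (fx M.K x.r.n) = v0 + m * p)
    (hsp : spv (s4 M.K x.r.st) (zz ds (Helper10.KE.ind p (-b) dl (v0 + m * p))))
    (R1 : FLR p a b dl hv hv' v0
      (eX M.K vi x.r.f + ds * eI M.K vi vr x.r.f + eR M.K vi x.r.f) (eR M.K vi x.r.f) (-1))
    (R2 : FLR p a b dl hv hv' v0
      (eX M.K vi x.r.f + ds * eI M.K vi vr x.r.f + eR M.K vi x.r.f + a)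
      (eR M.K vi x.r.f + a) 1) : False := by
  have hdx := h.efd x.r
  have hp1 : ∀ (x : ℝ) (m : ℤ), hv (x + m * p) = hv x := by
    intro x m
    rw [← hlv]
    exact lw_per _ _ _ _ _ _ _ _
  have hp2 : ∀ (x : ℝ) (m : ℤ), hv' (x + m * p) = hv' x := by
    intro x m
    rw [← hlv']
    exact lw'_per _ _ _ _ _ _ _ _
  have e1 : ∀ y : ℝ, y - (v0 + m * p) = (y - v0) - ((m : ℝ) * p) := fun y => by ring
  have e2 : ((m : ℝ) * p) = ((m * p : ℤ) : ℝ) := by push_cast; ring
  rcases hdk : x.r.dk with _ | _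
  · obtain ⟨d', t2, t3, t4⟩ := R1
    refine h.coreF2 hQ h.vT hr hj (v' := v0 + m * p) (d' := d') (by rw [hvx]; exact Tr.refl _ _)
      (by rw [hdx]; unfold dd; rw [hdk]; exact t2) ?_ hsp ?_
    · rw [hvx, hdx]
      unfold dd
      rw [hdk, e1, e1]
      exact tz_shift t3 e2
    · rw [hlv, hlv', hdk]
      exact ruq_shift hp1 hp2 m t4
  · obtain ⟨d', t2, t3, t4⟩ := R2
    refine h.coreF2 hQ h.vT hr hj (v' := v0 + m * p) (d' := d') (by rw [hvx]; exact Tr.refl _ _)
      (by rw [hdx]; unfold dd; rw [hdk]; exact t2) ?_ hsp ?_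
    · rw [hvx, hdx]
      unfold dd
      rw [hdk, e1, e1]
      exact tz_shift t3 e2
    · rw [hlv, hlv', hdk]
      unfold kk
      push_cast
      exact ruq_shift hp1 hp2 m t4

theorem je_shift {p b : ℝ} {hv : ℝ → ℤ} {x v0 kd : ℝ} {m p' : ℤ} (hp' : p = p')
    (hp1 : ∀ (t : ℝ) (m : ℤ), hv (t + m * p) = hv t) (h : JE p b hv (x - v0) kd) :
    JE p b hv (x - (v0 + m * p)) kd := by
  obtain ⟨t', h1, h2⟩ := h
  have e2 : ((m : ℝ) * p) = ((m * p' : ℤ) : ℝ) := by rw [hp']; push_cast; ring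
  refine ⟨t' - m * p, ?_, ?_⟩
  · have e1 : x - (v0 + m * p) = (x - v0) - ((m : ℝ) * p) := by ring
    rw [e1]
    exact tz_shift h1 e2
  · intro W hW
    have e3 : t' - m * p = t' + ((-m : ℤ) : ℝ) * p := by push_cast; ring
    rw [e3, ind_per] at hW
    rw [e3, hp1]
    exact h2 W hW

/-- the rule leaf in the second world -/
theorem Val2.rule (h : Val2 M p a b c J ds l q E t D dl Cl vi vr Nr Nk)
    (W : World2 p a b c J ds l q E t D dl Cl) (hg : gl2 M = true) {Q : List Con}
    (hQ : ∀ c ∈ Q, hld (xv vi vr) c) {x : RL2} (hr : rlc2 M Q x = true) : False := by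
  have hc := rc2_of hr
  have hix := hc.ix
  have hix' := hix
  unfold rlix2 at hix'
  rw [Bool.and_eq_true] at hix'
  obtain ⟨n1, n2, n3, nU, nM, nL, nM2, nL2, n4⟩ := h.ixn W hQ hix'.1
  have hvx := h.efx x.r.n
  have hdx := h.efd x.r
  have hlp := W.hlp
  rcases hf : x.r.f0 with _ | _
  · obtain ⟨f1, f2, f3, f4, f5, f6, f7, f8⟩ := h.ixf W hQ hc hf
    have hcn := h.clE x.r.n
    have hcf := h.clE x.r.f
    rcases (by omega : x.r.st = 0 ∨ x.r.st = 1 ∨ x.r.st = 2 ∨ x.r.st = 3 ∨ x.r.st = 4) with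
      hst | hst | hst | hst | hst
    · -- not merged
      have hjr : x.r.jr = false := by
        rcases hj : x.r.jr with _ | _
        · rfl
        · exact absurd hst (hc.J hj).1
      obtain ⟨R1, R2⟩ := W.ruleUR hcn hcf n1 f1 (f7 (by omega) (by omega))
        (f8 (by omega) (by omega)) (nU hst).1 (nU hst).2 f2 f3 f4
      exact h.useF hQ hc hjr (by omega) (by omega) (by rw [hst]; rfl) (by rw [hst]; rfl) R1 R2
    · -- first tie
      rcases hj : x.r.jr with _ | _
      · obtain ⟨R1, R2⟩ := W.ruleMR hcn hcf n1 f1 (f7 (by omega) (by omega))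
          (f8 (by omega) (by omega)) (nM hst) n3 f2 f3 f4 (f5 hst)
        refine h.useF hQ hc hj (by omega) (by omega) ?_ ?_ R1 R2
        · rw [hst]
          show hh p a ((-c : ℤ) : ℝ) _ = _
          rw [Int.cast_neg]
        · rw [hst]
          show hh p a ((-c : ℤ) : ℝ) _ = _
          rw [Int.cast_neg]
      · obtain ⟨R1, R2⟩ := W.ruleJ hcn hcf n1 f1 (f7 (by omega) (by omega))
          (f8 (by omega) (by omega)) (nM hst).le n3 f2.le f3 f4 (f5 hst)
        refine h.useJ hQ hc hj ?_ hvx R1 R2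
        rw [hst]
        show hh p a ((-c : ℤ) : ℝ) _ = _
        rw [Int.cast_neg]
    · -- the line of `l`
      obtain ⟨g1, g2, g3⟩ := nL hst
      obtain ⟨x1, x2⟩ := h.exl (gl2_gl hg) g1
      have hfl : NN p l (q :: Nr) x.r.f ≠ l := fun hcon => f4 (by rw [hcon, g2])
      obtain ⟨R1, R2⟩ := W.ruleLR hcf f1 f2 f3 hfl
      have hxr : ((eR M.K vi x.r.n : ℤ) : ℝ) = (c : ℝ) + b := by rw [x2]; push_cast; ring
      have hx0 : evg (xv vi vr) (fx M.K x.r.n) = -(b : ℝ) + ((0 : ℤ) : ℝ) * p := by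
        rw [x1]
        push_cast
        ring
      have e0 : -(b : ℝ) + ((0 : ℤ) : ℝ) * p = -b := by push_cast; ring
      rcases hj : x.r.jr with _ | _
      · refine h.useL hQ hc hj ?_ ?_ hx0 ?_ R1 R2
        · rw [hst]
          show hh p a ((-c : ℤ) : ℝ) (eR M.K vi x.r.n : ℤ) = _
          rw [hxr, Int.cast_neg]
        · rw [hst]
          show hu p a (eR M.K vi x.r.n : ℤ) = _
          rw [hxr]
        · rw [hst, e0]
          exact h.sp_l
      · refine h.useJ hQ hc hj (hv := hh p a (-c) (c + b)) ?_ x1 (R1.je (Or.inr rfl))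
          (R2.je (Or.inl rfl))
        rw [hst, hxr]
        show hh p a ((-c : ℤ) : ℝ) _ = _
        rw [Int.cast_neg]
    · -- second tie
      have eta : ((t * a - c : ℤ) : ℝ) = (t : ℝ) * a - c := by push_cast; ring
      rcases hj : x.r.jr with _ | _
      · obtain ⟨R1, R2⟩ := W.ruleM2R hcn hcf n1 f1 (f7 (by omega) (by omega))
          (f8 (by omega) (by omega)) n2 (nM2 hst) f2 f3 f4 (f6 hst)
        refine h.useF hQ hc hj (by omega) (by omega) ?_ ?_ R1 R2
        · rw [hst]
          show hh p a ((t * a - c : ℤ) : ℝ) _ = _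
          rw [eta]
        · rw [hst]
          show hh p a ((t * a - c : ℤ) : ℝ) _ = _
          rw [eta]
      · obtain ⟨R1, R2⟩ := W.ruleJ2 hcn hcf n1 f1 (f7 (by omega) (by omega))
          (f8 (by omega) (by omega)) n2.le (nM2 hst) f2.le f3 f4 (f6 hst)
        refine h.useJ hQ hc hj ?_ hvx R1 R2
        rw [hst]
        show hh p a ((t * a - c : ℤ) : ℝ) _ = _
        rw [eta]
    · -- the line of `p + l - q`
      have eta : ((t * a - c : ℤ) : ℝ) = (t : ℝ) * a - c := by push_cast; ring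
      obtain ⟨g1, g2, g3⟩ := nL2 hst
      obtain ⟨⟨m, x1, -⟩, x2⟩ := h.exv W hg g1
      have hfl : NN p l (q :: Nr) x.r.f + q ≠ p + l := fun hcon => f4 (by rw [g2]; omega)
      obtain ⟨R1, R2⟩ := W.ruleL2R hcf f1 f2 f3 hfl
      have hxr : ((eR M.K vi x.r.n : ℤ) : ℝ) = (c : ℝ) + b - t * a := by
        rw [x2]
        push_cast
        ring
      have hlv : lw p a c (t * a) x.r.st (eR M.K vi x.r.n) = hu p a (c + b - t * a) := by
        rw [hst]
        show hu p a (eR M.K vi x.r.n : ℤ) = _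
        rw [hxr]
      have hlv' : lw' p a c (t * a) x.r.st (eR M.K vi x.r.n) =
          hh p a (t * a - c) (c + b - t * a) := by
        rw [hst]
        show hh p a ((t * a - c : ℤ) : ℝ) (eR M.K vi x.r.n : ℤ) = _
        rw [hxr, eta]
      rcases hj : x.r.jr with _ | _
      · refine h.useL hQ hc hj hlv hlv' x1 ?_ R1 R2
        rw [hst]
        exact h.sp_v m
      · have hp1 : ∀ (x : ℝ) (m : ℤ), hh p a (t * a - c) (c + b - t * a) (x + m * p) =
            hh p a (t * a - c) (c + b - t * a) x := fun x m => hh_per _ _ _ _ _ _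
        refine h.useJ hQ hc hj (hv := hh p a (t * a - c) (c + b - t * a)) ?_ x1
          (je_shift (p' := p) rfl hp1 (R1.je' (Or.inr rfl)))
          (je_shift (p' := p) rfl hp1 (R2.je' (Or.inl rfl)))
        rw [hst, hxr]
        show hh p a ((t * a - c : ℤ) : ℝ) _ = _
        rw [eta]
  · -- `f = 0`
    obtain ⟨e1, hj, hst⟩ := ixf02 hix hf
    have z1 : eX M.K vi x.r.f = 0 ∧ eR M.K vi x.r.f = 0 ∧ eI M.K vi vr x.r.f = 0 := by
      have h0 : ∀ (R : Type) [CommRing R] (x : List R) (r : List ℤ) (G : List (List ℤ)),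
          allz r = true → evg x (lin G r) = 0 := by
        intro R _ x r
        induction r with
        | nil =>
          intro G _
          have e : lin G [] = [] := by cases G <;> rfl
          rw [e]
          simp
        | cons c r ih =>
          intro G hr
          have hr' : (izero c && allz r) = true := hr
          rw [Bool.and_eq_true] at hr'
          cases G with
          | nil =>
            have e : lin [] (c :: r) = [] := rfl
            rw [e]
            simp
          | cons g G =>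
            rw [evg_lin, ih G hr'.2, (izero_iff c).1 hr'.1]
            simp
      have e2 : allz x.r.f = true := by
        rcases hh : x.r.f with _ | ⟨y, z⟩
        · rfl
        · rw [hh] at e1
          exact e1
      exact ⟨h0 ℤ vi x.r.f M.K.gX e2, h0 ℤ vi x.r.f M.K.gR e2, h0 ℝ (xv vi vr) x.r.f M.K.gI e2⟩
    obtain ⟨z1, z2, z3⟩ := z1
    have hcn := h.clE x.r.n
    have hp := h.p0
    have hl := W.hl
    have hpq := W.hpq
    have c1 : (0 : ℤ) = tau x.r.n + 2 → (0 : ℤ) ≠ NN p l (q :: Nr) x.r.n + l ∧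
        0 + q ≠ NN p l (q :: Nr) x.r.n + l := by
      intro hh
      rw [abs_le] at n1
      omega
    have c2 : tau x.r.n = 0 + 2 → NN p l (q :: Nr) x.r.n ≠ 0 + l ∧
        NN p l (q :: Nr) x.r.n + q ≠ 0 + l := by
      intro hh
      rw [abs_le] at n1
      omega
    rcases hst with hst | hst
    · have h5 := nM hst
      obtain ⟨R1, R2⟩ := W.ruleJ hcn (Base.zero h.toBase) n1 (by simp) c1 c2
        h5.le n3 le_rfl hp (by omega) (by omega)
      refine h.useJ hQ hc hj (hv := hh p a (-c) (eR M.K vi x.r.n)) ?_ hvx ?_ ?_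
      · rw [hst]
        show hh p a ((-c : ℤ) : ℝ) _ = _
        rw [Int.cast_neg]
      · rw [z1, z2, z3]
        exact R1
      · rw [z1, z2, z3]
        exact R2
    · have eta : ((t * a - c : ℤ) : ℝ) = (t : ℝ) * a - c := by push_cast; ring
      obtain ⟨R1, R2⟩ := W.ruleJ2 hcn (Base.zero h.toBase) n1 (by simp) c1 c2
        n2.le (nM2 hst) le_rfl hp (by omega) (by omega)
      refine h.useJ hQ hc hj (hv := hh p a (t * a - c) (eR M.K vi x.r.n)) ?_ hvx ?_ ?_
      · rw [hst]
        show hh p a ((t * a - c : ℤ) : ℝ) _ = _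
        rw [eta]
      · rw [z1, z2, z3]
        exact R1
      · rw [z1, z2, z3]
        exact R2

/-- the test leaf in the second world -/
theorem Val2.test (h : Val2 M p a b c J ds l q E t D dl Cl vi vr Nr Nk)
    (W : World2 p a b c J ds l q E t D dl Cl) (hg : gl2 M = true) {Q : List Con}
    (hQ : ∀ c ∈ Q, hld (xv vi vr) c) {x : SL2} (hr : slc2 M Q x = true) : False := by
  unfold slc2 at hr
  simp only [Bool.and_eq_true] at hr
  obtain ⟨⟨⟨⟨⟨r1, r2⟩, r3⟩, r4⟩, r5⟩, r6⟩ := hr
  obtain ⟨n1, n2, n3, nU, nM, nL, nM2, nL2, n4⟩ := h.ixn W hQ r3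
  have hvx := h.efx x.r.n
  have hcn := h.clE x.r.n
  have eta : ((t * a - c : ℤ) : ℝ) = (t : ℝ) * a - c := by push_cast; ring
  have hst4 : x.r.st ≠ 4 := by
    intro hcon
    rw [hcon] at r2
    rcases ht : x.r.ty with _ | t
    · rw [ht] at r2
      simp at r2
    · rw [ht] at r2
      simp at r2
  have hst : (x.r.st = 0 ∨ x.r.st = 1 ∨ x.r.st = 3) ∨ x.r.st = 2 ∧ x.r.ty = 0 := by
    rcases ht : x.r.ty with _ | t
    · rcases (by omega : x.r.st = 0 ∨ x.r.st = 1 ∨ x.r.st = 2 ∨ x.r.st = 3) with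
        h1 | h1 | h1 | h1
      · left; left; exact h1
      · left; right; left; exact h1
      · right; exact ⟨h1, rfl⟩
      · left; right; right; exact h1
    · left
      rw [ht] at r2
      split at r2
      · rename_i heq
        exact absurd heq (by simp)
      · split at r2
        · left; assumption
        · right; left; assumption
        · right; right; assumption
        · exact absurd r2 (by simp)
  rcases hst with hs | ⟨hs, hty0⟩
  · -- ordinary lines
    have key : FS p a b dl (lw p a c (t * a) x.r.st (eR M.K vi x.r.n))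
        (lw' p a c (t * a) x.r.st (eR M.K vi x.r.n))
        (eX M.K vi x.r.n + ds * eI M.K vi vr x.r.n) := by
      rcases hs with hst0 | hst0 | hst0
      · rw [hst0]
        exact W.testU hcn n1 (nU hst0).1 (nU hst0).2
      · rw [hst0]
        show FS p a b dl (hh p a ((-c : ℤ) : ℝ) _) (hh p a ((-c : ℤ) : ℝ) _) _
        rw [Int.cast_neg]
        exact W.testM hcn n1 (nM hst0) n3
      · rw [hst0]
        show FS p a b dl (hh p a ((t * a - c : ℤ) : ℝ) _) (hh p a ((t * a - c : ℤ) : ℝ) _) _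
        rw [eta]
        exact W.testM2 hcn n1 n2 (nM2 hst0)
    have hs2 : x.r.st ≠ 2 := by omega
    obtain ⟨v', t1, t2, t3, t4⟩ := key
    have hv1 : Tr dl (evg (xv vi vr) (fx M.K x.r.n)) v' := by rw [hvx]; exact t1
    rcases ht : x.r.ty with _ | tt
    · -- type 0
      have hT : isI M.K x.r.T = true := by
        rw [ht] at r2
        simp only [Bool.and_eq_true] at r2
        exact r2.1
      obtain ⟨S', u1, u2⟩ := t2 (evg vi x.r.T)
      have eS : sS M.K x.r = axpy 1 x.r.T (fx M.K x.r.n) := by simp only [sS, ht]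
      have eT : sT M.K x.r = x.r.T := by simp only [sT, ht]
      have eo : soff x.r = [1] := by simp only [soff, ht]
      have e1 : ss1 x.r = 0 := by simp only [ss1, ht]
      have e2 : ss2 x.r = 0 := by simp only [ss2, ht]
      refine h.coreS2 hQ h.vT r4 r5 r6 r1 (v' := v') (S' := S')
        (t' := ((evg vi x.r.T : ℤ) : ℝ)) hv1 ?_ ?_ ?_ ?_ (s4_lo hs2 hst4 _) u2
      · rw [eS, evg_axpy, h.xI hT, hvx, Int.cast_one, one_mul, add_comm]
        exact u1
      · rw [eT, eo]
        exact h.lt_int hQ (h.xI hT)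
      · rw [e1]
        exact ⟨fun hh => absurd hh (by simp), fun hh => absurd hh (by simp)⟩
      · rw [e2]
        exact ⟨fun hh => absurd hh (by simp), fun hh => absurd hh (by simp)⟩
    · -- types 1 - 4
      have hty : x.r.ty ≠ 0 := by omega
      obtain ⟨B, hB, hS⟩ := h.tr_end x.r hty
      obtain ⟨q1, q2⟩ := SQ.end0 h.toVal (fun y m => lw_per p a c (t * a) x.r.st _ y m)
        (fun y m => lw'_per p a c (t * a) x.r.st _ y m) t3 t4 B
      obtain ⟨w1, w2⟩ := h.tz_end hv1 B
      obtain ⟨-, x1, x2⟩ := h.ends B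
      have eT : sT M.K x.r = axpy (-1) (fx M.K x.r.n) (sS M.K x.r) := by simp only [sT, ht]
      have eo : soff x.r = [] := by simp only [soff, ht]
      have no0 : ∀ z : ℤ, spv 0 z :=
        fun z => ⟨fun hh => absurd hh (by simp), fun hh => absurd hh (by simp)⟩
      rcases hS with ⟨hS1, hS2⟩ | ⟨hS1, hS2⟩
      · refine h.coreS2 hQ h.vT r4 r5 r6 r1 (v' := v') (S' := evg (xv vi vr) (z0f M.K) + B)
          (t' := evg (xv vi vr) (z0f M.K) + B - v') hv1 ?_ ?_ ?_ ?_ (s4_lo hs2 hst4 _) q1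
        · rw [hS2]
          exact Tr.refl _ _
        · rw [eT, eo]
          refine h.lt_tz hQ ?_
          rw [h.etv, hS2]
          exact w1
        · rcases hS1 with ⟨h1, h2⟩ | ⟨h1, h2⟩
          · have e1 : ss1 x.r = 1 := by simp only [ss1, h1]
            rw [e1]
            rw [h2, Int.cast_zero] at x1
            rw [h2, Int.cast_zero]
            exact ⟨fun _ => x1, fun hh => absurd hh (by simp)⟩
          · have e1 : ss1 x.r = 0 := by simp only [ss1, h1]
            rw [e1]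
            exact no0 _
        · rcases hS1 with ⟨h1, h2⟩ | ⟨h1, h2⟩
          · have e1 : ss2 x.r = 0 := by simp only [ss2, h1]
            rw [e1]
            exact no0 _
          · have e1 : ss2 x.r = 1 := by simp only [ss2, h1]
            rw [e1]
            rw [h2] at x1 ⊢
            exact ⟨fun _ => x1, fun hh => absurd hh (by simp)⟩
      · refine h.coreS2 hQ h.vT r4 r5 r6 r1 (v' := v')
          (S' := evg (xv vi vr) (z0f M.K) + D + B)
          (t' := evg (xv vi vr) (z0f M.K) + D + B - v') hv1 ?_ ?_ ?_ ?_ (s4_lo hs2 hst4 _) q2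
        · rw [hS2]
          exact Tr.refl _ _
        · rw [eT, eo]
          refine h.lt_tz hQ ?_
          rw [h.etv, hS2]
          exact w2
        · rcases hS1 with ⟨h1, h2⟩ | ⟨h1, h2⟩
          · have e1 : ss1 x.r = 2 := by simp only [ss1, h1]
            rw [e1]
            rw [h2, Int.cast_zero] at x2
            rw [h2, Int.cast_zero]
            exact ⟨fun hh => absurd hh (by simp), fun _ => x2⟩
          · have e1 : ss1 x.r = 0 := by
              obtain ⟨m, hm⟩ : ∃ m, x.r.ty = m + 4 := ⟨x.r.ty - 4, by omega⟩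
              simp only [ss1, hm]
            rw [e1]
            exact no0 _
        · rcases hS1 with ⟨h1, h2⟩ | ⟨h1, h2⟩
          · have e1 : ss2 x.r = 0 := by simp only [ss2, h1]
            rw [e1]
            exact no0 _
          · have e1 : ss2 x.r = 2 := by
              obtain ⟨m, hm⟩ : ∃ m, x.r.ty = m + 4 := ⟨x.r.ty - 4, by omega⟩
              simp only [ss2, hm]
            rw [e1]
            rw [h2] at x2 ⊢
            exact ⟨fun hh => absurd hh (by simp), fun _ => x2⟩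
  · -- the line of `l`
    obtain ⟨g1, g2, g3⟩ := nL hs
    obtain ⟨x1, x2⟩ := h.exl (gl2_gl hg) g1
    have ht : x.r.ty = 0 := hty0
    have hT : isI M.K x.r.T = true := by
      rw [ht] at r2
      simp only [Bool.and_eq_true] at r2
      exact r2.1
    obtain ⟨S', u1, u2⟩ := W.testL (evg vi x.r.T)
    have eS : sS M.K x.r = axpy 1 x.r.T (fx M.K x.r.n) := by simp only [sS, ht]
    have eT : sT M.K x.r = x.r.T := by simp only [sT, ht]
    have eo : soff x.r = [1] := by simp only [soff, ht]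
    have e1 : ss1 x.r = 0 := by simp only [ss1, ht]
    have e2 : ss2 x.r = 0 := by simp only [ss2, ht]
    have hxr : ((eR M.K vi x.r.n : ℤ) : ℝ) = (c : ℝ) + b := by rw [x2]; push_cast; ring
    have hlv : lw p a c (t * a) x.r.st (eR M.K vi x.r.n) = hh p a (-c) (c + b) := by
      rw [hs]
      show hh p a ((-c : ℤ) : ℝ) (eR M.K vi x.r.n : ℤ) = _
      rw [hxr, Int.cast_neg]
    have hlv' : lw' p a c (t * a) x.r.st (eR M.K vi x.r.n) = hu p a (c + b) := by
      rw [hs]
      show hu p a (eR M.K vi x.r.n : ℤ) = _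
      rw [hxr]
    refine h.coreS2 hQ h.vT r4 r5 r6 r1 (v' := -(b : ℝ)) (S' := S')
      (t' := ((evg vi x.r.T : ℤ) : ℝ)) (by rw [x1]; exact Tr.refl _ _) ?_ ?_ ?_ ?_ ?_ ?_
    · rw [eS, evg_axpy, h.xI hT, x1, Int.cast_one, one_mul, add_comm]
      exact u1
    · rw [eT, eo]
      exact h.lt_int hQ (h.xI hT)
    · rw [e1]
      exact ⟨fun hh => absurd hh (by simp), fun hh => absurd hh (by simp)⟩
    · rw [e2]
      exact ⟨fun hh => absurd hh (by simp), fun hh => absurd hh (by simp)⟩
    · rw [hs]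
      exact h.sp_l
    · rw [hlv, hlv']
      exact u2

/-- soundness in the second world -/
theorem Val2.sound (h : Val2 M p a b c J ds l q E t D dl Cl vi vr Nr Nk)
    (W : World2 p a b c J ds l q E t D dl Cl) (hg : gl2 M = true)
    (hK : ∀ kf ∈ M.K.kf, KOk2 p l q Cl ds (xv vi vr) Nk kf) :
    ∀ (t : Tr2) (Q : List Con), (∀ c ∈ Q, hld (xv vi vr) c) → chk2 M t Q = true → False := by
  intro t
  induction t with
  | I e L R ihL ihR =>
    intro Q hQ hc
    simp only [chk2, Bool.and_eq_true] at hc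
    obtain ⟨⟨h1, h2⟩, h3⟩ := hc
    have h4 := h.xI h1
    rcases le_or_gt 1 (evg vi e) with h5 | h5
    · refine ihL _ ?_ h2
      intro c hc
      rcases List.mem_cons.1 hc with rfl | hc
      · show (1 : ℝ) ≤ evg (xv vi vr) e
        rw [h4]
        exact_mod_cast h5
      · exact hQ c hc
    · refine ihR _ ?_ h3
      intro c hc
      rcases List.mem_cons.1 hc with rfl | hc
      · show (1 : ℝ) ≤ evg (xv vi vr) (axpy (-1) e [1])
        have h6 : evg (xv vi vr) [1] = 1 := by
          obtain ⟨y, hy⟩ := h.hx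
          rw [hy]
          simp
        rw [evg_axpy, h6, h4]
        have h7 : (1 : ℤ) ≤ -1 * evg vi e + 1 := by omega
        exact_mod_cast h7
      · exact hQ c hc
  | Q e j L R ihL ihR =>
    intro Q hQ hc
    simp only [chk2, Bool.and_eq_true] at hc
    obtain ⟨⟨h1, h2⟩, h3⟩ := hc
    have h4 := h.ju W hQ h1
    rcases lt_or_gt_of_ne h4 with h5 | h5
    · refine ihR _ ?_ h3
      intro c hc
      rcases List.mem_cons.1 hc with rfl | hc
      · show (0 : ℝ) < evg (xv vi vr) (axpy (-1) e [])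
        rw [evg_axpy, evg_nil]
        push_cast
        linarith
      · exact hQ c hc
    · refine ihL _ ?_ h2
      intro c hc
      rcases List.mem_cons.1 hc with rfl | hc
      · exact h5
      · exact hQ c hc
  | C c =>
    intro Q hQ hc
    have h1 := comb_sound h.hx _ _ _ _ _ hQ hc
    rcases h1 with h1 | ⟨h1, -⟩
    · rw [evg_nil, Int.ofNat_eq_natCast] at h1
      push_cast at h1
      linarith
    · exact absurd h1 (by simp)
  | N v m c1 c2 z =>
    intro Q hQ hc
    simp only [chk2, Bool.and_eq_true] at hc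
    obtain ⟨⟨h1, h2⟩, h3⟩ := hc
    have g1 := h.nz hQ h1
    have g2 := cert_sound h.hx hQ h2
    have g3 := cert_sound h.hx hQ h3
    have h6 : evg (xv vi vr) [1] = 1 := by
      obtain ⟨y, hy⟩ := h.hx
      rw [hy]
      simp
    rw [evg_axpy, evg_axpy, h6, h.eP, h.xR] at g2 g3
    have e1 : ((Int.neg m : ℤ) : ℝ) = -(m : ℝ) := by
      show ((-m : ℤ) : ℝ) = _
      push_cast
      ring
    rw [e1] at g2
    push_cast at g2 g3
    have g4 : (-1 : ℤ) < evg vi (fR M.K v) - m * p := by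
      have : ((-1 : ℤ) : ℝ) < ((evg vi (fR M.K v) - m * p : ℤ) : ℝ) := by push_cast; linarith
      exact_mod_cast this
    have g5 : evg vi (fR M.K v) - m * p < 1 := by
      have : ((evg vi (fR M.K v) - m * p : ℤ) : ℝ) < ((1 : ℤ) : ℝ) := by push_cast; linarith
      exact_mod_cast this
    apply g1
    rw [h.dvd (h.cln v)]
    have g6 : evg vi (fR M.K v) = m * p := by omega
    rw [g6]
    exact ⟨m, by ring⟩
  | K r =>
    intro Q hQ hc
    exact h.klf hQ hK hc
  | R r =>
    intro Q hQ hc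
    exact h.rule W hg hQ hc
  | S r =>
    intro Q hQ hc
    exact h.test W hg hQ hc

end

end Helper11.CT
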