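import Pool.Agent.Helper11.CT.Val

set_option autoImplicit false
set_option linter.unusedSectionVars false

/-!
# Certified decision trees: memberships and zones
-/

noncomputable section

namespace Helper11.CT

open Helper25.KW Helper55.KE

theorem ind_one {p k len t : ℝ} (m : ℤ) (h1 : k < t + m * p) (h2 : t + m * p ≤ k + len) :
    Helper10.KE.ind p k len t = 1 := if_pos ⟨m, h1, h2⟩

theorem ind_zero {p k len t : ℝ} (hp : 0 < p) (m : ℤ) (h1 : k + len < t + m * p)
    (h2 : t + m * p ≤ k + p) : Helper10.KE.ind p k len t = 0 := by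
  refine if_neg ?_
  rintro ⟨m', h3, h4⟩
  have h5 : m' < m := by
    by_contra hcon
    push Not at hcon
    have : (m : ℝ) ≤ m' := by exact_mod_cast hcon
    nlinarith
  have h6 : (m' : ℝ) + 1 ≤ m := by exact_mod_cast h5
  nlinarith

theorem ind_zero' {p k len t : ℝ} (hp : 0 < p) (m : ℤ) (h1 : k + len < t + m * p)
    (h2 : t + m * p ≤ k + p) : Helper10.KE.ind p k len t = 0 := ind_zero hp m h1 h2

/-- periodicity -/
theorem ind_per (p k len t : ℝ) (m : ℤ) :
    Helper10.KE.ind p k len (t + m * p) = Helper10.KE.ind p k len t := by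
  unfold Helper10.KE.ind
  congr 1
  apply propext
  constructor
  · rintro ⟨m', h1, h2⟩
    exact ⟨m + m', by push_cast; linarith, by push_cast; linarith⟩
  · rintro ⟨m', h1, h2⟩
    exact ⟨m' - m, by push_cast; linarith, by push_cast; linarith⟩

section

variable {K : Cls} {p a b c J ds l q : ℤ} {D dl : ℝ} {Cl : ℤ → ℤ → ℤ → ℤ → ℝ → Prop}
  {vi : List ℤ} {vr : List ℝ} {Nr : List ℤ}

theorem Val.mem (h : Val K p a b c J ds l q D dl Cl vi vr Nr) {Q : List Con}
    (hQ : ∀ c ∈ Q, hld (xv vi vr) c) {t k len off : List ℤ} {M : Mem}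
    (hM : memc Q K.P t k len off M = true) :
    (M.inn = true ∧ evg (xv vi vr) k < evg (xv vi vr) t + M.m * p ∧
      evg (xv vi vr) t + M.m * p < evg (xv vi vr) k + evg (xv vi vr) len + evg (xv vi vr) off) ∨
    (M.inn = false ∧ evg (xv vi vr) k + evg (xv vi vr) len < evg (xv vi vr) t + M.m * p ∧
      evg (xv vi vr) t + M.m * p < evg (xv vi vr) k + p + evg (xv vi vr) off) := by
  unfold memc at hM
  rcases hi : M.inn with _ | _
  · right
    rw [hi] at hM
    simp only [Bool.and_eq_true] at hM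
    have g1 := cert_sound h.hx hQ hM.1
    have g2 := cert_sound h.hx hQ hM.2
    simp only [evg_axpy, h.eP] at g1 g2
    push_cast at g1 g2
    exact ⟨rfl, by linarith, by linarith⟩
  · left
    rw [hi] at hM
    simp only [Bool.and_eq_true] at hM
    have g1 := cert_sound h.hx hQ hM.1
    have g2 := cert_sound h.hx hQ hM.2
    simp only [evg_axpy, h.eP] at g1 g2
    push_cast at g1 g2
    exact ⟨rfl, by linarith, by linarith⟩

theorem b2_true : b2 true = 1 := rfl
theorem b2_false : b2 false = 0 := rfl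

/-- membership of a crossing level -/
theorem Val.memT (h : Val K p a b c J ds l q D dl Cl vi vr Nr) {Q : List Con}
    (hQ : ∀ c ∈ Q, hld (xv vi vr) c) {t k len : List ℤ} {M : Mem}
    (hM : memc Q K.P t k len [] M = true) {t' : ℝ} {kz lz : ℤ}
    (ht : Tz (evg (xv vi vr) t) t') (hk : evg (xv vi vr) k = kz) (hl : evg (xv vi vr) len = lz) :
    Helper10.KE.ind p kz lz t' = b2 M.inn := by
  have hp : (0 : ℝ) < p := by exact_mod_cast h.p0
  rcases h.mem hQ hM with ⟨h1, h2, h3⟩ | ⟨h1, h2, h3⟩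
  · rw [h1, b2_true]
    rw [hk] at h2
    rw [hk, hl, evg_nil, add_zero] at h3
    have e1 := (ht (kz - M.m * p)).1 (by push_cast; linarith)
    have e2 := (ht (kz + lz - M.m * p)).2 (by push_cast; linarith)
    push_cast at e1 e2
    exact ind_one M.m (by linarith) (by linarith)
  · rw [h1, b2_false]
    rw [hk, hl] at h2
    rw [hk, evg_nil, add_zero] at h3
    have e1 := (ht (kz + lz - M.m * p)).1 (by push_cast; linarith)
    have e2 := (ht (kz + p - M.m * p)).2 (by push_cast; linarith)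
    push_cast at e1 e2
    exact ind_zero hp M.m (by linarith) (by linarith)

/-- membership of a level -/
theorem Val.memW (h : Val K p a b c J ds l q D dl Cl vi vr Nr) {Q : List Con}
    (hQ : ∀ c ∈ Q, hld (xv vi vr) c) {t k len : List ℤ} {M : Mem}
    (hM : memc Q K.P t k len [1] M = true) {Wz kz lz : ℤ}
    (ht : evg (xv vi vr) t = Wz) (hk : evg (xv vi vr) k = kz) (hl : evg (xv vi vr) len = lz) :
    Helper10.KE.ind p kz lz Wz = b2 M.inn := by
  have hp : (0 : ℝ) < p := by exact_mod_cast h.p0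
  have h1' : evg (xv vi vr) [1] = 1 := by
    obtain ⟨y, hy⟩ := h.hx
    rw [hy]
    simp
  rcases h.mem hQ hM with ⟨h1, h2, h3⟩ | ⟨h1, h2, h3⟩
  · rw [h1, b2_true]
    rw [ht, hk] at h2
    rw [ht, hk, hl, h1'] at h3
    have e2 : Wz + M.m * p < kz + lz + 1 := by exact_mod_cast h3
    have e3 : Wz + M.m * p ≤ kz + lz := by omega
    exact ind_one M.m h2 (by exact_mod_cast e3)
  · rw [h1, b2_false]
    rw [ht, hk, hl] at h2
    rw [ht, hk, h1'] at h3
    have e2 : Wz + M.m * p < kz + p + 1 := by exact_mod_cast h3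
    have e3 : Wz + M.m * p ≤ kz + p := by omega
    exact ind_zero hp M.m h2 (by exact_mod_cast e3)

theorem Val.dsc (h : Val K p a b c J ds l q D dl Cl vi vr Nr) :
    (K.ds = 1 ∧ ds = 1 ∧ dl = D ∧ z0f K = []) ∨
      (K.ds = -1 ∧ ds = -1 ∧ dl = p - D ∧ z0f K = axpy (-1) K.D []) := by
  have h0 := h.vds
  rcases h.hds with ⟨h1, h2⟩ | ⟨h1, h2⟩
  · left
    have h3 : K.ds = 1 := by rw [h0, h1]
    refine ⟨h3, h1, h2, ?_⟩
    unfold z0f
    rw [h3]
  · right
    have h3 : K.ds = -1 := by rw [h0, h1]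
    refine ⟨h3, h1, h2, ?_⟩
    unfold z0f
    rw [h3]
    rfl

/-- the indicator of the zone used by the checker -/
def zz (ds ζ : ℤ) : ℤ := if ds = 1 then ζ else 1 - ζ

/-- zone membership -/
theorem Val.memZ (h : Val K p a b c J ds l q D dl Cl vi vr Nr) {Q : List Con}
    (hQ : ∀ c ∈ Q, hld (xv vi vr) c) {zp : List ℤ} {M : Mem}
    (hM : memc Q K.P zp (z0f K) K.D [] M = true) {y y' : ℝ} {k0 : ℤ}
    (hy : evg (xv vi vr) zp = y - k0) (ht : Tr dl y y') :
    zz ds (Helper10.KE.ind p k0 dl y') = b2 M.inn := by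
  have hp : (0 : ℝ) < p := by exact_mod_cast h.p0
  have hD : evg (xv vi vr) K.D = D := h.vD
  have hm := h.mem hQ hM
  unfold zz
  rcases h.dsc with ⟨d1, d2, d3, d4⟩ | ⟨d1, d2, d3, d4⟩
  · rw [if_pos d2]
    rw [d4] at hm
    simp only [evg_nil, hy, hD, add_zero, zero_add] at hm
    rcases hm with ⟨h1, h2, h3⟩ | ⟨h1, h2, h3⟩
    · rw [h1, b2_true]
      have e1 := (ht (k0 - M.m * p)).1 (by push_cast; linarith)
      have e2 := (ht (k0 - M.m * p)).2.2.2 (by push_cast; rw [d3]; linarith)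
      push_cast at e1 e2
      exact ind_one M.m (by linarith) (by linarith)
    · rw [h1, b2_false]
      have e1 := (ht (k0 - M.m * p)).2.2.1 (by push_cast; rw [d3]; linarith)
      have e2 := (ht (k0 + p - M.m * p)).2.1 (by push_cast; linarith)
      push_cast at e1 e2
      exact ind_zero hp M.m (by linarith) (by linarith)
  · have hne : ds ≠ 1 := by rw [d2]; decide
    rw [if_neg hne]
    rw [d4] at hm
    simp only [evg_nil, hy, evg_axpy, hD, add_zero, zero_add] at hm
    push_cast at hm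
    rcases hm with ⟨h1, h2, h3⟩ | ⟨h1, h2, h3⟩
    · rw [h1, b2_true]
      have e1 := (ht (k0 - (M.m + 1) * p)).2.2.1 (by push_cast; rw [d3]; linarith)
      have e2 := (ht (k0 - M.m * p)).2.1 (by push_cast; linarith)
      push_cast at e1 e2
      rw [ind_zero hp (M.m + 1) (by push_cast; linarith) (by push_cast; linarith)]
      norm_num
    · rw [h1, b2_false]
      have e1 := (ht (k0 - M.m * p)).1 (by push_cast; linarith)
      have e2 := (ht (k0 - M.m * p)).2.2.2 (by push_cast; rw [d3]; linarith)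
      push_cast at e1 e2
      rw [ind_one M.m (by linarith) (by linarith)]
      norm_num

/-- the level `t'` belongs to the form `t` -/
def LT (K : Cls) (p : ℤ) (Q : List Con) (x : List ℝ) (t off : List ℤ) (t' : ℝ) : Prop :=
  ∀ (k len : List ℤ) (M : Mem) (kz lz : ℤ), memc Q K.P t k len off M = true → evg x k = kz →
    evg x len = lz → Helper10.KE.ind p kz lz t' = b2 M.inn

theorem Val.lt_tz (h : Val K p a b c J ds l q D dl Cl vi vr Nr) {Q : List Con}
    (hQ : ∀ c ∈ Q, hld (xv vi vr) c) {t : List ℤ} {t' : ℝ}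
    (ht : Tz (evg (xv vi vr) t) t') : LT K p Q (xv vi vr) t [] t' :=
  fun _ _ _ _ _ hM hk hl => h.memT hQ hM ht hk hl

theorem Val.lt_int (h : Val K p a b c J ds l q D dl Cl vi vr Nr) {Q : List Con}
    (hQ : ∀ c ∈ Q, hld (xv vi vr) c) {t : List ℤ} {m : ℤ}
    (ht : evg (xv vi vr) t = m) : LT K p Q (xv vi vr) t [1] m :=
  fun _ _ _ _ _ hM hk hl => h.memW hQ hM ht hk hl

/-- known value of a zone -/
def spv (sp : ℕ) (z : ℤ) : Prop := (sp = 1 → z = 0) ∧ (2 ≤ sp → z = 1)

/-- one zone -/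
theorem Val.zone (h : Val K p a b c J ds l q D dl Cl vi vr Nr) {Q : List Con}
    (hQ : ∀ c ∈ Q, hld (xv vi vr) c) {sp : ℕ} {zp W t k len off : List ℤ} {Z : Zn}
    (hZ : znc K Q sp zp W t k len off Z = true) {y y' t' : ℝ} {k0 Wz kz lz : ℤ}
    (hy : evg (xv vi vr) zp = y - k0) (ht : Tr dl y y')
    (hsp : spv sp (zz ds (Helper10.KE.ind p k0 dl y')))
    (hW : evg (xv vi vr) W = Wz) (htt : LT K p Q (xv vi vr) t off t')
    (hk : evg (xv vi vr) k = kz) (hl : evg (xv vi vr) len = lz) :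
    zz ds (Helper10.KE.ind p k0 dl y') *
      (Helper10.KE.ind p kz lz Wz - Helper10.KE.ind p kz lz t') = znv sp Z := by
  cases Z with
  | o z =>
    simp only [znc, Bool.and_eq_true, Bool.not_eq_true'] at hZ
    have e1 := h.memZ hQ hZ.2 hy ht
    rw [hZ.1, b2_false] at e1
    rw [e1]
    simp [znv]
  | e w s =>
    simp only [znc, Bool.and_eq_true, beq_iff_eq] at hZ
    obtain ⟨⟨h1, h2⟩, h3⟩ := hZ
    have e1 := h.memW hQ h2 hW hk hl
    have e2 := htt _ _ _ _ _ h3 hk hl
    rw [e1, e2, h1]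
    simp [znv]
  | a z w s =>
    simp only [znc, Bool.and_eq_true] at hZ
    obtain ⟨⟨h1, h2⟩, h3⟩ := hZ
    have e0 := h.memZ hQ h1 hy ht
    have e1 := h.memW hQ h2 hW hk hl
    have e2 := htt _ _ _ _ _ h3 hk hl
    rw [e0, e1, e2]
    simp only [znv]
    rcases z.inn with _ | _
    · simp [b2]
    · simp only [b2_true, one_mul]
      rfl
  | fo =>
    have hZ' : Nat.beq sp 1 = true := hZ
    rw [Nat.beq_eq] at hZ'
    rw [hsp.1 hZ']
    simp [znv]
  | fa w s =>
    simp only [znc, Bool.and_eq_true] at hZ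
    obtain ⟨⟨h1, h2⟩, h3⟩ := hZ
    rw [Nat.ble_eq] at h1
    have e1 := h.memW hQ h2 hW hk hl
    have e2 := htt _ _ _ _ _ h3 hk hl
    rw [e1, e2]
    simp only [znv]
    rcases hb : Nat.beq sp 1 with _ | _
    · have h4 : sp ≠ 1 := by
        intro hcon
        rw [hcon] at hb
        exact absurd hb (by decide)
      rw [hsp.2 (by omega), one_mul]
      rfl
    · have h4 : sp = 1 := by
        rw [← Nat.beq_eq]
        exact hb
      rw [hsp.1 h4, zero_mul]

/-- the identity of the four zones -/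
theorem ind4 {p a b w : ℝ} (ha : 0 ≤ a) (hb : 0 ≤ b) (hab : a + b < p) :
    Helper10.KE.ind p 0 b w - Helper10.KE.ind p a b w - Helper10.KE.ind p 0 a w +
      Helper10.KE.ind p b a w = 0 := by
  have hp : 0 < p := by linarith
  obtain ⟨m, h1, h2⟩ : ∃ m : ℤ, 0 < w + m * p ∧ w + m * p ≤ p := by
    refine ⟨-⌈w / p⌉ + 1, ?_, ?_⟩
    · have := Int.ceil_lt_add_one (w / p)
      have h3 : (⌈w / p⌉ : ℝ) * p < (w / p + 1) * p := mul_lt_mul_of_pos_right this hp
      rw [add_mul, div_mul_cancel₀ w hp.ne'] at h3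
      push_cast
      linarith
    · have := Int.le_ceil (w / p)
      have h3 : (w / p) * p ≤ (⌈w / p⌉ : ℝ) * p := mul_le_mul_of_nonneg_right this hp.le
      rw [div_mul_cancel₀ w hp.ne'] at h3
      push_cast
      linarith
  have I1 : ∀ k len : ℝ, k < w + m * p → w + m * p ≤ k + len → Helper10.KE.ind p k len w = 1 :=
    fun k len g1 g2 => ind_one m g1 g2
  have I0 : ∀ k len : ℝ, 0 ≤ k → k + len < w + m * p → Helper10.KE.ind p k len w = 0 :=
    fun k len g0 g1 => ind_zero hp m g1 (by linarith)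
  have I0' : ∀ k len : ℝ, k + len < p → 0 ≤ len → w + m * p ≤ k →
      Helper10.KE.ind p k len w = 0 := by
    intro k len g0 g1 g2
    exact ind_zero hp (m + 1) (by push_cast; linarith) (by push_cast; linarith)
  rcases le_or_gt (w + m * p) a with ca | ca <;> rcases le_or_gt (w + m * p) b with cb | cb
  · rw [I1 0 b h1 (by linarith), I0' a b hab hb ca, I1 0 a h1 (by linarith),
      I0' b a (by linarith) ha cb]
    norm_num
  · rw [I0 0 b le_rfl (by linarith), I0' a b hab hb ca, I1 0 a h1 (by linarith),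
      I1 b a cb (by linarith)]
    norm_num
  · rw [I1 0 b h1 (by linarith), I1 a b ca (by linarith), I0 0 a le_rfl (by linarith),
      I0' b a (by linarith) ha cb]
    norm_num
  · rcases le_or_gt (w + m * p) (a + b) with cc | cc
    · rw [I0 0 b le_rfl (by linarith), I1 a b ca (by linarith), I0 0 a le_rfl (by linarith),
        I1 b a cb (by linarith)]
      norm_num
    · rw [I0 0 b le_rfl (by linarith), I0 a b ha (by linarith), I0 0 a le_rfl (by linarith),
        I0 b a hb (by linarith)]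
      norm_num

/-- the four zones -/
theorem Val.zones (h : Val K p a b c J ds l q D dl Cl vi vr Nr) {Q : List Con}
    (hQ : ∀ c ∈ Q, hld (xv vi vr) c) {s1 s2 s4 : ℕ} {S v W t off : List ℤ} {Z : List Zn}
    (hZ : zall K Q s1 s2 s4 S v W t off Z = true) {S' v' t' : ℝ} {Wz : ℤ}
    (hS1 : Tr dl (evg (xv vi vr) S) S') (hv1 : Tr dl (evg (xv vi vr) v) v')
    (hW : evg (xv vi vr) W = Wz) (htt : LT K p Q (xv vi vr) t off t')
    (h1 : spv s1 (zz ds (Helper10.KE.ind p 0 dl S')))
    (h2 : spv s2 (zz ds (Helper10.KE.ind p a dl S')))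
    (h4 : spv s4 (zz ds (Helper10.KE.ind p (-b) dl v'))) :
    Helper10.KE.gg p a b dl v' S' Wz - Helper10.KE.gg p a b dl v' S' t' = zG K s1 s2 s4 Z := by
  unfold zall at hZ
  split at hZ
  · rename_i z1 z2 z3 z4
    simp only [Bool.and_eq_true] at hZ
    obtain ⟨⟨⟨g1, g2⟩, g3⟩, g4⟩ := hZ
    have hp := h.p0
    have ha := h.ha
    have hb := h.hb
    have h2a := h.h2a
    have h2b := h.h2b
    have e0 : evg (xv vi vr) [] = ((0 : ℤ) : ℝ) := by simp
    have o1 := h.zone hQ g1 (y := evg (xv vi vr) S) (k0 := 0) (by simp) hS1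
      (by rw [Int.cast_zero]; exact h1) hW htt e0 h.eB
    have o2 := h.zone hQ g2 (y := evg (xv vi vr) S) (k0 := a)
      (by rw [evg_axpy, h.eA]; push_cast; ring) hS1 h2 hW htt h.eA h.eB
    have o3 := h.zone hQ g3 (y := evg (xv vi vr) v) (k0 := 0) (by simp) hv1
      ⟨fun hh => absurd hh (by simp), fun hh => absurd hh (by simp)⟩ hW htt e0 h.eA
    have o4 := h.zone hQ g4 (y := evg (xv vi vr) v) (k0 := -b)
      (by rw [evg_axpy, h.eB]; push_cast; ring) hv1
      (by rw [Int.cast_neg]; exact h4) hW htt h.eB h.eA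
    show _ = K.ds * (znv s1 z1 - znv s2 z2 - znv 0 z3 + znv s4 z4)
    rw [← o1, ← o2, ← o3, ← o4]
    have hap : (a : ℝ) + b < p := by
      have : a + b < p := by omega
      exact_mod_cast this
    have i1 := ind4 (p := (p : ℝ)) (a := a) (b := b) (w := (Wz : ℝ))
      (by exact_mod_cast (by omega : (0 : ℤ) ≤ a)) (by exact_mod_cast (by omega : (0 : ℤ) ≤ b)) hap
    have i2 := ind4 (p := (p : ℝ)) (a := a) (b := b) (w := t')
      (by exact_mod_cast (by omega : (0 : ℤ) ≤ a)) (by exact_mod_cast (by omega : (0 : ℤ) ≤ b)) hap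
    unfold Helper10.KE.gg zz
    simp only [Int.cast_zero, Int.cast_neg]
    rcases h.dsc with ⟨d1, d2, -, -⟩ | ⟨d1, d2, -, -⟩
    · rw [d1, d2]
      simp only [if_true]
      ring
    · rw [d1, d2]
      simp only [show ¬ ((-1 : ℤ) = 1) from by decide, if_false]
      linear_combination i1 - i2
  · exact absurd hZ (by simp)

end

end Helper11.CT
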