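import Pool.Agent.Helper11.CT.Mem

set_option autoImplicit false
set_option linter.unusedSectionVars false

/-!
# Certified decision trees: the rule leaves
-/

noncomputable section

namespace Helper11.CT

open Helper25.KW Helper55.KE

theorem any2_false {F x : ℤ} (hx : |F + x| ≤ 1) : ∀ {L : List ℤ}, (∀ y ∈ L, |F + y| ≤ 1) →
    any2 x L = false := by
  intro L
  induction L with
  | nil => intro _; rfl
  | cons y L ih =>
    intro h
    have hy := h y List.mem_cons_self
    have h1 := ih (fun z hz => h z (List.mem_cons_of_mem _ hz))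
    rw [abs_le] at hx hy
    have e1 : ipos (iadd (iadd x (imul (-1) y)) (-2)) = false := by
      rw [Bool.eq_false_iff]
      intro h2
      rw [ipos_iff, iadd_eq, iadd_eq, imul_eq] at h2
      omega
    have e2 : ipos (iadd (iadd y (imul (-1) x)) (-2)) = false := by
      rw [Bool.eq_false_iff]
      intro h2
      rw [ipos_iff, iadd_eq, iadd_eq, imul_eq] at h2
      omega
    show (ipos (iadd (iadd x (imul (-1) y)) (-2)) || ipos (iadd (iadd y (imul (-1) x)) (-2)) ||
      any2 x L) = false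
    rw [e1, e2, h1]
    rfl

theorem rng_false {F : ℤ} : ∀ {L : List ℤ}, (∀ y ∈ L, |F + y| ≤ 1) → rng L = false := by
  intro L
  induction L with
  | nil => intro _; rfl
  | cons x L ih =>
    intro h
    show (any2 x L || rng L) = false
    rw [any2_false (h x List.mem_cons_self) (fun z hz => h z (List.mem_cons_of_mem _ hz)),
      ih (fun z hz => h z (List.mem_cons_of_mem _ hz))]
    rfl

theorem rng_q4 {J J' s G : ℤ} (h : Q4 J J' s G) :
    rng [0, J, s, J + s, G, G + J', G + s, G + J' + s] = false := by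
  obtain ⟨F, h1, h2, h3, h4, h5, h6, h7, h8⟩ := h
  refine rng_false (F := F) ?_
  intro y hy
  simp only [List.mem_cons, List.not_mem_nil, or_false] at hy
  rcases hy with rfl | rfl | rfl | rfl | rfl | rfl | rfl | rfl
  · simpa using h1
  · exact h2
  · exact h3
  · rw [← add_assoc]; exact h4
  · exact h5
  · rw [← add_assoc]; exact h6
  · rw [← add_assoc]; exact h7
  · rw [← add_assoc, ← add_assoc]; exact h8

section

variable {K : Cls} {p a b c J ds l q : ℤ} {D dl : ℝ} {Cl : ℤ → ℤ → ℤ → ℤ → ℝ → Prop}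
  {vi : List ℤ} {vr : List ℝ} {Nr : List ℤ}

/-- coordinates of a descriptor -/
def eX (K : Cls) (vi : List ℤ) (n : List ℤ) : ℤ := evg vi (fX K n)
def eR (K : Cls) (vi : List ℤ) (n : List ℤ) : ℤ := evg vi (fR K n)
def eI (K : Cls) (vi : List ℤ) (vr : List ℝ) (n : List ℤ) : ℝ := evg (xv vi vr) (fI K n)

theorem Val.efx (h : Val K p a b c J ds l q D dl Cl vi vr Nr) (n : List ℤ) :
    evg (xv vi vr) (fx K n) = eX K vi n + ds * eI K vi vr n := by
  have h1 := h.xX n
  unfold fX at h1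
  unfold fx eX eI fX fI
  rw [evg_axpy, h1, h.vds]
  ring

/-- real position of the diagonal line -/
def dd (K : Cls) (a ds : ℤ) (vi : List ℤ) (vr : List ℝ) (dk : Bool) (f : List ℤ) : ℝ :=
  match dk with
  | true => eX K vi f + ds * eI K vi vr f + eR K vi f + a
  | false => eX K vi f + ds * eI K vi vr f + eR K vi f

def kk (K : Cls) (a : ℤ) (vi : List ℤ) (dk : Bool) (f : List ℤ) : ℤ :=
  match dk with
  | true => eR K vi f + a
  | false => eR K vi f

theorem Val.efd (h : Val K p a b c J ds l q D dl Cl vi vr Nr) (r : RL) :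
    evg (xv vi vr) (fd K r) = dd K a ds vi vr r.dk r.f := by
  have h1 := h.xR r.f
  have h2 := h.efx r.f
  unfold fd dd
  cases r.dk with
  | true =>
    simp only [evg_axpy, h.eA, h1, h2]
    unfold eR
    push_cast
    ring
  | false =>
    simp only [evg_axpy, h1, h2]
    unfold eR
    push_cast
    ring

theorem Val.ekd (h : Val K p a b c J ds l q D dl Cl vi vr Nr) (r : RL) :
    evg (xv vi vr) (fkd K r) = kk K a vi r.dk r.f := by
  have h1 := h.xR r.f
  unfold fkd kk
  cases r.dk with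
  | true =>
    simp only [evg_axpy, h.eA, h1]
    unfold eR
    push_cast
    ring
  | false =>
    simp only [h1]
    unfold eR
    rfl

/-- content of a rule leaf except the index conditions -/
structure RC (K : Cls) (Q : List Con) (r : RL) : Prop where
  W : isI K r.W = true
  ix : rlix K Q r = true
  KW : memc Q K.P r.W (fkd K r) K.B [1] r.KW = true
  Kt : memc Q K.P (axpy (-1) (fx K r.n) (fd K r)) (fkd K r) K.B [] r.Kt = true
  lm : lmem K Q r.st r.n r.W (axpy (-1) (fx K r.n) (fd K r)) [] r.AW r.At r.BW r.Bt = true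
  J : r.jr = true → r.st ≠ 0 ∧ r.KW.inn ≠ r.Kt.inn ∧
    istwo (jmp0 r.st r.AW.inn r.At.inn r.BW.inn r.Bt.inn) = true
  F : r.jr = false →
    zall K Q 0 0 (sp4 K r.st) (fd K r) (fx K r.n) r.W (axpy (-1) (fx K r.n) (fd K r)) [] r.Z =
      true ∧
    ¬ Q4 (jmp0 r.st r.AW.inn r.At.inn r.BW.inn r.Bt.inn)
      (jmp1 r.st r.AW.inn r.At.inn r.BW.inn r.Bt.inn)
      ((match r.dk with | true => 1 | false => -1) * (b2 r.KW.inn - b2 r.Kt.inn))
      (zG K 0 0 (sp4 K r.st) r.Z)

theorem rc_of {Q : List Con} {r : RL} (hr : rlc K Q r = true) : RC K Q r := by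
  unfold rlc at hr
  simp only [Bool.and_eq_true] at hr
  obtain ⟨⟨⟨⟨⟨h1, h2⟩, h3⟩, h4⟩, h5⟩, h8⟩ := hr
  refine ⟨h1, h2, h3, h4, h5, ?_, ?_⟩
  · intro hj
    rw [hj] at h8
    simp only [Bool.and_eq_true, bne_iff_ne, ne_eq] at h8
    obtain ⟨⟨g1, g2⟩, g3⟩ := h8
    refine ⟨?_, g2, g3⟩
    intro hs
    rw [hs] at g1
    exact absurd g1 (by simp)
  · intro hj
    rw [hj] at h8
    simp only [Bool.and_eq_true] at h8
    refine ⟨h8.1, ?_⟩
    intro hq
    have := rng_q4 hq
    rw [Bool.eq_false_iff] at this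
    exact this h8.2

/-- jump of a line which is not merged -/
theorem Val.jU (h : Val K p a b c J ds l q D dl Cl vi vr Nr) {Q : List Con}
    (hQ : ∀ c ∈ Q, hld (xv vi vr) c) {st : ℕ} {n W t off : List ℤ} {AW At BW Bt : Mem}
    (hm : lmem K Q st n W t off AW At BW Bt = true) {Wz : ℤ} {t' : ℝ}
    (hW : evg (xv vi vr) W = Wz) (ht : LT K p Q (xv vi vr) t off t') :
    hu p a (eR K vi n) Wz - hu p a (eR K vi n) t' = JU AW.inn At.inn := by
  unfold lmem at hm
  simp only [Bool.and_eq_true] at hm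
  have k1 := h.memW hQ hm.1.1 hW (h.xR n) h.eA
  have k2 := ht _ _ _ _ _ hm.1.2 (h.xR n) h.eA
  unfold hu eR
  rw [k1, k2]
  rfl

/-- jump of a merged line -/
theorem Val.jM (h : Val K p a b c J ds l q D dl Cl vi vr Nr) {Q : List Con}
    (hQ : ∀ c ∈ Q, hld (xv vi vr) c) {st : ℕ} {n W t off : List ℤ} {AW At BW Bt : Mem}
    (hm : lmem K Q st n W t off AW At BW Bt = true) (hst : st ≠ 0) {Wz : ℤ} {t' : ℝ}
    (hW : evg (xv vi vr) W = Wz) (ht : LT K p Q (xv vi vr) t off t') :
    hh p a (-c) (eR K vi n) Wz - hh p a (-c) (eR K vi n) t' = JM AW.inn At.inn BW.inn Bt.inn := by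
  unfold lmem at hm
  simp only [Bool.and_eq_true] at hm
  obtain ⟨⟨m1, m2⟩, m3⟩ := hm
  have m3' : memc Q K.P W (axpy (-1) K.C (fR K n)) K.A [1] BW = true ∧
      memc Q K.P t (axpy (-1) K.C (fR K n)) K.A off Bt = true := by
    rcases st with _ | s
    · exact absurd rfl hst
    · exact m3
  have hk : evg (xv vi vr) (axpy (-1) K.C (fR K n)) = ((evg vi (fR K n) - c : ℤ) : ℝ) := by
    rw [evg_axpy, h.eC, h.xR]
    push_cast
    ring
  have k1 := h.memW hQ m1 hW (h.xR n) h.eA
  have k2 := ht _ _ _ _ _ m2 (h.xR n) h.eA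
  have k3 := h.memW hQ m3'.1 hW hk h.eA
  have k4 := ht _ _ _ _ _ m3'.2 hk h.eA
  have e : ((evg vi (fR K n) - c : ℤ) : ℝ) = (evg vi (fR K n) : ℤ) + -(c : ℝ) := by
    push_cast
    ring
  rw [e] at k3 k4
  unfold hh eR
  rw [k1, k2, k3, k4]
  show _ = (b2 AW.inn - b2 At.inn) - (b2 BW.inn - b2 Bt.inn)
  ring

/-- the line functions of a status -/
def lv (p a c : ℤ) (st : ℕ) (R : ℤ) : ℝ → ℤ := match st with
  | 0 => hu p a R
  | _ => hh p a (-c) R

def lv' (p a c : ℤ) (st : ℕ) (R : ℤ) : ℝ → ℤ := match st with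
  | 0 => hu p a R
  | 1 => hh p a (-c) R
  | _ => hu p a R

theorem Val.j0 (h : Val K p a b c J ds l q D dl Cl vi vr Nr) {Q : List Con}
    (hQ : ∀ c ∈ Q, hld (xv vi vr) c) {st : ℕ} {n W t off : List ℤ} {AW At BW Bt : Mem}
    (hm : lmem K Q st n W t off AW At BW Bt = true) {Wz : ℤ} {t' : ℝ}
    (hW : evg (xv vi vr) W = Wz) (ht : LT K p Q (xv vi vr) t off t') :
    lv p a c st (eR K vi n) Wz - lv p a c st (eR K vi n) t' =
      jmp0 st AW.inn At.inn BW.inn Bt.inn := by
  rcases st with _ | st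
  · exact h.jU hQ hm hW ht
  · exact h.jM hQ hm (by simp) hW ht

theorem Val.j1 (h : Val K p a b c J ds l q D dl Cl vi vr Nr) {Q : List Con}
    (hQ : ∀ c ∈ Q, hld (xv vi vr) c) {st : ℕ} {n W t off : List ℤ} {AW At BW Bt : Mem}
    (hm : lmem K Q st n W t off AW At BW Bt = true) {Wz : ℤ} {t' : ℝ}
    (hW : evg (xv vi vr) W = Wz) (ht : LT K p Q (xv vi vr) t off t') :
    lv' p a c st (eR K vi n) Wz - lv' p a c st (eR K vi n) t' =
      jmp1 st AW.inn At.inn BW.inn Bt.inn := by
  rcases st with _ | _ | st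
  · exact h.jU hQ hm hW ht
  · exact h.jM hQ hm (by simp) hW ht
  · exact h.jU hQ hm hW ht

theorem Val.etv (_h : Val K p a b c J ds l q D dl Cl vi vr Nr) (v w : List ℤ) :
    evg (xv vi vr) (axpy (-1) v w) = evg (xv vi vr) w - evg (xv vi vr) v := by
  rw [evg_axpy]
  push_cast
  ring

/-- the range test of a rule leaf -/
theorem Val.coreF (h : Val K p a b c J ds l q D dl Cl vi vr Nr) {Q : List Con}
    (hQ : ∀ c ∈ Q, hld (xv vi vr) c) {r : RL} (hr : RC K Q r) (hj : r.jr = false)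
    {v' d' : ℝ}
    (hv1 : Tr dl (evg (xv vi vr) (fx K r.n)) v') (hd1 : Tr dl (evg (xv vi vr) (fd K r)) d')
    (ht1 : Tz (evg (xv vi vr) (fd K r) - evg (xv vi vr) (fx K r.n)) (d' - v'))
    (hsp : spv (sp4 K r.st) (zz ds (Helper10.KE.ind p (-b) dl v')))
    (hRU : RUq p a b dl (lv p a c r.st (eR K vi r.n)) (lv' p a c r.st (eR K vi r.n)) v' d'
      (kk K a vi r.dk r.f) (match r.dk with | true => 1 | false => -1)) : False := by
  obtain ⟨g1, g2⟩ := hr.F hj
  apply g2
  have hW : evg (xv vi vr) r.W = ((evg vi r.W : ℤ) : ℝ) := h.xI hr.W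
  have htz : Tz (evg (xv vi vr) (axpy (-1) (fx K r.n) (fd K r))) (d' - v') := by
    rw [h.etv]
    exact ht1
  have hlt := h.lt_tz hQ htz
  have k1 := h.memW hQ hr.KW hW (h.ekd r) h.eB
  have k2 := h.memT hQ hr.Kt htz (h.ekd r) h.eB
  have hJ0 := h.j0 hQ hr.lm hW hlt
  have hJ1 := h.j1 hQ hr.lm hW hlt
  have hG := h.zones hQ g1 hd1 hv1 hW hlt
    ⟨fun hh => absurd hh (by simp), fun hh => absurd hh (by simp)⟩
    ⟨fun hh => absurd hh (by simp), fun hh => absurd hh (by simp)⟩ hsp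
  have hq := hRU (evg vi r.W)
  rw [hJ0, hJ1, k1, k2, hG] at hq
  exact hq

/-- the jump test of a rule leaf -/
theorem Val.coreJ (h : Val K p a b c J ds l q D dl Cl vi vr Nr) {Q : List Con}
    (hQ : ∀ c ∈ Q, hld (xv vi vr) c) {r : RL} (hr : RC K Q r) (hj : r.jr = true)
    {t' : ℝ}
    (ht1 : Tz (evg (xv vi vr) (fd K r) - evg (xv vi vr) (fx K r.n)) t')
    (hRU : ∀ W : ℤ, Helper10.KE.ind p (kk K a vi r.dk r.f : ℤ) b W +
      Helper10.KE.ind p (kk K a vi r.dk r.f : ℤ) b t' = 1 →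
      |hh p a (-c) (eR K vi r.n) W - hh p a (-c) (eR K vi r.n) t'| ≤ 1) : False := by
  obtain ⟨g1, g2, g3⟩ := hr.J hj
  have hW : evg (xv vi vr) r.W = ((evg vi r.W : ℤ) : ℝ) := h.xI hr.W
  have htz : Tz (evg (xv vi vr) (axpy (-1) (fx K r.n) (fd K r))) t' := by
    rw [h.etv]
    exact ht1
  have hlt := h.lt_tz hQ htz
  have k1 := h.memW hQ hr.KW hW (h.ekd r) h.eB
  have k2 := h.memT hQ hr.Kt htz (h.ekd r) h.eB
  have hJ0 := h.j0 hQ hr.lm hW hlt
  have hq := hRU (evg vi r.W) (by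
    rw [k1, k2]
    revert g2
    rcases r.KW.inn with _ | _ <;> rcases r.Kt.inn with _ | _
    · intro g2
      exact absurd rfl g2
    · intro _
      rfl
    · intro _
      rfl
    · intro g2
      exact absurd rfl g2)
  have e : lv p a c r.st (eR K vi r.n) = hh p a (-c) (eR K vi r.n) := by
    rcases hs : r.st with _ | s
    · exact absurd hs g1
    · rfl
  rw [e] at hJ0
  rw [hJ0] at hq
  have h3 : |jmp0 r.st r.AW.inn r.At.inn r.BW.inn r.Bt.inn| = 2 := by
    have : ∀ z : ℤ, istwo z = true → |z| = 2 := by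
      intro z hz
      rcases z with z | z
      · rcases z with _ | _ | _ | z
        · exact absurd hz (by show ¬ (false = true); simp)
        · exact absurd hz (by show ¬ (false = true); simp)
        · rfl
        · exact absurd hz (by show ¬ (false = true); simp)
      · rcases z with _ | _ | z
        · exact absurd hz (by show ¬ (false = true); simp)
        · rfl
        · exact absurd hz (by show ¬ (false = true); simp)
    exact this _ g3
  omega

/-- the test leaf -/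
theorem Val.coreS (h : Val K p a b c J ds l q D dl Cl vi vr Nr) {Q : List Con}
    (hQ : ∀ c ∈ Q, hld (xv vi vr) c) {r : SL}
    (hm : lmem K Q r.st r.n r.W (sT K r) (soff r) r.AW r.At r.BW r.Bt = true)
    (hZ : zall K Q (ss1 r) (ss2 r) (sp4 K r.st) (sS K r) (fx K r.n) r.W (sT K r) (soff r) r.Z =
      true)
    (hrg : rng [0, jmp0 r.st r.AW.inn r.At.inn r.BW.inn r.Bt.inn,
      zG K (ss1 r) (ss2 r) (sp4 K r.st) r.Z,
      zG K (ss1 r) (ss2 r) (sp4 K r.st) r.Z + jmp1 r.st r.AW.inn r.At.inn r.BW.inn r.Bt.inn] =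
      true)
    (hWi : isI K r.W = true)
    {v' S' t' : ℝ}
    (hv1 : Tr dl (evg (xv vi vr) (fx K r.n)) v') (hS1 : Tr dl (evg (xv vi vr) (sS K r)) S')
    (hlt : LT K p Q (xv vi vr) (sT K r) (soff r) t')
    (h1 : spv (ss1 r) (zz ds (Helper10.KE.ind p 0 dl S')))
    (h2 : spv (ss2 r) (zz ds (Helper10.KE.ind p a dl S')))
    (h4 : spv (sp4 K r.st) (zz ds (Helper10.KE.ind p (-b) dl v')))
    (hSQ : SQ p a b dl (lv p a c r.st (eR K vi r.n)) (lv' p a c r.st (eR K vi r.n)) v' S' t') :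
    False := by
  have hW : evg (xv vi vr) r.W = ((evg vi r.W : ℤ) : ℝ) := h.xI hWi
  have hJ0 := h.j0 hQ hm hW hlt
  have hJ1 := h.j1 hQ hm hW hlt
  have hG := h.zones hQ hZ hS1 hv1 hW hlt h1 h2 h4
  have hq := hSQ (evg vi r.W)
  rw [hJ0, hJ1, hG] at hq
  obtain ⟨F, f1, f2, f3, f4, f5, f6, f7, f8⟩ := hq
  have := rng_false (F := F) (L := [0, jmp0 r.st r.AW.inn r.At.inn r.BW.inn r.Bt.inn,
      zG K (ss1 r) (ss2 r) (sp4 K r.st) r.Z,
      zG K (ss1 r) (ss2 r) (sp4 K r.st) r.Z + jmp1 r.st r.AW.inn r.At.inn r.BW.inn r.Bt.inn]) (by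
    intro y hy
    simp only [List.mem_cons, List.not_mem_nil, or_false] at hy
    rcases hy with rfl | rfl | rfl | rfl
    · simpa using f1
    · exact f2
    · exact f5
    · rw [← add_assoc]
      exact f6)
  rw [this] at hrg
  exact absurd hrg (by simp)

/-- the crossing level does not belong to the same cluster -/
theorem Val.kt (h : Val K p a b c J ds l q D dl Cl vi vr Nr) {Q : List Con}
    (hQ : ∀ c ∈ Q, hld (xv vi vr) c) {r : RL} (hr : RC K Q r) {e : ℤ}
    (he : e = 0 ∨ e = b)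
    (ht : ∃ m : ℤ, evg (xv vi vr) (fd K r) - evg (xv vi vr) (fx K r.n) =
      kk K a vi r.dk r.f + e + m * p) : False := by
  have hp := h.p0
  have hb := h.hb
  have h2b := h.h2b
  have htt : evg (xv vi vr) (axpy (-1) (fx K r.n) (fd K r)) =
      evg (xv vi vr) (fd K r) - evg (xv vi vr) (fx K r.n) := by
    rw [evg_axpy]
    push_cast
    ring
  obtain ⟨m, hm⟩ := ht
  have h1 := h.mem hQ hr.Kt
  rw [htt, hm, h.ekd r, h.eB, evg_nil] at h1
  rcases h1 with ⟨-, h1, h2⟩ | ⟨-, h1, h2⟩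
  · have h3 : 0 < e + (m + r.Kt.m) * p := by
      have : (0 : ℝ) < ((e + (m + r.Kt.m) * p : ℤ) : ℝ) := by push_cast; linarith
      exact_mod_cast this
    have h4 : e + (m + r.Kt.m) * p < b := by
      have : ((e + (m + r.Kt.m) * p : ℤ) : ℝ) < b := by push_cast; linarith
      exact_mod_cast this
    rcases he with rfl | rfl
    · have h5 : 0 < m + r.Kt.m := by
        by_contra hcon
        push Not at hcon
        nlinarith
      nlinarith
    · have h5 : m + r.Kt.m < 0 := by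
        by_contra hcon
        push Not at hcon
        nlinarith
      nlinarith
  · have h3 : b < e + (m + r.Kt.m) * p := by
      have : (b : ℝ) < ((e + (m + r.Kt.m) * p : ℤ) : ℝ) := by push_cast; linarith
      exact_mod_cast this
    have h4 : e + (m + r.Kt.m) * p < p := by
      have : ((e + (m + r.Kt.m) * p : ℤ) : ℝ) < p := by push_cast; linarith
      exact_mod_cast this
    rcases he with rfl | rfl
    · have h5 : 0 < m + r.Kt.m := by
        by_contra hcon
        push Not at hcon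
        nlinarith
      nlinarith
    · have h5 : 0 < m + r.Kt.m := by
        by_contra hcon
        push Not at hcon
        nlinarith
      nlinarith

end

end Helper11.CT
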