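import Pool.Agent.Helper11.CT.Main
import Pool.Agent.Helper11.CT.Defs2
import Pool.Agent.Helper25.KW.Def2

set_option autoImplicit false
set_option linter.unusedSectionVars false

/-!
# Certified decision trees with second ties: the rule leaves
-/

noncomputable section

namespace Helper11.CT

open Helper25.KW Helper55.KE

section

variable {M : Cx} {p a b c J ds l q t : ℤ} {D dl : ℝ} {Cl : ℤ → ℤ → ℤ → ℤ → ℝ → Prop}
  {vi : List ℤ} {vr : List ℝ} {Nr : List ℤ}

/-- content of a rule leaf except the index conditions -/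
structure RC2 (M : Cx) (Q : List Con) (x : RL2) : Prop where
  W : isI M.K x.r.W = true
  ix : rlix2 M Q x = true
  KW : memc Q M.K.P x.r.W (fkd M.K x.r) M.K.B [1] x.r.KW = true
  Kt : memc Q M.K.P (axpy (-1) (fx M.K x.r.n) (fd M.K x.r)) (fkd M.K x.r) M.K.B [] x.r.Kt = true
  lm : lmem2 M Q x.r.st x.r.n x.r.W (axpy (-1) (fx M.K x.r.n) (fd M.K x.r)) [] x.r.AW x.r.At
    x.r.BW x.r.Bt = true
  J : x.r.jr = true → x.r.st ≠ 0 ∧ x.r.KW.inn ≠ x.r.Kt.inn ∧
    istwo (JM x.r.AW.inn x.r.At.inn x.r.BW.inn x.r.Bt.inn) = true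
  F : x.r.jr = false →
    zall M.K Q 0 0 (s4 M.K x.r.st) (fd M.K x.r) (fx M.K x.r.n) x.r.W
      (axpy (-1) (fx M.K x.r.n) (fd M.K x.r)) [] x.r.Z = true ∧
    ¬ Q4 (jm0 x.r.st x.r.AW.inn x.r.At.inn x.r.BW.inn x.r.Bt.inn)
      (jm1 x.r.st x.r.AW.inn x.r.At.inn x.r.BW.inn x.r.Bt.inn)
      ((match x.r.dk with | true => 1 | false => -1) * (b2 x.r.KW.inn - b2 x.r.Kt.inn))
      (zG M.K 0 0 (s4 M.K x.r.st) x.r.Z)

theorem rc2_of {Q : List Con} {x : RL2} (hr : rlc2 M Q x = true) : RC2 M Q x := by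
  unfold rlc2 at hr
  simp only [Bool.and_eq_true] at hr
  obtain ⟨⟨⟨⟨⟨h1, h2⟩, h3⟩, h4⟩, h5⟩, h8⟩ := hr
  refine ⟨h1, h2, h3, h4, h5, ?_, ?_⟩
  · intro hj
    rw [hj] at h8
    simp only [Bool.and_eq_true, bne_iff_ne, ne_eq] at h8
    obtain ⟨⟨g1, g2⟩, g3⟩ := h8
    refine ⟨?_, g2, g3⟩
    intro hs
    rw [hs] at g1
    exact absurd g1 (by simp)
  · intro hj
    rw [hj] at h8
    simp only [Bool.and_eq_true] at h8
    refine ⟨h8.1, ?_⟩
    intro hq
    have := rng_q4 hq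
    rw [Bool.eq_false_iff] at this
    exact this h8.2

/-- jump of a line which is not merged -/
theorem Val.jA (h : Val M.K p a b c J ds l q D dl Cl vi vr Nr) {Q : List Con}
    (hQ : ∀ c ∈ Q, hld (xv vi vr) c) {n W t off : List ℤ} {AW At : Mem}
    (m1 : memc Q M.K.P W (fR M.K n) M.K.A [1] AW = true)
    (m2 : memc Q M.K.P t (fR M.K n) M.K.A off At = true) {Wz : ℤ} {t' : ℝ}
    (hW : evg (xv vi vr) W = Wz) (ht : LT M.K p Q (xv vi vr) t off t') :
    hu p a (eR M.K vi n) Wz - hu p a (eR M.K vi n) t' = JU AW.inn At.inn := by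
  have k1 := h.memW hQ m1 hW (h.xR n) h.eA
  have k2 := ht _ _ _ _ _ m2 (h.xR n) h.eA
  unfold hu eR
  rw [k1, k2]
  rfl

/-- jump of a merged line -/
theorem Val.jAB (h : Val M.K p a b c J ds l q D dl Cl vi vr Nr) {Q : List Con}
    (hQ : ∀ c ∈ Q, hld (xv vi vr) c) {n W t off kB : List ℤ} {AW At BW Bt : Mem}
    (m1 : memc Q M.K.P W (fR M.K n) M.K.A [1] AW = true)
    (m2 : memc Q M.K.P t (fR M.K n) M.K.A off At = true)
    (m3 : memc Q M.K.P W kB M.K.A [1] BW = true)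
    (m4 : memc Q M.K.P t kB M.K.A off Bt = true) {s : ℤ}
    (hk : evg (xv vi vr) kB = ((evg vi (fR M.K n) + s : ℤ) : ℝ)) {Wz : ℤ} {t' : ℝ}
    (hW : evg (xv vi vr) W = Wz) (ht : LT M.K p Q (xv vi vr) t off t') :
    hh p a s (eR M.K vi n) Wz - hh p a s (eR M.K vi n) t' = JM AW.inn At.inn BW.inn Bt.inn := by
  have k1 := h.memW hQ m1 hW (h.xR n) h.eA
  have k2 := ht _ _ _ _ _ m2 (h.xR n) h.eA
  have k3 := h.memW hQ m3 hW hk h.eA
  have k4 := ht _ _ _ _ _ m4 hk h.eA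
  have e : ((evg vi (fR M.K n) + s : ℤ) : ℝ) = (evg vi (fR M.K n) : ℤ) + (s : ℝ) := by
    push_cast
    ring
  rw [e] at k3 k4
  unfold hh eR
  rw [k1, k2, k3, k4]
  show _ = (b2 AW.inn - b2 At.inn) - (b2 BW.inn - b2 Bt.inn)
  ring

/-- shift of the class -/
def sB (c ta : ℤ) (st : ℕ) : ℤ := match st with
  | 1 => -c
  | 2 => -c
  | _ => ta - c

/-- the line functions of a status -/
def lw (p a c ta : ℤ) (st : ℕ) (R : ℤ) : ℝ → ℤ := match st with
  | 0 => hu p a R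
  | 4 => hu p a R
  | _ => hh p a (sB c ta st) R

def lw' (p a c ta : ℤ) (st : ℕ) (R : ℤ) : ℝ → ℤ := match st with
  | 0 => hu p a R
  | 2 => hu p a R
  | _ => hh p a (sB c ta st) R

theorem Val.erB (h : Val M.K p a b c J ds l q D dl Cl vi vr Nr) {ta : ℤ}
    (hT : evg (xv vi vr) M.T = ta) (st : ℕ) (n : List ℤ) :
    evg (xv vi vr) (rB M st n) = ((evg vi (fR M.K n) + sB c ta st : ℤ) : ℝ) := by
  have e1 : evg (xv vi vr) (axpy (-1) M.K.C (fR M.K n)) =
      ((evg vi (fR M.K n) - c : ℤ) : ℝ) := by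
    rw [evg_axpy, h.eC, h.xR]
    push_cast
    ring
  have e2 : evg (xv vi vr) (axpy 1 M.T (axpy (-1) M.K.C (fR M.K n))) =
      ((evg vi (fR M.K n) + (ta - c) : ℤ) : ℝ) := by
    rw [evg_axpy, e1, hT]
    push_cast
    ring
  rcases st with _ | _ | _ | s
  · exact e2
  · show evg (xv vi vr) (axpy (-1) M.K.C (fR M.K n)) = ((evg vi (fR M.K n) + -c : ℤ) : ℝ)
    rw [e1]
    push_cast
    ring
  · show evg (xv vi vr) (axpy (-1) M.K.C (fR M.K n)) = ((evg vi (fR M.K n) + -c : ℤ) : ℝ)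
    rw [e1]
    push_cast
    ring
  · exact e2

theorem lmem2_A {Q : List Con} {st : ℕ} {n W t off : List ℤ} {AW At BW Bt : Mem}
    (hm : lmem2 M Q st n W t off AW At BW Bt = true) :
    memc Q M.K.P W (fR M.K n) M.K.A [1] AW = true ∧
      memc Q M.K.P t (fR M.K n) M.K.A off At = true := by
  unfold lmem2 at hm
  simp only [Bool.and_eq_true] at hm
  exact hm.1

theorem lmem2_B {Q : List Con} {st : ℕ} {n W t off : List ℤ} {AW At BW Bt : Mem}
    (hm : lmem2 M Q st n W t off AW At BW Bt = true) (hst : st ≠ 0) :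
    memc Q M.K.P W (rB M st n) M.K.A [1] BW = true ∧
      memc Q M.K.P t (rB M st n) M.K.A off Bt = true := by
  unfold lmem2 at hm
  simp only [Bool.and_eq_true] at hm
  rcases st with _ | s
  · exact absurd rfl hst
  · exact hm.2

theorem Val.k0 (h : Val M.K p a b c J ds l q D dl Cl vi vr Nr) {Q : List Con}
    (hQ : ∀ c ∈ Q, hld (xv vi vr) c) {ta : ℤ} (hT : evg (xv vi vr) M.T = ta) {st : ℕ}
    {n W t off : List ℤ} {AW At BW Bt : Mem}
    (hm : lmem2 M Q st n W t off AW At BW Bt = true) {Wz : ℤ} {t' : ℝ}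
    (hW : evg (xv vi vr) W = Wz) (ht : LT M.K p Q (xv vi vr) t off t') :
    lw p a c ta st (eR M.K vi n) Wz - lw p a c ta st (eR M.K vi n) t' =
      jm0 st AW.inn At.inn BW.inn Bt.inn := by
  obtain ⟨m1, m2⟩ := lmem2_A hm
  have kA := h.jA hQ m1 m2 hW ht
  have kB : ∀ hst : st ≠ 0, hh p a (sB c ta st) (eR M.K vi n) Wz -
      hh p a (sB c ta st) (eR M.K vi n) t' = JM AW.inn At.inn BW.inn Bt.inn := by
    intro hst
    obtain ⟨m3, m4⟩ := lmem2_B hm hst
    exact h.jAB hQ m1 m2 m3 m4 (h.erB hT st n) hW ht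
  rcases st with _ | _ | _ | _ | _ | s
  · exact kA
  · exact kB (by simp)
  · exact kB (by simp)
  · exact kB (by simp)
  · exact kA
  · exact kB (by simp)

theorem Val.k1 (h : Val M.K p a b c J ds l q D dl Cl vi vr Nr) {Q : List Con}
    (hQ : ∀ c ∈ Q, hld (xv vi vr) c) {ta : ℤ} (hT : evg (xv vi vr) M.T = ta) {st : ℕ}
    {n W t off : List ℤ} {AW At BW Bt : Mem}
    (hm : lmem2 M Q st n W t off AW At BW Bt = true) {Wz : ℤ} {t' : ℝ}
    (hW : evg (xv vi vr) W = Wz) (ht : LT M.K p Q (xv vi vr) t off t') :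
    lw' p a c ta st (eR M.K vi n) Wz - lw' p a c ta st (eR M.K vi n) t' =
      jm1 st AW.inn At.inn BW.inn Bt.inn := by
  obtain ⟨m1, m2⟩ := lmem2_A hm
  have kA := h.jA hQ m1 m2 hW ht
  have kB : ∀ hst : st ≠ 0, hh p a (sB c ta st) (eR M.K vi n) Wz -
      hh p a (sB c ta st) (eR M.K vi n) t' = JM AW.inn At.inn BW.inn Bt.inn := by
    intro hst
    obtain ⟨m3, m4⟩ := lmem2_B hm hst
    exact h.jAB hQ m1 m2 m3 m4 (h.erB hT st n) hW ht
  rcases st with _ | _ | _ | _ | _ | s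
  · exact kA
  · exact kB (by simp)
  · exact kA
  · exact kB (by simp)
  · exact kB (by simp)
  · exact kB (by simp)

/-- the range test of a rule leaf -/
theorem Val.coreF2 (h : Val M.K p a b c J ds l q D dl Cl vi vr Nr) {Q : List Con}
    (hQ : ∀ c ∈ Q, hld (xv vi vr) c) {ta : ℤ} (hT : evg (xv vi vr) M.T = ta) {x : RL2}
    (hr : RC2 M Q x) (hj : x.r.jr = false) {v' d' : ℝ}
    (hv1 : Tr dl (evg (xv vi vr) (fx M.K x.r.n)) v')
    (hd1 : Tr dl (evg (xv vi vr) (fd M.K x.r)) d')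
    (ht1 : Tz (evg (xv vi vr) (fd M.K x.r) - evg (xv vi vr) (fx M.K x.r.n)) (d' - v'))
    (hsp : spv (s4 M.K x.r.st) (zz ds (Helper10.KE.ind p (-b) dl v')))
    (hRU : RUq p a b dl (lw p a c ta x.r.st (eR M.K vi x.r.n))
      (lw' p a c ta x.r.st (eR M.K vi x.r.n)) v' d'
      (kk M.K a vi x.r.dk x.r.f) (match x.r.dk with | true => 1 | false => -1)) : False := by
  obtain ⟨g1, g2⟩ := hr.F hj
  apply g2
  have hW : evg (xv vi vr) x.r.W = ((evg vi x.r.W : ℤ) : ℝ) := h.xI hr.W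
  have htz : Tz (evg (xv vi vr) (axpy (-1) (fx M.K x.r.n) (fd M.K x.r))) (d' - v') := by
    rw [h.etv]
    exact ht1
  have hlt := h.lt_tz hQ htz
  have k1 := h.memW hQ hr.KW hW (h.ekd x.r) h.eB
  have k2 := h.memT hQ hr.Kt htz (h.ekd x.r) h.eB
  have hJ0 := h.k0 hQ hT hr.lm hW hlt
  have hJ1 := h.k1 hQ hT hr.lm hW hlt
  have hG := h.zones hQ g1 hd1 hv1 hW hlt
    ⟨fun hh => absurd hh (by simp), fun hh => absurd hh (by simp)⟩
    ⟨fun hh => absurd hh (by simp), fun hh => absurd hh (by simp)⟩ hsp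
  have hq := hRU (evg vi x.r.W)
  rw [hJ0, hJ1, k1, k2, hG] at hq
  exact hq

/-- the jump test of a rule leaf -/
theorem Val.coreJ2 (h : Val M.K p a b c J ds l q D dl Cl vi vr Nr) {Q : List Con}
    (hQ : ∀ c ∈ Q, hld (xv vi vr) c) {ta : ℤ} (hT : evg (xv vi vr) M.T = ta) {x : RL2}
    (hr : RC2 M Q x) (hj : x.r.jr = true) {t' : ℝ}
    (ht1 : Tz (evg (xv vi vr) (fd M.K x.r) - evg (xv vi vr) (fx M.K x.r.n)) t')
    (hRU : ∀ W : ℤ, Helper10.KE.ind p (kk M.K a vi x.r.dk x.r.f : ℤ) b W +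
      Helper10.KE.ind p (kk M.K a vi x.r.dk x.r.f : ℤ) b t' = 1 →
      |hh p a (sB c ta x.r.st) (eR M.K vi x.r.n) W -
        hh p a (sB c ta x.r.st) (eR M.K vi x.r.n) t'| ≤ 1) : False := by
  obtain ⟨g1, g2, g3⟩ := hr.J hj
  have hW : evg (xv vi vr) x.r.W = ((evg vi x.r.W : ℤ) : ℝ) := h.xI hr.W
  have htz : Tz (evg (xv vi vr) (axpy (-1) (fx M.K x.r.n) (fd M.K x.r))) t' := by
    rw [h.etv]
    exact ht1
  have hlt := h.lt_tz hQ htz
  have k1 := h.memW hQ hr.KW hW (h.ekd x.r) h.eB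
  have k2 := h.memT hQ hr.Kt htz (h.ekd x.r) h.eB
  obtain ⟨m1, m2⟩ := lmem2_A hr.lm
  obtain ⟨m3, m4⟩ := lmem2_B hr.lm g1
  have hJ0 := h.jAB hQ m1 m2 m3 m4 (h.erB hT x.r.st x.r.n) hW hlt
  have hq := hRU (evg vi x.r.W) (by
    rw [k1, k2]
    revert g2
    rcases x.r.KW.inn with _ | _ <;> rcases x.r.Kt.inn with _ | _
    · intro g2
      exact absurd rfl g2
    · intro _
      rfl
    · intro _
      rfl
    · intro g2
      exact absurd rfl g2)
  rw [hJ0] at hq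
  have h3 : |JM x.r.AW.inn x.r.At.inn x.r.BW.inn x.r.Bt.inn| = 2 := by
    have : ∀ z : ℤ, istwo z = true → |z| = 2 := by
      intro z hz
      rcases z with z | z
      · rcases z with _ | _ | _ | z
        · exact absurd hz (by show ¬ (false = true); simp)
        · exact absurd hz (by show ¬ (false = true); simp)
        · rfl
        · exact absurd hz (by show ¬ (false = true); simp)
      · rcases z with _ | _ | z
        · exact absurd hz (by show ¬ (false = true); simp)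
        · rfl
        · exact absurd hz (by show ¬ (false = true); simp)
    exact this _ g3
  omega

/-- the test leaf -/
theorem Val.coreS2 (h : Val M.K p a b c J ds l q D dl Cl vi vr Nr) {Q : List Con}
    (hQ : ∀ c ∈ Q, hld (xv vi vr) c) {ta : ℤ} (hT : evg (xv vi vr) M.T = ta) {r : SL}
    (hm : lmem2 M Q r.st r.n r.W (sT M.K r) (soff r) r.AW r.At r.BW r.Bt = true)
    (hZ : zall M.K Q (ss1 r) (ss2 r) (s4 M.K r.st) (sS M.K r) (fx M.K r.n) r.W (sT M.K r)
      (soff r) r.Z = true)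
    (hrg : rng [0, jm0 r.st r.AW.inn r.At.inn r.BW.inn r.Bt.inn,
      zG M.K (ss1 r) (ss2 r) (s4 M.K r.st) r.Z,
      zG M.K (ss1 r) (ss2 r) (s4 M.K r.st) r.Z + jm1 r.st r.AW.inn r.At.inn r.BW.inn r.Bt.inn] =
      true)
    (hWi : isI M.K r.W = true)
    {v' S' t' : ℝ}
    (hv1 : Tr dl (evg (xv vi vr) (fx M.K r.n)) v')
    (hS1 : Tr dl (evg (xv vi vr) (sS M.K r)) S')
    (hlt : LT M.K p Q (xv vi vr) (sT M.K r) (soff r) t')
    (h1 : spv (ss1 r) (zz ds (Helper10.KE.ind p 0 dl S')))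
    (h2 : spv (ss2 r) (zz ds (Helper10.KE.ind p a dl S')))
    (h4 : spv (s4 M.K r.st) (zz ds (Helper10.KE.ind p (-b) dl v')))
    (hSQ : SQ p a b dl (lw p a c ta r.st (eR M.K vi r.n)) (lw' p a c ta r.st (eR M.K vi r.n))
      v' S' t') :
    False := by
  have hW : evg (xv vi vr) r.W = ((evg vi r.W : ℤ) : ℝ) := h.xI hWi
  have hJ0 := h.k0 hQ hT hm hW hlt
  have hJ1 := h.k1 hQ hT hm hW hlt
  have hG := h.zones hQ hZ hS1 hv1 hW hlt h1 h2 h4
  have hq := hSQ (evg vi r.W)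
  rw [hJ0, hJ1, hG] at hq
  obtain ⟨F, f1, f2, f3, f4, f5, f6, f7, f8⟩ := hq
  have := rng_false (F := F) (L := [0, jm0 r.st r.AW.inn r.At.inn r.BW.inn r.Bt.inn,
      zG M.K (ss1 r) (ss2 r) (s4 M.K r.st) r.Z,
      zG M.K (ss1 r) (ss2 r) (s4 M.K r.st) r.Z + jm1 r.st r.AW.inn r.At.inn r.BW.inn r.Bt.inn])
    (by
    intro y hy
    simp only [List.mem_cons, List.not_mem_nil, or_false] at hy
    rcases hy with rfl | rfl | rfl | rfl
    · simpa using f1
    · exact f2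
    · exact f5
    · rw [← add_assoc]
      exact f6)
  rw [this] at hrg
  exact absurd hrg (by simp)

/-- the crossing level does not belong to the same cluster -/
theorem Val.kt2 (h : Val M.K p a b c J ds l q D dl Cl vi vr Nr) {Q : List Con}
    (hQ : ∀ c ∈ Q, hld (xv vi vr) c) {x : RL2} (hr : RC2 M Q x) {e : ℤ}
    (he : e = 0 ∨ e = b)
    (ht : ∃ m : ℤ, evg (xv vi vr) (fd M.K x.r) - evg (xv vi vr) (fx M.K x.r.n) =
      kk M.K a vi x.r.dk x.r.f + e + m * p) : False := by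
  have hp := h.p0
  have hb := h.hb
  have h2b := h.h2b
  have htt : evg (xv vi vr) (axpy (-1) (fx M.K x.r.n) (fd M.K x.r)) =
      evg (xv vi vr) (fd M.K x.r) - evg (xv vi vr) (fx M.K x.r.n) := by
    rw [evg_axpy]
    push_cast
    ring
  obtain ⟨m, hm⟩ := ht
  have h1 := h.mem hQ hr.Kt
  rw [htt, hm, h.ekd x.r, h.eB, evg_nil] at h1
  rcases h1 with ⟨-, h1, h2⟩ | ⟨-, h1, h2⟩
  · have h3 : 0 < e + (m + x.r.Kt.m) * p := by
      have : (0 : ℝ) < ((e + (m + x.r.Kt.m) * p : ℤ) : ℝ) := by push_cast; linarith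
      exact_mod_cast this
    have h4 : e + (m + x.r.Kt.m) * p < b := by
      have : ((e + (m + x.r.Kt.m) * p : ℤ) : ℝ) < b := by push_cast; linarith
      exact_mod_cast this
    rcases he with rfl | rfl
    · have h5 : 0 < m + x.r.Kt.m := by
        by_contra hcon
        push Not at hcon
        nlinarith
      nlinarith
    · have h5 : m + x.r.Kt.m < 0 := by
        by_contra hcon
        push Not at hcon
        nlinarith
      nlinarith
  · have h3 : b < e + (m + x.r.Kt.m) * p := by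
      have : (b : ℝ) < ((e + (m + x.r.Kt.m) * p : ℤ) : ℝ) := by push_cast; linarith
      exact_mod_cast this
    have h4 : e + (m + x.r.Kt.m) * p < p := by
      have : ((e + (m + x.r.Kt.m) * p : ℤ) : ℝ) < p := by push_cast; linarith
      exact_mod_cast this
    rcases he with rfl | rfl
    · have h5 : 0 < m + x.r.Kt.m := by
        by_contra hcon
        push Not at hcon
        nlinarith
      nlinarith
    · have h5 : 0 < m + x.r.Kt.m := by
        by_contra hcon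
        push Not at hcon
        nlinarith
      nlinarith

end

end Helper11.CT
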