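import Pool.Agent.Helper11.CT.Main
import Pool.Agent.Helper11.CT.Cfg
import Pool.Agent.Helper25.KW.K4

set_option autoImplicit false
set_option linter.unusedSectionVars false

/-!
# The classes of `S2`

The forms `A B C` are the variables `1 2 3`; the other forms are in the record `FC`.
-/

noncomputable section

namespace Helper11.CT

open Helper25.KW Helper55.KE

/-- what the forms mean -/
structure FV (f : FC) (x : List ℝ) (a b c p J ds : ℤ) (D zk sk Ik : ℝ) (R : ℤ) : Prop where
  o : ∃ y, x = 1 :: (a : ℝ) :: (b : ℝ) :: (c : ℝ) :: y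
  P : evg x f.P = p
  J : evg x f.J = J
  D : evg x f.D = D
  I : evg x f.I = Ik
  Z : evg x f.Z = zk
  S : evg x f.S = sk
  R : evg x f.R = R
  n : ((Int.neg ds : ℤ) : ℝ) = -(ds : ℝ)

theorem cmem_hld {x : List ℝ} {c : Con} : ∀ {F : List Con}, (∀ f ∈ F, hld x f) →
    cmem c F = true → hld x c := by
  intro F
  induction F with
  | nil => intro _ h; exact absurd h (by simp [cmem])
  | cons f F ih =>
    intro hF h
    simp only [cmem, Bool.or_eq_true, Bool.and_eq_true, beq_iff_eq] at h
    rcases h with ⟨h1, h2⟩ | h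
    · have h3 := hF f List.mem_cons_self
      unfold hld at h3 ⊢
      rw [← h1, ← leq_ev _ _ h2 x]
      exact h3
    · exact ih (fun g hg => hF g (List.mem_cons_of_mem _ hg)) h

/-- side conditions of a class -/
structure Side (a b c ds : ℤ) (D zk sk : ℝ) (R : ℤ) (cs : Bool) (cl ext : ℕ) (rs : Bool) :
    Prop where
  ca : -a < c
  ca' : c < a
  hcs : match cs with | true => 0 < c | false => c < 0
  hcl : match cl with
    | 1 => b + |c| < a
    | 2 => b < a ∧ a ≤ b + |c|
    | 3 => a ≤ b
    | 34 => 2 * a ≤ b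
    | _ => a ≤ b ∧ b < 2 * a
  hrs : match rs with | true => 0 < R | false => R < 0
  hext : match ext with
    | 1 => ds * D < 2 * zk
    | 2 => 2 * zk < ds * D
    | 3 => ds * D < 2 * sk
    | 4 => 2 * sk < ds * D
    | _ => ds * D < 2 * zk ∧ (cl = 34 → (ds = 1 → zk < a - |(c : ℝ)| + D) ∧
      (ds = -1 → zk < a - |(c : ℝ)|))

/-- facts on `u` or `v` -/
structure UV (p b : ℤ) (D : ℝ) (Cl : ℤ → ℤ → ℤ → ℤ → ℝ → Prop) (tok : Bool) (N R : ℤ) (I : ℝ) :
    Prop where
  cl : Cl N 0 (match tok with | true => b | false => 0) R I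
  N0 : 0 < N
  Np : N < p
  I0 : 0 < I
  ID : match tok with | true => I < D | false => 2 * I < D ∧ 2 * N < p
  R1 : -p < 2 * R
  R2 : 2 * R < p

theorem UV.ofU {p b : ℤ} {D : ℝ} {Cl : ℤ → ℤ → ℤ → ℤ → ℝ → Prop} {N R : ℤ} {I : ℝ}
    (h : UFac p b D Cl N R I) : UV p b D Cl true N R I :=
  ⟨h.cl, h.N0, h.Np, h.I0, h.ID, h.R1, h.R2⟩

theorem UV.ofV {p b : ℤ} {D : ℝ} {Cl : ℤ → ℤ → ℤ → ℤ → ℝ → Prop} {N R : ℤ} {I : ℝ}
    (h : VFac p D Cl N R I) : UV p b D Cl false N R I :=
  ⟨h.cl, h.N0, by have := h.N0; have := h.Np; omega, h.I0, ⟨h.ID, h.Np⟩, h.R1, h.R2⟩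

/-- extremality for the parameter `ext` -/
def KX (p a b l ds : ℤ) (D : ℝ) (Cl : ℤ → ℤ → ℤ → ℤ → ℝ → Prop) (N : ℤ) (zk sk : ℝ) :
    ℕ → Prop
  | 1 => KExt p a b l ds Cl N (fun z _ => z) zk
  | 2 => KExt p a b l ds Cl N (fun z _ => -z) (-zk)
  | 3 => KExt p a b l ds Cl N (fun _ s => s) sk
  | 4 => KExt p a b l ds Cl N (fun _ s => -s) (-sk)
  | _ => KExt10 p a b l ds D Cl N zk

section

variable {p a b c J ds l q : ℤ} {D dl : ℝ} {Cl : ℤ → ℤ → ℤ → ℤ → ℝ → Prop}

theorem FV.e2 {f : FC} {x : List ℝ} {zk sk Ik : ℝ} {R : ℤ}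
    (h : FV f x a b c p J ds D zk sk Ik R) (t u : ℤ) : evg x [t, u] = t + u * a := by
  obtain ⟨y, rfl⟩ := h.o
  simp

theorem FV.e3 {f : FC} {x : List ℝ} {zk sk Ik : ℝ} {R : ℤ}
    (h : FV f x a b c p J ds D zk sk Ik R) (t u v : ℤ) :
    evg x [t, u, v] = t + u * a + v * b := by
  obtain ⟨y, rfl⟩ := h.o
  simp
  ring

theorem FV.e4 {f : FC} {x : List ℝ} {zk sk Ik : ℝ} {R : ℤ}
    (h : FV f x a b c p J ds D zk sk Ik R) (t u v w : ℤ) :
    evg x [t, u, v, w] = t + u * a + v * b + w * c := by
  obtain ⟨y, rfl⟩ := h.o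
  simp
  ring

theorem kok_S2 (W : Base p a b c J ds l q D dl Cl) (hS : KS2 p a b l ds D Cl)
    {N X R : ℤ} {I : ℝ} (hk : KFac p a b l ds D Cl N X R I) {ext : ℕ}
    (hX : KX p a b l ds D Cl N (X + ds * I) (X + ds * I + R) ext) {f : FC} {x : List ℝ}
    (hf : FV f x a b c p J ds D (X + ds * I) (X + ds * I + R) I R) :
    ∀ kf ∈ kfS ds f ext, KOk p l Cl ds x N kf := by
  obtain ⟨b1, b2, b3, b4⟩ := hk.bx
  have d1 := hk.d1
  have d2 := hk.d2
  have hds : ds = 1 ∨ ds = -1 := by rcases W.hds with ⟨h, _⟩ | ⟨h, _⟩ <;> simp [h]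
  have hn := hf.n
  have hD2b : D < 2 * b := by rcases hds with rfl | rfl <;> push_cast at * <;> linarith
  have hD2a : D < 2 * a := by rcases hds with rfl | rfl <;> push_cast at * <;> linarith
  have eA : evg x [0, 1] = a := by rw [hf.e2]; push_cast; ring
  have eB : evg x [0, 0, 1] = b := by rw [hf.e3]; push_cast; ring
  have eD := hf.D
  have eZ := hf.Z
  have eS := hf.S
  intro kf hkf
  simp only [kfS, List.mem_cons] at hkf
  rcases hkf with rfl | rfl | hkf
  · intro N' τ' X' R' I' hC ht h1 h2 h3 h4 _ hg
    simp only [List.forall_mem_cons, List.not_mem_nil, false_imp_iff, implies_true, and_true,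
      evg_axpy, eA, eB, eD, hn] at hg
    push_cast at hg
    obtain ⟨g1, g2, g3, g4⟩ := hg
    have key := hS hC ht h1 h2 h3 h4
    rcases hds with rfl | rfl
    · push_cast at *
      have := (key (by linarith) (by linarith) (by linarith) (by linarith)).1
      linarith
    · push_cast at *
      have := (key (by linarith) (by linarith) (by linarith) (by linarith)).1
      linarith
  · intro N' τ' X' R' I' hC ht h1 h2 h3 h4 _ hg
    simp only [List.forall_mem_cons, List.not_mem_nil, false_imp_iff, implies_true, and_true,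
      evg_axpy, eA, eB, eD, hn] at hg
    push_cast at hg
    obtain ⟨g1, g2, g3, g4⟩ := hg
    have key := hS hC ht h1 h2 h3 h4
    rcases hds with rfl | rfl
    · push_cast at *
      have := (key (by linarith) (by linarith) (by linarith) (by linarith)).2
      linarith
    · push_cast at *
      have := (key (by linarith) (by linarith) (by linarith) (by linarith)).2
      linarith
  · unfold kfE at hkf
    split at hkf
    · simp only [List.mem_cons, List.not_mem_nil, or_false] at hkf
      subst hkf
      intro N' τ' X' R' I' hC ht h1 h2 h3 h4 h5 hg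
      simp only [List.forall_mem_cons, List.not_mem_nil, false_imp_iff, implies_true, and_true,
        evg_axpy, eA, eB, eZ, evg_nil] at hg
      push_cast at hg
      obtain ⟨g1, g2, g3, g4⟩ := hg
      have key : (X' : ℝ) + ds * I' ≤ X + ds * I := hX hC ht h1 h2 h3 h4
        (h5.imp_right (fun hh => hh.1 le_rfl)) (by linarith) (by linarith) (by linarith)
        (by linarith)
      linarith
    · simp only [List.mem_cons, List.not_mem_nil, or_false] at hkf
      subst hkf
      intro N' τ' X' R' I' hC ht h1 h2 h3 h4 h5 hg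
      simp only [List.forall_mem_cons, List.not_mem_nil, false_imp_iff, implies_true, and_true,
        eA, eB, eZ] at hg
      push_cast at hg
      obtain ⟨g1, g2, g3, g4⟩ := hg
      have key : -((X' : ℝ) + ds * I') ≤ -(X + ds * I) := hX hC ht h1 h2 h3 h4
        (h5.imp_right (fun hh => hh.1 le_rfl)) (by linarith) (by linarith) (by linarith)
        (by linarith)
      linarith
    · simp only [List.mem_cons, List.not_mem_nil, or_false] at hkf
      subst hkf
      intro N' τ' X' R' I' hC ht h1 h2 h3 h4 h5 hg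
      simp only [List.forall_mem_cons, List.not_mem_nil, false_imp_iff, implies_true, and_true,
        evg_axpy, eA, eB, eS, evg_nil] at hg
      push_cast at hg
      obtain ⟨g1, g2, g3, g4⟩ := hg
      have key : (X' : ℝ) + ds * I' + R' ≤ X + ds * I + R := hX hC ht h1 h2 h3 h4
        (h5.imp_right (fun hh => hh.1 le_rfl)) (by linarith) (by linarith) (by linarith)
        (by linarith)
      linarith
    · simp only [List.mem_cons, List.not_mem_nil, or_false] at hkf
      subst hkf
      intro N' τ' X' R' I' hC ht h1 h2 h3 h4 h5 hg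
      simp only [List.forall_mem_cons, List.not_mem_nil, false_imp_iff, implies_true, and_true,
        eA, eB, eS] at hg
      push_cast at hg
      obtain ⟨g1, g2, g3, g4⟩ := hg
      have key : -((X' : ℝ) + ds * I' + R') ≤ -(X + ds * I + R) := hX hC ht h1 h2 h3 h4
        (h5.imp_right (fun hh => hh.1 le_rfl)) (by linarith) (by linarith) (by linarith)
        (by linarith)
      linarith
    · simp only [List.mem_cons, List.not_mem_nil, or_false] at hkf
      subst hkf
      intro N' τ' X' R' I' hC ht h1 h2 h3 h4 h5 hg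
      simp only [List.forall_mem_cons, List.not_mem_nil, false_imp_iff, implies_true, and_true,
        evg_axpy, eA, eB, eD, eZ, hn] at hg
      push_cast at hg
      obtain ⟨g1, g2, g3, g4, g5, g6⟩ := hg
      exact hX hC ht h1 h2 h3 h4
        (h5.imp_right (fun hh => ⟨hh.1 (by norm_num), hh.2 le_rfl⟩))
        ⟨by linarith, by linarith, by linarith, by linarith⟩ (by linarith) (by linarith)
    · exact absurd hkf (by simp)

/-- the facts hold -/
theorem fax_hld (W : Base p a b c J ds l q D dl Cl) {N X R : ℤ} {I : ℝ}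
    (hk : KFac p a b l ds D Cl N X R I) {f : FC} {x : List ℝ}
    (hf : FV f x a b c p J ds D (X + ds * I) (X + ds * I + R) I R) {cs : Bool} {cl ext : ℕ}
    {rs : Bool} (hs : Side a b c ds D (X + ds * I) (X + ds * I + R) R cs cl ext rs)
    {T : List Con} (hT : ∀ g ∈ T, hld x g) :
    ∀ g ∈ fax f cs cl ds ext rs T, hld x g := by
  obtain ⟨b1, b2, b3, b4⟩ := hk.bx
  have d1 := hk.d1
  have d2 := hk.d2
  have hn := hf.n
  have eD := hf.D
  have eZ := hf.Z
  have eS := hf.S
  have eP := hf.P
  have eJ := hf.J
  have eI := hf.I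
  have eR := hf.R
  -- an integer constraint
  have ki : ∀ (e : List ℤ) (m : ℤ), evg x e = m → 1 ≤ m → hld x (true, e) := by
    intro e m h1 h2
    show (1 : ℝ) ≤ evg _ e
    rw [h1]
    exact_mod_cast h2
  have kr : ∀ (e : List ℤ), 0 < evg x e → hld x (false, e) := fun e h => h
  have w1 := W.ha
  have w2 := W.hb
  have w3 := W.h2a
  have w4 := W.h2b
  have w5 := W.hJ
  have w6 := W.hJD
  have w7 := W.hD
  have s1 := hs.ca
  have s2 := hs.ca'
  have k5 := hk.I0
  have k6 := hk.ID
  intro g hg
  unfold fax at hg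
  simp only [List.mem_append] at hg
  rcases hg with (((hg | hg) | hg) | hg) | hg
  · simp only [List.mem_cons] at hg
    rcases hg with rfl | rfl | rfl | rfl | rfl | rfl | rfl | rfl | rfl | rfl | rfl | rfl | rfl |
      rfl | rfl | hg
    · exact ki _ (a - 1) (by rw [hf.e2]; push_cast; ring) (by omega)
    · exact ki _ (b - 1) (by rw [hf.e3]; push_cast; ring) (by omega)
    · exact ki _ (p - 2 * a) (by rw [evg_axpy, hf.e2, eP]; push_cast; ring) (by omega)
    · exact ki _ (p - 2 * b) (by rw [evg_axpy, hf.e3, eP]; push_cast; ring) (by omega)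
    · exact ki _ J eJ (by omega)
    · exact kr _ (by rw [evg_axpy, eJ, eD]; push_cast; linarith)
    · exact kr _ (by rw [evg_axpy, eP, eD]; push_cast; linarith)
    · exact kr _ (by rw [eI]; exact k5)
    · exact kr _ (by rw [evg_axpy, eI, eD]; push_cast; linarith)
    · exact kr _ (by rw [evg_axpy, eZ, hf.e3]; push_cast; linarith)
    · exact kr _ (by rw [evg_axpy, eZ, hf.e3]; push_cast; linarith)
    · exact kr _ (by rw [evg_axpy, eS, hf.e2]; push_cast; linarith)
    · exact kr _ (by rw [evg_axpy, eS, hf.e2]; push_cast; linarith)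
    · exact kr _ (by rw [evg_axpy, evg_axpy, eZ, hf.e3, eD]; push_cast; linarith)
    · exact kr _ (by rw [evg_axpy, evg_axpy, eS, hf.e2, eD]; push_cast; linarith)
    · exact hT g hg
  · have h1 := hs.hrs
    cases rs
    · simp only [List.mem_cons, List.not_mem_nil, or_false] at hg
      subst hg
      exact ki _ (-R) (by rw [evg_axpy, eR, evg_nil]; push_cast; ring) (by simp only at h1; omega)
    · simp only [List.mem_cons, List.not_mem_nil, or_false] at hg
      subst hg
      exact ki _ R eR (by simp only at h1; omega)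
  · have h1 := hs.hcs
    cases cs
    · simp only [List.mem_cons, List.not_mem_nil, or_false] at hg
      simp only at h1
      rcases hg with rfl | rfl | rfl
      · exact ki _ (-c) (by rw [hf.e4]; push_cast; ring) (by omega)
      · exact ki _ (a + c + 1) (by rw [hf.e4]; push_cast; ring) (by omega)
      · exact ki _ (a + c) (by rw [hf.e4]; push_cast; ring) (by omega)
    · simp only [List.mem_cons, List.not_mem_nil, or_false] at hg
      simp only at h1
      rcases hg with rfl | rfl
      · exact ki _ c (by rw [hf.e4]; push_cast; ring) (by omega)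
      · exact ki _ (a - c) (by rw [hf.e4]; push_cast; ring) (by omega)
  · have h1 := hs.hcl
    have h2 := hs.hcs
    split at hg
    · cases cs
      · simp only [List.mem_cons, List.not_mem_nil, or_false] at hg
        subst hg
        simp only at h1 h2
        rw [abs_of_neg h2] at h1
        exact ki _ (a - b + c) (by rw [hf.e4]; push_cast; ring) (by omega)
      · simp only [List.mem_cons, List.not_mem_nil, or_false] at hg
        subst hg
        simp only at h1 h2
        rw [abs_of_pos h2] at h1
        exact ki _ (a - b - c) (by rw [hf.e4]; push_cast; ring) (by omega)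
    · simp only [List.mem_cons] at hg
      simp only at h1
      rcases hg with rfl | hg
      · exact ki _ (a - b) (by rw [hf.e3]; push_cast; ring) (by omega)
      · cases cs
        · simp only [List.mem_cons, List.not_mem_nil, or_false] at hg
          subst hg
          simp only at h2
          rw [abs_of_neg h2] at h1
          exact ki _ (-a + b - c + 1) (by rw [hf.e4]; push_cast; ring) (by omega)
        · simp only [List.mem_cons, List.not_mem_nil, or_false] at hg
          subst hg
          simp only at h2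
          rw [abs_of_pos h2] at h1
          exact ki _ (-a + b + c + 1) (by rw [hf.e4]; push_cast; ring) (by omega)
    · simp only [List.mem_cons, List.not_mem_nil, or_false] at hg
      subst hg
      simp only at h1
      exact ki _ (-a + b + 1) (by rw [hf.e3]; push_cast; ring) (by omega)
    · simp only [List.mem_cons, List.not_mem_nil, or_false] at hg
      subst hg
      simp only at h1
      exact ki _ (-2 * a + b + 1) (by rw [hf.e3]; push_cast; ring) (by omega)
    · rename_i g1 g2 g3 g4
      have h3 : a ≤ b ∧ b < 2 * a := by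
        split at h1
        · exact absurd rfl g1
        · exact absurd rfl g2
        · exact absurd rfl g3
        · exact absurd rfl g4
        · exact h1
      simp only [List.mem_cons, List.not_mem_nil, or_false] at hg
      rcases hg with rfl | rfl
      · exact ki _ (-a + b + 1) (by rw [hf.e3]; push_cast; ring) (by omega)
      · exact ki _ (2 * a - b) (by rw [hf.e3]; push_cast; ring) (by omega)
  · have h1 := hs.hext
    split at hg
    · simp only [List.mem_cons, List.not_mem_nil, or_false] at hg
      subst hg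
      simp only at h1
      exact kr _ (by rw [evg_axpy, evg_axpy, eZ, eD, evg_nil, hn]; push_cast; linarith)
    · simp only [List.mem_cons, List.not_mem_nil, or_false] at hg
      subst hg
      simp only at h1
      exact kr _ (by rw [evg_axpy, evg_axpy, eZ, eD, evg_nil]; push_cast; linarith)
    · simp only [List.mem_cons, List.not_mem_nil, or_false] at hg
      subst hg
      simp only at h1
      exact kr _ (by rw [evg_axpy, evg_axpy, eS, eD, evg_nil, hn]; push_cast; linarith)
    · simp only [List.mem_cons, List.not_mem_nil, or_false] at hg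
      subst hg
      simp only at h1
      exact kr _ (by rw [evg_axpy, evg_axpy, eS, eD, evg_nil]; push_cast; linarith)
    · rename_i g1 g2 g3 g4
      have h3 : ds * D < 2 * (X + ds * I) ∧ (cl = 34 → (ds = 1 → X + ds * I < a - |(c : ℝ)| + D) ∧
          (ds = -1 → X + ds * I < a - |(c : ℝ)|)) := by
        split at h1
        · exact absurd rfl g1
        · exact absurd rfl g2
        · exact absurd rfl g3
        · exact absurd rfl g4
        · exact h1
      simp only [List.mem_cons] at hg
      rcases hg with rfl | hg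
      · exact kr _ (by rw [evg_axpy, evg_axpy, eZ, eD, evg_nil, hn]; push_cast; linarith [h3.1])
      · split at hg
        · simp only [List.mem_cons, List.not_mem_nil, or_false] at hg
          subst hg
          have h4 := h3.2 rfl
          have h5 := hs.hcs
          rcases W.hds with ⟨h6, -⟩ | ⟨h6, -⟩
          · have h7 := h4.1 h6
            subst h6
            cases cs
            · simp only at h5
              have h8 : (c : ℝ) < 0 := by exact_mod_cast h5
              rw [abs_of_neg h8] at h7
              refine kr _ ?_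
              show 0 < evg x (axpy (-1) f.Z (axpy 1 f.D [0, 1, 0, 1]))
              rw [evg_axpy, evg_axpy, eZ, eD, hf.e4]
              push_cast at h7 ⊢
              linarith
            · simp only at h5
              have h8 : (0 : ℝ) < c := by exact_mod_cast h5
              rw [abs_of_pos h8] at h7
              refine kr _ ?_
              show 0 < evg x (axpy (-1) f.Z (axpy 1 f.D [0, 1, 0, -1]))
              rw [evg_axpy, evg_axpy, eZ, eD, hf.e4]
              push_cast at h7 ⊢
              linarith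
          · have h7 := h4.2 h6
            subst h6
            cases cs
            · simp only at h5
              have h8 : (c : ℝ) < 0 := by exact_mod_cast h5
              rw [abs_of_neg h8] at h7
              refine kr _ ?_
              show 0 < evg x (axpy (-1) f.Z (axpy 1 [] [0, 1, 0, 1]))
              rw [evg_axpy, evg_axpy, eZ, evg_nil, hf.e4]
              push_cast at h7 ⊢
              linarith
            · simp only at h5
              have h8 : (0 : ℝ) < c := by exact_mod_cast h5
              rw [abs_of_pos h8] at h7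
              refine kr _ ?_
              show 0 < evg x (axpy (-1) f.Z (axpy 1 [] [0, 1, 0, -1]))
              rw [evg_axpy, evg_axpy, eZ, evg_nil, hf.e4]
              push_cast at h7 ⊢
              linarith
        · exact absurd hg (by simp)

/-- one tree of `S2` -/
theorem S2_tree (W : World p a b c J ds l q D dl Cl) (hS : KS2 p a b l ds D Cl)
    {N X R : ℤ} {I : ℝ} (hk : KFac p a b l ds D Cl N X R I) {ext : ℕ}
    (hX : KX p a b l ds D Cl N (X + ds * I) (X + ds * I + R) ext) {cs : Bool} {cl : ℕ}
    {rs : Bool} (hs : Side a b c ds D (X + ds * I) (X + ds * I + R) R cs cl ext rs)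
    {K : Cls} {vi : List ℤ} {vr : List ℝ} {Nr : List ℤ}
    (hv : Val K p a b c J ds l q D dl Cl vi vr (N :: Nr)) {f : FC}
    (hf : FV f (xv vi vr) a b c p J ds D (X + ds * I) (X + ds * I + R) I R)
    (hK : K.kf = kfS ds f ext) (hg : gl K = true) {T : List Con}
    (hT : ∀ g ∈ T, hld (xv vi vr) g)
    {t : Tre} {B : List Con} (hc : chkB K (fax f cs cl ds ext rs T) t B = true) :
    False := by
  unfold chkB at hc
  rw [Bool.and_eq_true, List.all_eq_true] at hc
  refine hv.sound W hg (Nk := N) (fun _ _ _ => ⟨_, rfl⟩) ?_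
    (fun c hc' => cmem_hld (fax_hld W.toBase hk hf hs hT) (hc.1 c hc')) hc.2
  rw [hK]
  exact kok_S2 W.toBase hS hk hX hf

/-! ### `u` and `v` -/

theorem fv_U (X R Ru : ℤ) (I Iu : ℝ) :
    FV (fcU ds) (xv [1, a, b, c, p, J, X, R, Ru] [D, I, Iu]) a b c p J ds D (X + ds * I)
      (X + ds * I + R) I R := by
  refine ⟨⟨[(p : ℝ), J, X, R, Ru, D, I, Iu], by simp [xv]⟩, ?_, ?_, ?_, ?_, ?_, ?_, ?_, ?_⟩
  · simp [xv, fcU]
  · simp [xv, fcU]
  · simp [xv, fcU]
  · simp [xv, fcU]
  · simp [xv, fcU]
  · simp [xv, fcU]; ring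
  · simp [xv, fcU]
  · show ((-ds : ℤ) : ℝ) = _
    push_cast
    ring

theorem tU_hld {tok : Bool} {Nu Ru : ℤ} {Iu : ℝ} (hu : UV p b D Cl tok Nu Ru Iu)
    (X R : ℤ) (I : ℝ) :
    ∀ g ∈ tU tok, hld (xv [1, a, b, c, p, J, X, R, Ru] [D, I, Iu]) g := by
  have ki : ∀ (e : List ℤ) (m : ℤ), evg (xv [1, a, b, c, p, J, X, R, Ru] [D, I, Iu]) e = m →
      1 ≤ m → hld (xv [1, a, b, c, p, J, X, R, Ru] [D, I, Iu]) (true, e) := by
    intro e m h1 h2
    show (1 : ℝ) ≤ evg _ e
    rw [h1]
    exact_mod_cast h2
  have kr : ∀ (e : List ℤ), 0 < evg (xv [1, a, b, c, p, J, X, R, Ru] [D, I, Iu]) e →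
      hld (xv [1, a, b, c, p, J, X, R, Ru] [D, I, Iu]) (false, e) := fun e h => h
  have u3 := hu.R1
  have u4 := hu.R2
  have u5 := hu.I0
  intro g hg
  simp only [tU, List.mem_cons] at hg
  rcases hg with rfl | rfl | rfl | hg
  · exact kr _ (by simp [xv]; linarith)
  · exact ki _ (p + 2 * Ru) (by simp [xv]) (by omega)
  · exact ki _ (p - 2 * Ru) (by simp [xv]; ring) (by omega)
  · cases tok
    · simp only [List.mem_cons, List.not_mem_nil, or_false] at hg
      subst hg
      have := hu.ID.1
      exact kr _ (by simp [xv]; linarith)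
    · simp only [List.mem_cons, List.not_mem_nil, or_false] at hg
      subst hg
      have : Iu < D := hu.ID
      exact kr _ (by simp [xv]; linarith)

theorem nd_pos {p n : ℤ} (h1 : 0 < n) (h2 : n < p) : ¬ p ∣ n := by
  intro h
  have := Int.le_of_dvd h1 h
  omega

theorem nd_abs {p n : ℤ} (h0 : n ≠ 0) (h1 : -p < n) (h2 : n < p) : ¬ p ∣ n := by
  intro h
  rcases lt_or_gt_of_ne h0 with h3 | h3
  · have := Int.le_of_dvd (by omega) ((dvd_neg (a := p)).2 h)
    omega
  · have := Int.le_of_dvd h3 h
    omega

theorem val_S2 (W : Base p a b c J ds l q D dl Cl) {N X R : ℤ} {I : ℝ}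
    (hk : KFac p a b l ds D Cl N X R I) {tok : Bool} {Nu Ru : ℤ} {Iu : ℝ}
    (hu : UV p b D Cl tok Nu Ru Iu) (ext : ℕ) :
    Val (cU ds tok ext) p a b c J ds l q D dl Cl [1, a, b, c, p, J, X, R, Ru] [D, I, Iu]
      [N, Nu] := by
  have hn : Int.neg ds = -ds := rfl
  have hl := W.hl
  have hlp := W.hlp
  have k1 := hk.N0
  have k2 := hk.Np
  have k3 := hk.Nl
  have k4 := hk.Npl
  have u1 := hu.N0
  have u2 := hu.Np
  refine Val.mk W ⟨_, rfl⟩ rfl rfl ?_ rfl ?_ rfl ?_ rfl ?_ rfl ?_ rfl ?_ ?_ ?_
  · simp [cU]
  · simp [cU]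
  · simp [cU]
  · simp [cU]
  · simp [cU]
  · simp [cU]
  · have g1 := W.cp
    have g2 := W.cl
    have g3 := hk.cl
    have g4 := hu.cl
    have e1 : -b - ds * J = -b + -(ds * J) := by ring
    rw [e1] at g2
    cases tok
    · simp only [cU, GOk, List.length_cons, List.length_nil, List.replicate_succ,
        List.replicate_zero, evg_cons, evg_nil, List.map_cons, List.map_nil,
        List.cons_append, List.nil_append, hn]
      refine ⟨⟨?_, ?_, ?_⟩, ⟨?_, ?_, ?_⟩, ⟨?_, ?_, ?_⟩, ⟨?_, ?_, ?_⟩, trivial⟩ <;>
        simp only [Int.cast_zero, Int.cast_one, zero_mul, one_mul, mul_one, zero_add, add_zero,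
          Int.cast_neg, neg_mul, Int.cast_add, Int.cast_mul, Int.cast_id, add_comm c b] <;>
        first | exact g1 | (rw [add_comm c b] at g2; exact g2) | exact g3 | exact g4
    · simp only [cU, GOk, List.length_cons, List.length_nil, List.replicate_succ,
        List.replicate_zero, evg_cons, evg_nil, List.map_cons, List.map_nil,
        List.cons_append, List.nil_append, hn]
      refine ⟨⟨?_, ?_, ?_⟩, ⟨?_, ?_, ?_⟩, ⟨?_, ?_, ?_⟩, ⟨?_, ?_, ?_⟩, trivial⟩ <;>
        simp only [Int.cast_zero, Int.cast_one, zero_mul, one_mul, mul_one, zero_add, add_zero,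
          Int.cast_neg, neg_mul, Int.cast_add, Int.cast_mul, Int.cast_id, add_comm c b] <;>
        first | exact g1 | (rw [add_comm c b] at g2; exact g2) | exact g3 | exact g4
  · intro w hw
    simp only [cU, List.mem_cons] at hw
    rcases hw with rfl | rfl | rfl | rfl | rfl | hw
    · simp only [evg_cons, evg_nil, Int.cast_one, one_mul, add_zero]
      exact nd_pos (by omega) hlp
    · simp only [evg_cons, evg_nil]
      simp only [Int.cast_zero, Int.cast_one, one_mul, zero_mul, zero_add, add_zero]
      exact nd_pos k1 k2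
    · simp only [evg_cons, evg_nil]
      simp only [Int.cast_one, one_mul, add_zero]
      intro h
      have h2 : p ∣ l + N - p := dvd_sub h (dvd_refl p)
      exact nd_abs (by omega) (by omega) (by omega) h2
    · simp only [evg_cons, evg_nil]
      simp only [Int.cast_neg, Int.cast_one, neg_mul, one_mul, add_zero]
      exact nd_abs (by omega) (by omega) (by omega)
    · simp only [evg_cons, evg_nil]
      simp only [Int.cast_zero, Int.cast_one, one_mul, zero_mul, zero_add, add_zero]
      exact nd_pos u1 u2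
    · cases tok
      · simp only [List.mem_cons, List.not_mem_nil, or_false] at hw
        subst hw
        have u3 := hu.ID.2
        simp only [evg_cons, evg_nil]
        simp only [Int.cast_zero, zero_mul, zero_add, add_zero]
        exact nd_pos (by push_cast; omega) (by push_cast; omega)
      · exact absurd hw (by simp)

/-- one tree with `u` or `v` -/
theorem S2_treeU (W : World p a b c J ds l q D dl Cl) (hS : KS2 p a b l ds D Cl)
    {N X R : ℤ} {I : ℝ} (hk : KFac p a b l ds D Cl N X R I) {ext : ℕ}
    (hX : KX p a b l ds D Cl N (X + ds * I) (X + ds * I + R) ext)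
    {tok : Bool} {Nu Ru : ℤ} {Iu : ℝ} (hu : UV p b D Cl tok Nu Ru Iu) {cs : Bool} {cl : ℕ}
    {rs : Bool} (hs : Side a b c ds D (X + ds * I) (X + ds * I + R) R cs cl ext rs)
    {t : Tre} {B : List Con}
    (hc : chkB (cU ds tok ext) (fax (fcU ds) cs cl ds ext rs (tU tok)) t B = true) :
    False :=
  S2_tree W hS hk hX hs (val_S2 W.toBase hk hu ext) (fv_U X R Ru I Iu) rfl
    (by rcases W.hds with ⟨h, -⟩ | ⟨h, -⟩ <;> subst h <;> rfl) (tU_hld hu X R I) hc

/-! ### `v2` -/

theorem fv_W (X R Ru : ℤ) (I Iu : ℝ) (h1 : 2 * Iu = D) (h2 : 2 * Ru = p) :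
    FV (fcW ds) (xv [1, a, b, c, J, X, R, Ru] [I, Iu]) a b c p J ds D (X + ds * I)
      (X + ds * I + R) I R := by
  subst h1
  subst h2
  refine ⟨⟨[(J : ℝ), X, R, Ru, I, Iu], by simp [xv]⟩, ?_, ?_, ?_, ?_, ?_, ?_, ?_, ?_⟩
  · simp [xv, fcW]
  · simp [xv, fcW]
  · simp [xv, fcW]
  · simp [xv, fcW]
  · simp [xv, fcW]
  · simp [xv, fcW]; ring
  · simp [xv, fcW]
  · show ((-ds : ℤ) : ℝ) = _
    push_cast
    ring

theorem tW_hld {Nu Ru : ℤ} {Iu : ℝ} (hu : WFac p D Cl Nu Ru Iu)
    (X R : ℤ) (I : ℝ) :
    ∀ g ∈ tW, hld (xv [1, a, b, c, J, X, R, Ru] [I, Iu]) g := by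
  have u5 := hu.I0
  intro g hg
  simp only [tW, List.mem_cons, List.not_mem_nil, or_false] at hg
  subst hg
  show 0 < evg _ _
  simp [xv]
  linarith

theorem val_W (W : Base p a b c J ds l q D dl Cl) {N X R : ℤ} {I : ℝ}
    (hk : KFac p a b l ds D Cl N X R I) {Nu Ru : ℤ} {Iu : ℝ}
    (hu : WFac p D Cl Nu Ru Iu) (ext : ℕ) :
    Val (cW ds ext) p a b c J ds l q D dl Cl [1, a, b, c, J, X, R, Ru] [I, Iu]
      [N, Nu] := by
  have hn : Int.neg ds = -ds := rfl
  have hl := W.hl
  have hlp := W.hlp
  have k1 := hk.N0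
  have k2 := hk.Np
  have k3 := hk.Nl
  have k4 := hk.Npl
  have u1 := hu.N0
  have u2 := hu.Np
  have u3 := hu.ID
  have u4 := hu.R2
  refine Val.mk W ⟨_, rfl⟩ rfl rfl ?_ rfl ?_ rfl ?_ rfl ?_ rfl ?_ rfl ?_ ?_ ?_
  · simp [cW]; omega
  · simp [cW]
  · simp [cW]
  · simp [cW]
  · simp [cW]
  · simp [cW]; linarith
  · have g1 := W.cp
    have g2 := W.cl
    have g3 := hk.cl
    have g4 := hu.cl
    have e1 : -b - ds * J = -b + -(ds * J) := by ring
    rw [e1] at g2
    simp only [cW, GOk, List.length_cons, List.length_nil, List.replicate_succ,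
      List.replicate_zero, evg_cons, evg_nil, List.map_cons, List.map_nil,
      List.cons_append, List.nil_append, hn]
    have e2 : ((2 : ℤ) : ℝ) * Iu = D := by push_cast; linarith
    refine ⟨⟨?_, ?_, ?_⟩, ⟨?_, ?_, ?_⟩, ⟨?_, ?_, ?_⟩, ⟨?_, ?_, ?_⟩, trivial⟩ <;>
      simp only [Int.cast_zero, Int.cast_one, zero_mul, one_mul, mul_one, zero_add, add_zero,
        Int.cast_neg, neg_mul, Int.cast_add, Int.cast_mul, Int.cast_id, add_comm c b, e2] <;>
      first | exact g1 | (rw [add_comm c b] at g2; exact g2) | exact g3 | exact g4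
  · intro w hw
    simp only [cW, List.mem_cons, List.not_mem_nil, or_false] at hw
    rcases hw with rfl | rfl | rfl | rfl | rfl
    · simp only [evg_cons, evg_nil, Int.cast_one, one_mul, add_zero]
      exact nd_pos (by omega) hlp
    · simp only [evg_cons, evg_nil]
      simp only [Int.cast_zero, Int.cast_one, one_mul, zero_mul, zero_add, add_zero]
      exact nd_pos k1 k2
    · simp only [evg_cons, evg_nil]
      simp only [Int.cast_one, one_mul, add_zero]
      intro h
      have h2 : p ∣ l + N - p := dvd_sub h (dvd_refl p)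
      exact nd_abs (by omega) (by omega) (by omega) h2
    · simp only [evg_cons, evg_nil]
      simp only [Int.cast_neg, Int.cast_one, neg_mul, one_mul, add_zero]
      exact nd_abs (by omega) (by omega) (by omega)
    · simp only [evg_cons, evg_nil]
      simp only [Int.cast_zero, Int.cast_one, one_mul, zero_mul, zero_add, add_zero]
      exact nd_pos u1 (by omega)

/-- one tree with `v2` -/
theorem S2_treeW (W : World p a b c J ds l q D dl Cl) (hS : KS2 p a b l ds D Cl)
    {N X R : ℤ} {I : ℝ} (hk : KFac p a b l ds D Cl N X R I) {ext : ℕ}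
    (hX : KX p a b l ds D Cl N (X + ds * I) (X + ds * I + R) ext)
    {Nu Ru : ℤ} {Iu : ℝ} (hu : WFac p D Cl Nu Ru Iu) {cs : Bool} {cl : ℕ}
    {rs : Bool} (hs : Side a b c ds D (X + ds * I) (X + ds * I + R) R cs cl ext rs)
    {t : Tre} {B : List Con}
    (hc : chkB (cW ds ext) (fax (fcW ds) cs cl ds ext rs tW) t B = true) :
    False :=
  S2_tree W hS hk hX hs (val_W W.toBase hk hu ext) (fv_W X R Ru I Iu hu.ID hu.R2) rfl
    (by rcases W.hds with ⟨h, -⟩ | ⟨h, -⟩ <;> subst h <;> rfl) (tW_hld hu X R I) hc

end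

end Helper11.CT
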