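import Pool.Agent.Helper11.CT.S2Top
import Pool.Agent.Helper11.CT.T.T1_1_1_1_u
import Pool.Agent.Helper11.CT.T.T1_1_1_1_v
import Pool.Agent.Helper11.CT.T.T1_1_1_1_v2
import Pool.Agent.Helper11.CT.T.T1_1_1_m1_u
import Pool.Agent.Helper11.CT.T.T1_1_1_m1_v
import Pool.Agent.Helper11.CT.T.T1_1_1_m1_v2
import Pool.Agent.Helper11.CT.T.T1_1_m1_1_u
import Pool.Agent.Helper11.CT.T.T1_1_m1_1_v
import Pool.Agent.Helper11.CT.T.T1_1_m1_1_v2
import Pool.Agent.Helper11.CT.T.T1_1_m1_m1_u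
import Pool.Agent.Helper11.CT.T.T1_1_m1_m1_v
import Pool.Agent.Helper11.CT.T.T1_1_m1_m1_v2
import Pool.Agent.Helper11.CT.T.T1_2_1_1_u
import Pool.Agent.Helper11.CT.T.T1_2_1_1_v
import Pool.Agent.Helper11.CT.T.T1_2_1_1_v2
import Pool.Agent.Helper11.CT.T.T1_2_1_m1_u
import Pool.Agent.Helper11.CT.T.T1_2_1_m1_v
import Pool.Agent.Helper11.CT.T.T1_2_1_m1_v2
import Pool.Agent.Helper11.CT.T.T1_2_m1_1_u
import Pool.Agent.Helper11.CT.T.T1_2_m1_1_v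
import Pool.Agent.Helper11.CT.T.T1_2_m1_1_v2
import Pool.Agent.Helper11.CT.T.T1_2_m1_m1_u
import Pool.Agent.Helper11.CT.T.T1_2_m1_m1_v
import Pool.Agent.Helper11.CT.T.T1_2_m1_m1_v2
import Pool.Agent.Helper11.CT.T.T1_34_1_1_u
import Pool.Agent.Helper11.CT.T.T1_34_1_1_v
import Pool.Agent.Helper11.CT.T.T1_34_1_m1_u
import Pool.Agent.Helper11.CT.T.T1_34_1_m1_v
import Pool.Agent.Helper11.CT.T.T1_34_m1_1_u
import Pool.Agent.Helper11.CT.T.T1_34_m1_m1_u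
import Pool.Agent.Helper11.CT.T.T1_35_1_1_u
import Pool.Agent.Helper11.CT.T.T1_35_1_1_v
import Pool.Agent.Helper11.CT.T.T1_35_1_m1_u
import Pool.Agent.Helper11.CT.T.T1_35_1_m1_v
import Pool.Agent.Helper11.CT.T.T1_35_m1_1_u
import Pool.Agent.Helper11.CT.T.T1_35_m1_m1_u
import Pool.Agent.Helper11.CT.T.T1_3_1_1_v2
import Pool.Agent.Helper11.CT.T.T1_3_1_m1_v2
import Pool.Agent.Helper11.CT.T.T1_3_m1_1_v
import Pool.Agent.Helper11.CT.T.T1_3_m1_1_v2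
import Pool.Agent.Helper11.CT.T.T1_3_m1_m1_v
import Pool.Agent.Helper11.CT.T.T1_3_m1_m1_v2
import Pool.Agent.Helper11.CT.T.Tm1_1_1_1_u
import Pool.Agent.Helper11.CT.T.Tm1_1_1_1_v
import Pool.Agent.Helper11.CT.T.Tm1_1_1_1_v2
import Pool.Agent.Helper11.CT.T.Tm1_1_1_m1_u
import Pool.Agent.Helper11.CT.T.Tm1_1_1_m1_v
import Pool.Agent.Helper11.CT.T.Tm1_1_1_m1_v2
import Pool.Agent.Helper11.CT.T.Tm1_1_m1_1_u
import Pool.Agent.Helper11.CT.T.Tm1_1_m1_1_v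
import Pool.Agent.Helper11.CT.T.Tm1_1_m1_1_v2
import Pool.Agent.Helper11.CT.T.Tm1_1_m1_m1_u
import Pool.Agent.Helper11.CT.T.Tm1_1_m1_m1_v
import Pool.Agent.Helper11.CT.T.Tm1_1_m1_m1_v2
import Pool.Agent.Helper11.CT.T.Tm1_2_1_1_u
import Pool.Agent.Helper11.CT.T.Tm1_2_1_1_v
import Pool.Agent.Helper11.CT.T.Tm1_2_1_1_v2
import Pool.Agent.Helper11.CT.T.Tm1_2_1_m1_u
import Pool.Agent.Helper11.CT.T.Tm1_2_1_m1_v
import Pool.Agent.Helper11.CT.T.Tm1_2_1_m1_v2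
import Pool.Agent.Helper11.CT.T.Tm1_2_m1_1_u
import Pool.Agent.Helper11.CT.T.Tm1_2_m1_1_v
import Pool.Agent.Helper11.CT.T.Tm1_2_m1_1_v2
import Pool.Agent.Helper11.CT.T.Tm1_2_m1_m1_u
import Pool.Agent.Helper11.CT.T.Tm1_2_m1_m1_v
import Pool.Agent.Helper11.CT.T.Tm1_2_m1_m1_v2
import Pool.Agent.Helper11.CT.T.Tm1_34_1_1_u
import Pool.Agent.Helper11.CT.T.Tm1_34_1_1_v
import Pool.Agent.Helper11.CT.T.Tm1_34_1_m1_u
import Pool.Agent.Helper11.CT.T.Tm1_34_1_m1_v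
import Pool.Agent.Helper11.CT.T.Tm1_34_m1_1_u
import Pool.Agent.Helper11.CT.T.Tm1_34_m1_1_v
import Pool.Agent.Helper11.CT.T.Tm1_34_m1_m1_u
import Pool.Agent.Helper11.CT.T.Tm1_34_m1_m1_v
import Pool.Agent.Helper11.CT.T.Tm1_35_1_1_u
import Pool.Agent.Helper11.CT.T.Tm1_35_1_1_v
import Pool.Agent.Helper11.CT.T.Tm1_35_1_m1_u
import Pool.Agent.Helper11.CT.T.Tm1_35_1_m1_v
import Pool.Agent.Helper11.CT.T.Tm1_35_m1_1_u
import Pool.Agent.Helper11.CT.T.Tm1_35_m1_1_v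
import Pool.Agent.Helper11.CT.T.Tm1_35_m1_m1_u
import Pool.Agent.Helper11.CT.T.Tm1_35_m1_m1_v
import Pool.Agent.Helper11.CT.T.Tm1_3_1_1_v2
import Pool.Agent.Helper11.CT.T.Tm1_3_1_m1_v2
import Pool.Agent.Helper11.CT.T.Tm1_3_m1_1_v2
import Pool.Agent.Helper11.CT.T.Tm1_3_m1_m1_v2

set_option autoImplicit false
set_option linter.unusedSectionVars false
set_option linter.unusedVariables false

/-!
# `S2`: all trees
-/

namespace Helper11.CT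

open Helper25.KW Helper55.KE

section

variable {p a b c J l q : ℤ} {D dl : ℝ} {Cl : ℤ → ℤ → ℤ → ℤ → ℝ → Prop}

theorem s2_u_1_1 (W : World p a b c J 1 l q D dl Cl) (hc : -a < c)
    (hS : KS2 p a b l 1 D Cl) (x1 : KXs p a b c l 1 D Cl 1)
    (x2 : KXs p a b c l 1 D Cl 2) (x3 : KXs p a b c l 1 D Cl 3)
    (x4 : KXs p a b c l 1 D Cl 4) (x10 : KXs p a b c l 1 D Cl 10)
    {Nu Ru : ℤ} {Iu : ℝ} (hu : UV p b D Cl true Nu Ru Iu) (h1 : 0 < c) : False := by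
  have ha := W.ha
  rcases cl_cases a b c with h | h | h | h
  · exact pairU W hc hS x3 hu (cs := true) h1 (cl := 1) h T1_1_1_1_u.ok
      T1_1_1_m1_u.ok
  · exact pairU W hc hS x3 hu (cs := true) h1 (cl := 2) h T1_2_1_1_u.ok
      T1_2_1_m1_u.ok
  · exact pairU W hc hS x10 hu (cs := true) h1 (cl := 34) h T1_34_1_1_u.ok
      T1_34_1_m1_u.ok
  · exact pairU W hc hS x3 hu (cs := true) h1 (cl := 35) h T1_35_1_1_u.ok
      T1_35_1_m1_u.ok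

theorem s2_u_1_m1 (W : World p a b c J (-1) l q D dl Cl) (hc : -a < c)
    (hS : KS2 p a b l (-1) D Cl) (x1 : KXs p a b c l (-1) D Cl 1)
    (x2 : KXs p a b c l (-1) D Cl 2) (x3 : KXs p a b c l (-1) D Cl 3)
    (x4 : KXs p a b c l (-1) D Cl 4) (x10 : KXs p a b c l (-1) D Cl 10)
    {Nu Ru : ℤ} {Iu : ℝ} (hu : UV p b D Cl true Nu Ru Iu) (h1 : 0 < c) : False := by
  have ha := W.ha
  rcases cl_cases a b c with h | h | h | h
  · exact pairU W hc hS x3 hu (cs := true) h1 (cl := 1) h T1_1_m1_1_u.ok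
      T1_1_m1_m1_u.ok
  · exact pairU W hc hS x3 hu (cs := true) h1 (cl := 2) h T1_2_m1_1_u.ok
      T1_2_m1_m1_u.ok
  · exact pairU W hc hS x10 hu (cs := true) h1 (cl := 34) h T1_34_m1_1_u.ok
      T1_34_m1_m1_u.ok
  · exact pairU W hc hS x3 hu (cs := true) h1 (cl := 35) h T1_35_m1_1_u.ok
      T1_35_m1_m1_u.ok

theorem s2_u_m1_1 (W : World p a b c J 1 l q D dl Cl) (hc : -a < c)
    (hS : KS2 p a b l 1 D Cl) (x1 : KXs p a b c l 1 D Cl 1)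
    (x2 : KXs p a b c l 1 D Cl 2) (x3 : KXs p a b c l 1 D Cl 3)
    (x4 : KXs p a b c l 1 D Cl 4) (x10 : KXs p a b c l 1 D Cl 10)
    {Nu Ru : ℤ} {Iu : ℝ} (hu : UV p b D Cl true Nu Ru Iu) (h1 : c < 0) : False := by
  have ha := W.ha
  rcases cl_cases a b c with h | h | h | h
  · exact pairU W hc hS x3 hu (cs := false) h1 (cl := 1) h Tm1_1_1_1_u.ok
      Tm1_1_1_m1_u.ok
  · exact pairU W hc hS x3 hu (cs := false) h1 (cl := 2) h Tm1_2_1_1_u.ok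
      Tm1_2_1_m1_u.ok
  · exact pairU W hc hS x10 hu (cs := false) h1 (cl := 34) h Tm1_34_1_1_u.ok
      Tm1_34_1_m1_u.ok
  · exact pairU W hc hS x3 hu (cs := false) h1 (cl := 35) h Tm1_35_1_1_u.ok
      Tm1_35_1_m1_u.ok

theorem s2_u_m1_m1 (W : World p a b c J (-1) l q D dl Cl) (hc : -a < c)
    (hS : KS2 p a b l (-1) D Cl) (x1 : KXs p a b c l (-1) D Cl 1)
    (x2 : KXs p a b c l (-1) D Cl 2) (x3 : KXs p a b c l (-1) D Cl 3)
    (x4 : KXs p a b c l (-1) D Cl 4) (x10 : KXs p a b c l (-1) D Cl 10)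
    {Nu Ru : ℤ} {Iu : ℝ} (hu : UV p b D Cl true Nu Ru Iu) (h1 : c < 0) : False := by
  have ha := W.ha
  rcases cl_cases a b c with h | h | h | h
  · exact pairU W hc hS x3 hu (cs := false) h1 (cl := 1) h Tm1_1_m1_1_u.ok
      Tm1_1_m1_m1_u.ok
  · exact pairU W hc hS x3 hu (cs := false) h1 (cl := 2) h Tm1_2_m1_1_u.ok
      Tm1_2_m1_m1_u.ok
  · exact pairU W hc hS x10 hu (cs := false) h1 (cl := 34) h Tm1_34_m1_1_u.ok
      Tm1_34_m1_m1_u.ok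
  · exact pairU W hc hS x3 hu (cs := false) h1 (cl := 35) h Tm1_35_m1_1_u.ok
      Tm1_35_m1_m1_u.ok

theorem s2_v_1_1 (W : World p a b c J 1 l q D dl Cl) (hc : -a < c)
    (hS : KS2 p a b l 1 D Cl) (x1 : KXs p a b c l 1 D Cl 1)
    (x2 : KXs p a b c l 1 D Cl 2) (x3 : KXs p a b c l 1 D Cl 3)
    (x4 : KXs p a b c l 1 D Cl 4) (x10 : KXs p a b c l 1 D Cl 10)
    {Nu Ru : ℤ} {Iu : ℝ} (hu : UV p b D Cl false Nu Ru Iu) (h1 : 0 < c) : False := by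
  have ha := W.ha
  rcases cl_cases a b c with h | h | h | h
  · exact pairU W hc hS x3 hu (cs := true) h1 (cl := 1) h T1_1_1_1_v.ok
      T1_1_1_m1_v.ok
  · exact pairU W hc hS x3 hu (cs := true) h1 (cl := 2) h T1_2_1_1_v.ok
      T1_2_1_m1_v.ok
  · exact pairU W hc hS x10 hu (cs := true) h1 (cl := 34) h T1_34_1_1_v.ok
      T1_34_1_m1_v.ok
  · exact pairU W hc hS x10 hu (cs := true) h1 (cl := 35) h T1_35_1_1_v.ok
      T1_35_1_m1_v.ok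

theorem s2_v_1_m1 (W : World p a b c J (-1) l q D dl Cl) (hc : -a < c)
    (hS : KS2 p a b l (-1) D Cl) (x1 : KXs p a b c l (-1) D Cl 1)
    (x2 : KXs p a b c l (-1) D Cl 2) (x3 : KXs p a b c l (-1) D Cl 3)
    (x4 : KXs p a b c l (-1) D Cl 4) (x10 : KXs p a b c l (-1) D Cl 10)
    {Nu Ru : ℤ} {Iu : ℝ} (hu : UV p b D Cl false Nu Ru Iu) (h1 : 0 < c) : False := by
  have ha := W.ha
  rcases cl_cases a b c with h | h | h | h
  · exact pairU W hc hS x3 hu (cs := true) h1 (cl := 1) h T1_1_m1_1_v.ok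
      T1_1_m1_m1_v.ok
  · exact pairU W hc hS x3 hu (cs := true) h1 (cl := 2) h T1_2_m1_1_v.ok
      T1_2_m1_m1_v.ok
  · exact pairU W hc hS x2 hu (cs := true) h1 (cl := 3) (cl3_34 (by omega) h) T1_3_m1_1_v.ok
      T1_3_m1_m1_v.ok
  · exact pairU W hc hS x2 hu (cs := true) h1 (cl := 3) (cl3_35 h) T1_3_m1_1_v.ok
      T1_3_m1_m1_v.ok

theorem s2_v_m1_1 (W : World p a b c J 1 l q D dl Cl) (hc : -a < c)
    (hS : KS2 p a b l 1 D Cl) (x1 : KXs p a b c l 1 D Cl 1)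
    (x2 : KXs p a b c l 1 D Cl 2) (x3 : KXs p a b c l 1 D Cl 3)
    (x4 : KXs p a b c l 1 D Cl 4) (x10 : KXs p a b c l 1 D Cl 10)
    {Nu Ru : ℤ} {Iu : ℝ} (hu : UV p b D Cl false Nu Ru Iu) (h1 : c < 0) : False := by
  have ha := W.ha
  rcases cl_cases a b c with h | h | h | h
  · exact pairU W hc hS x3 hu (cs := false) h1 (cl := 1) h Tm1_1_1_1_v.ok
      Tm1_1_1_m1_v.ok
  · exact pairU W hc hS x3 hu (cs := false) h1 (cl := 2) h Tm1_2_1_1_v.ok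
      Tm1_2_1_m1_v.ok
  · exact pairU W hc hS x10 hu (cs := false) h1 (cl := 34) h Tm1_34_1_1_v.ok
      Tm1_34_1_m1_v.ok
  · exact pairU W hc hS x10 hu (cs := false) h1 (cl := 35) h Tm1_35_1_1_v.ok
      Tm1_35_1_m1_v.ok

theorem s2_v_m1_m1 (W : World p a b c J (-1) l q D dl Cl) (hc : -a < c)
    (hS : KS2 p a b l (-1) D Cl) (x1 : KXs p a b c l (-1) D Cl 1)
    (x2 : KXs p a b c l (-1) D Cl 2) (x3 : KXs p a b c l (-1) D Cl 3)
    (x4 : KXs p a b c l (-1) D Cl 4) (x10 : KXs p a b c l (-1) D Cl 10)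
    {Nu Ru : ℤ} {Iu : ℝ} (hu : UV p b D Cl false Nu Ru Iu) (h1 : c < 0) : False := by
  have ha := W.ha
  rcases cl_cases a b c with h | h | h | h
  · exact pairU W hc hS x3 hu (cs := false) h1 (cl := 1) h Tm1_1_m1_1_v.ok
      Tm1_1_m1_m1_v.ok
  · exact pairU W hc hS x3 hu (cs := false) h1 (cl := 2) h Tm1_2_m1_1_v.ok
      Tm1_2_m1_m1_v.ok
  · exact pairU W hc hS x10 hu (cs := false) h1 (cl := 34) h Tm1_34_m1_1_v.ok
      Tm1_34_m1_m1_v.ok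
  · exact pairU W hc hS x10 hu (cs := false) h1 (cl := 35) h Tm1_35_m1_1_v.ok
      Tm1_35_m1_m1_v.ok

theorem s2_v2_1_1 (W : World p a b c J 1 l q D dl Cl) (hc : -a < c)
    (hS : KS2 p a b l 1 D Cl) (x1 : KXs p a b c l 1 D Cl 1)
    (x2 : KXs p a b c l 1 D Cl 2) (x3 : KXs p a b c l 1 D Cl 3)
    (x4 : KXs p a b c l 1 D Cl 4) (x10 : KXs p a b c l 1 D Cl 10)
    {Nu Ru : ℤ} {Iu : ℝ} (hu : WFac p D Cl Nu Ru Iu) (h1 : 0 < c) : False := by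
  have ha := W.ha
  rcases cl_cases a b c with h | h | h | h
  · exact pairW W hc hS x3 hu (cs := true) h1 (cl := 1) h T1_1_1_1_v2.ok
      T1_1_1_m1_v2.ok
  · exact pairW W hc hS x3 hu (cs := true) h1 (cl := 2) h T1_2_1_1_v2.ok
      T1_2_1_m1_v2.ok
  · exact pairW W hc hS x2 hu (cs := true) h1 (cl := 3) (cl3_34 (by omega) h) T1_3_1_1_v2.ok
      T1_3_1_m1_v2.ok
  · exact pairW W hc hS x2 hu (cs := true) h1 (cl := 3) (cl3_35 h) T1_3_1_1_v2.ok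
      T1_3_1_m1_v2.ok

theorem s2_v2_1_m1 (W : World p a b c J (-1) l q D dl Cl) (hc : -a < c)
    (hS : KS2 p a b l (-1) D Cl) (x1 : KXs p a b c l (-1) D Cl 1)
    (x2 : KXs p a b c l (-1) D Cl 2) (x3 : KXs p a b c l (-1) D Cl 3)
    (x4 : KXs p a b c l (-1) D Cl 4) (x10 : KXs p a b c l (-1) D Cl 10)
    {Nu Ru : ℤ} {Iu : ℝ} (hu : WFac p D Cl Nu Ru Iu) (h1 : 0 < c) : False := by
  have ha := W.ha
  rcases cl_cases a b c with h | h | h | h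
  · exact pairW W hc hS x3 hu (cs := true) h1 (cl := 1) h T1_1_m1_1_v2.ok
      T1_1_m1_m1_v2.ok
  · exact pairW W hc hS x3 hu (cs := true) h1 (cl := 2) h T1_2_m1_1_v2.ok
      T1_2_m1_m1_v2.ok
  · exact pairW W hc hS x2 hu (cs := true) h1 (cl := 3) (cl3_34 (by omega) h) T1_3_m1_1_v2.ok
      T1_3_m1_m1_v2.ok
  · exact pairW W hc hS x2 hu (cs := true) h1 (cl := 3) (cl3_35 h) T1_3_m1_1_v2.ok
      T1_3_m1_m1_v2.ok

theorem s2_v2_m1_1 (W : World p a b c J 1 l q D dl Cl) (hc : -a < c)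
    (hS : KS2 p a b l 1 D Cl) (x1 : KXs p a b c l 1 D Cl 1)
    (x2 : KXs p a b c l 1 D Cl 2) (x3 : KXs p a b c l 1 D Cl 3)
    (x4 : KXs p a b c l 1 D Cl 4) (x10 : KXs p a b c l 1 D Cl 10)
    {Nu Ru : ℤ} {Iu : ℝ} (hu : WFac p D Cl Nu Ru Iu) (h1 : c < 0) : False := by
  have ha := W.ha
  rcases cl_cases a b c with h | h | h | h
  · exact pairW W hc hS x3 hu (cs := false) h1 (cl := 1) h Tm1_1_1_1_v2.ok
      Tm1_1_1_m1_v2.ok
  · exact pairW W hc hS x3 hu (cs := false) h1 (cl := 2) h Tm1_2_1_1_v2.ok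
      Tm1_2_1_m1_v2.ok
  · exact pairW W hc hS x2 hu (cs := false) h1 (cl := 3) (cl3_34 (by omega) h) Tm1_3_1_1_v2.ok
      Tm1_3_1_m1_v2.ok
  · exact pairW W hc hS x2 hu (cs := false) h1 (cl := 3) (cl3_35 h) Tm1_3_1_1_v2.ok
      Tm1_3_1_m1_v2.ok

theorem s2_v2_m1_m1 (W : World p a b c J (-1) l q D dl Cl) (hc : -a < c)
    (hS : KS2 p a b l (-1) D Cl) (x1 : KXs p a b c l (-1) D Cl 1)
    (x2 : KXs p a b c l (-1) D Cl 2) (x3 : KXs p a b c l (-1) D Cl 3)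
    (x4 : KXs p a b c l (-1) D Cl 4) (x10 : KXs p a b c l (-1) D Cl 10)
    {Nu Ru : ℤ} {Iu : ℝ} (hu : WFac p D Cl Nu Ru Iu) (h1 : c < 0) : False := by
  have ha := W.ha
  rcases cl_cases a b c with h | h | h | h
  · exact pairW W hc hS x3 hu (cs := false) h1 (cl := 1) h Tm1_1_m1_1_v2.ok
      Tm1_1_m1_m1_v2.ok
  · exact pairW W hc hS x3 hu (cs := false) h1 (cl := 2) h Tm1_2_m1_1_v2.ok
      Tm1_2_m1_m1_v2.ok
  · exact pairW W hc hS x2 hu (cs := false) h1 (cl := 3) (cl3_34 (by omega) h) Tm1_3_m1_1_v2.ok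
      Tm1_3_m1_m1_v2.ok
  · exact pairW W hc hS x2 hu (cs := false) h1 (cl := 3) (cl3_35 h) Tm1_3_m1_1_v2.ok
      Tm1_3_m1_m1_v2.ok

theorem stTS2 : StTS2 := by
  intro p a b c J ds l q D dl Cl W hc hS x1 x2 x3 x4 x10 huvw
  have hc0 := W.hc0
  rcases huvw with ⟨N, R, I, hu⟩ | ⟨N, R, I, hu⟩ | ⟨N, R, I, hu⟩
  · rcases W.hds with ⟨hd, -⟩ | ⟨hd, -⟩
    · subst hd
      rcases lt_or_gt_of_ne hc0 with h1 | h1
      · exact s2_u_m1_1 W hc hS x1 x2 x3 x4 x10 (UV.ofU hu) h1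
      · exact s2_u_1_1 W hc hS x1 x2 x3 x4 x10 (UV.ofU hu) h1
    · subst hd
      rcases lt_or_gt_of_ne hc0 with h1 | h1
      · exact s2_u_m1_m1 W hc hS x1 x2 x3 x4 x10 (UV.ofU hu) h1
      · exact s2_u_1_m1 W hc hS x1 x2 x3 x4 x10 (UV.ofU hu) h1
  · rcases W.hds with ⟨hd, -⟩ | ⟨hd, -⟩
    · subst hd
      rcases lt_or_gt_of_ne hc0 with h1 | h1
      · exact s2_v_m1_1 W hc hS x1 x2 x3 x4 x10 (UV.ofV hu) h1
      · exact s2_v_1_1 W hc hS x1 x2 x3 x4 x10 (UV.ofV hu) h1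
    · subst hd
      rcases lt_or_gt_of_ne hc0 with h1 | h1
      · exact s2_v_m1_m1 W hc hS x1 x2 x3 x4 x10 (UV.ofV hu) h1
      · exact s2_v_1_m1 W hc hS x1 x2 x3 x4 x10 (UV.ofV hu) h1
  · rcases W.hds with ⟨hd, -⟩ | ⟨hd, -⟩
    · subst hd
      rcases lt_or_gt_of_ne hc0 with h1 | h1
      · exact s2_v2_m1_1 W hc hS x1 x2 x3 x4 x10 hu h1
      · exact s2_v2_1_1 W hc hS x1 x2 x3 x4 x10 hu h1
    · subst hd
      rcases lt_or_gt_of_ne hc0 with h1 | h1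
      · exact s2_v2_m1_m1 W hc hS x1 x2 x3 x4 x10 hu h1
      · exact s2_v2_1_m1 W hc hS x1 x2 x3 x4 x10 hu h1

/-- `S2` is impossible -/
theorem stS2 : StS2 := stS2_of stTS2
end

end Helper11.CT
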