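import Pool.Agent.Helper11.CT.S2
import Pool.Agent.Helper25.KW.K7
import Pool.Agent.Helper25.KW.Top

set_option autoImplicit false
set_option linter.unusedSectionVars false
set_option linter.unusedVariables false

/-!
# `S2`: reduction to the trees
-/

namespace Helper11.CT

open Helper25.KW Helper55.KE

/-- the class -/
def CLh (a b c : ℤ) (cl : ℕ) : Prop := match cl with
    | 1 => b + |c| < a
    | 2 => b < a ∧ a ≤ b + |c|
    | 3 => a ≤ b
    | 34 => 2 * a ≤ b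
    | _ => a ≤ b ∧ b < 2 * a

/-- the extremal cluster for `ext` -/
def KXs (p a b c l ds : ℤ) (D : ℝ) (Cl : ℤ → ℤ → ℤ → ℤ → ℝ → Prop) (ext : ℕ) : Prop :=
  ∃ (N X R : ℤ) (I : ℝ), KFac p a b l ds D Cl N X R I ∧
    KX p a b l ds D Cl N (X + ds * I) (X + ds * I + R) ext ∧
    (match ext with
    | 1 => ds * D < 2 * (X + ds * I)
    | 2 => 2 * (X + ds * I) < ds * D
    | 3 => ds * D < 2 * (X + ds * I + R)
    | 4 => 2 * (X + ds * I + R) < ds * D
    | _ => ds * D < 2 * (X + ds * I) ∧ (2 * a ≤ b → (ds = 1 → X + ds * I < a - |(c : ℝ)| + D) ∧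
      (ds = -1 → X + ds * I < a - |(c : ℝ)|)))

/-- one of the clusters `u`, `v`, `v2` -/
def UVW3 (p b : ℤ) (D : ℝ) (Cl : ℤ → ℤ → ℤ → ℤ → ℝ → Prop) : Prop :=
  (∃ N R I, UFac p b D Cl N R I) ∨ (∃ N R I, VFac p D Cl N R I) ∨ (∃ N R I, WFac p D Cl N R I)

/-- `S2`, `p + l ≤ q` -/
def StTS2 : Prop := ∀ (p a b c J ds l q : ℤ) (D dl : ℝ) (Cl : ℤ → ℤ → ℤ → ℤ → ℝ → Prop),
  World p a b c J ds l q D dl Cl → -a < c → KS2 p a b l ds D Cl →
  KXs p a b c l ds D Cl 1 → KXs p a b c l ds D Cl 2 → KXs p a b c l ds D Cl 3 →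
  KXs p a b c l ds D Cl 4 → KXs p a b c l ds D Cl 10 → UVW3 p b D Cl → False

section

variable {p q a b c : ℕ} [NeZero p] [NeZero q] {z : ZMod p → ZMod (p * q)} {i0 ρ : ZMod p}
  {θ : ZMod (p * q)} {δ l : ℕ} {k : ℤ} {s ds J : ℤ}

open Helper11.N1 Helper25.FLT in
theorem stS2_of (H : StTS2) : StS2 := by
  intro p q a b c _ _ z i0 ρ θ δ l k s ds J h h2a h2b hap hbp hρ hl2 hk0 hka hq hS hne
  have hk := h.ka hka
  have W := h.world h2a h2b hl2 hk0 hka hq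
  refine H p a b k J ds l q _ _ _ W (by rw [abs_lt] at hk; exact hk.1) (h.ks2 hS) ?_ ?_ ?_ ?_ ?_
    (h.uvw h2b)
  · obtain ⟨N, X, R, I, h1, h2, h3⟩ := h.s21 h2a h2b hS hne
    exact ⟨N, X, R, I, h1, h3, h2⟩
  · obtain ⟨N, X, R, I, h1, h2, h3⟩ := h.s22 h2a h2b hS hne
    exact ⟨N, X, R, I, h1, h3, h2⟩
  · obtain ⟨N, X, R, I, h1, h2, h3⟩ := h.s23 h2a h2b hS hne
    exact ⟨N, X, R, I, h1, h3, h2⟩
  · obtain ⟨N, X, R, I, h1, h2, h3⟩ := h.s24 h2a h2b hS hne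
    exact ⟨N, X, R, I, h1, h3, h2⟩
  · obtain ⟨N, X, R, I, h1, h2, h3, h4⟩ := h.s210 h2a h2b hk0 hS hne
    exact ⟨N, X, R, I, h1, h3, h2, fun h5 => h4 (by exact_mod_cast h5) hk⟩

end

section

variable {p a b c J ds l q : ℤ} {D dl : ℝ} {Cl : ℤ → ℤ → ℤ → ℤ → ℝ → Prop}

theorem side_of {X R : ℤ} {I : ℝ} (W : Base p a b c J ds l q D dl Cl) (hc : -a < c)
    {ext : ℕ} (hX : match ext with
    | 1 => ds * D < 2 * (X + ds * I)
    | 2 => 2 * (X + ds * I) < ds * D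
    | 3 => ds * D < 2 * (X + ds * I + R)
    | 4 => 2 * (X + ds * I + R) < ds * D
    | _ => ds * D < 2 * (X + ds * I) ∧ (2 * a ≤ b → (ds = 1 → X + ds * I < a - |(c : ℝ)| + D) ∧
      (ds = -1 → X + ds * I < a - |(c : ℝ)|))) {cs : Bool}
    (h1 : match cs with | true => 0 < c | false => c < 0) {cl : ℕ} (h2 : CLh a b c cl)
    {rs : Bool} (h3 : match rs with | true => 0 < R | false => R < 0) :
    Side a b c ds D (X + ds * I) (X + ds * I + R) R cs cl ext rs := by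
  refine ⟨hc, W.hca', h1, h2, h3, ?_⟩
  split
  · exact hX
  · exact hX
  · exact hX
  · exact hX
  · rename_i g1 g2 g3 g4
    have h4 : ds * D < 2 * (X + ds * I) ∧ (2 * a ≤ b → (ds = 1 → X + ds * I < a - |(c : ℝ)| + D) ∧
      (ds = -1 → X + ds * I < a - |(c : ℝ)|)) := by
      split at hX
      · exact absurd rfl g1
      · exact absurd rfl g2
      · exact absurd rfl g3
      · exact absurd rfl g4
      · exact hX
    refine ⟨h4.1, fun h5 => h4.2 ?_⟩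
    subst h5
    exact h2

/-- a pair of trees with `u` or `v` -/
theorem pairU (W : World p a b c J ds l q D dl Cl) (hc : -a < c) (hS : KS2 p a b l ds D Cl)
    {ext : ℕ} (hX : KXs p a b c l ds D Cl ext) {tok : Bool} {Nu Ru : ℤ} {Iu : ℝ}
    (hu : UV p b D Cl tok Nu Ru Iu) {cs : Bool}
    (h1 : match cs with | true => 0 < c | false => c < 0) {cl : ℕ} (h2 : CLh a b c cl)
    {t t' : Tre} {B B' : List Con}
    (h : chkB (cU ds tok ext) (fax (fcU ds) cs cl ds ext true (tU tok)) t B = true)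
    (h' : chkB (cU ds tok ext) (fax (fcU ds) cs cl ds ext false (tU tok)) t' B' = true) :
    False := by
  obtain ⟨N, X, R, I, hk, hx, hs⟩ := hX
  rcases lt_or_gt_of_ne hk.R0 with h3 | h3
  · exact S2_treeU W hS hk hx hu (side_of W.toBase hc hs h1 h2 (rs := false) h3) h'
  · exact S2_treeU W hS hk hx hu (side_of W.toBase hc hs h1 h2 (rs := true) h3) h

/-- a pair of trees with `v2` -/
theorem pairW (W : World p a b c J ds l q D dl Cl) (hc : -a < c) (hS : KS2 p a b l ds D Cl)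
    {ext : ℕ} (hX : KXs p a b c l ds D Cl ext) {Nu Ru : ℤ} {Iu : ℝ}
    (hu : WFac p D Cl Nu Ru Iu) {cs : Bool}
    (h1 : match cs with | true => 0 < c | false => c < 0) {cl : ℕ} (h2 : CLh a b c cl)
    {t t' : Tre} {B B' : List Con}
    (h : chkB (cW ds ext) (fax (fcW ds) cs cl ds ext true tW) t B = true)
    (h' : chkB (cW ds ext) (fax (fcW ds) cs cl ds ext false tW) t' B' = true) :
    False := by
  obtain ⟨N, X, R, I, hk, hx, hs⟩ := hX
  rcases lt_or_gt_of_ne hk.R0 with h3 | h3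
  · exact S2_treeW W hS hk hx hu (side_of W.toBase hc hs h1 h2 (rs := false) h3) h'
  · exact S2_treeW W hS hk hx hu (side_of W.toBase hc hs h1 h2 (rs := true) h3) h

/-- the classes -/
theorem cl_cases (a b c : ℤ) : CLh a b c 1 ∨ CLh a b c 2 ∨ CLh a b c 34 ∨ CLh a b c 35 := by
  show b + |c| < a ∨ (b < a ∧ a ≤ b + |c|) ∨ 2 * a ≤ b ∨ (a ≤ b ∧ b < 2 * a)
  have := abs_nonneg c
  omega

theorem cl3_34 {a b c : ℤ} (ha : 0 ≤ a) (h : CLh a b c 34) : CLh a b c 3 := by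
  have h1 : 2 * a ≤ b := h
  show a ≤ b
  omega

theorem cl3_35 {a b c : ℤ} (h : CLh a b c 35) : CLh a b c 3 := by
  have h1 : a ≤ b ∧ b < 2 * a := h
  exact h1.1

end

end Helper11.CT
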