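import Pool.Agent.Helper11.CT.Defs
import Mathlib.Data.Real.Basic
import Mathlib.Tactic.Linarith
import Mathlib.Tactic.Ring
import Mathlib.Tactic.Push
import Mathlib.Algebra.Order.Ring.Int

set_option autoImplicit false

/-!
# Certified decision trees: values of forms and certificates
-/

noncomputable section

namespace Helper11.CT

theorem ineg_eq (m : ℕ) : ineg m = -(m : ℤ) := by
  cases m with
  | zero => rfl
  | succ m => rfl

theorem isb_eq (m n : ℕ) : isb m n = (m : ℤ) - n := by
  unfold isb
  rcases h : Nat.sub n m with _ | k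
  · have h1 : n ≤ m := Nat.sub_eq_zero_iff_le.1 h
    show Int.ofNat (m - n) = (m : ℤ) - n
    rw [Int.ofNat_eq_natCast]
    omega
  · have h1 : n - m = k + 1 := h
    show Int.negSucc k = (m : ℤ) - n
    rw [Int.negSucc_eq]
    omega

theorem iadd_eq (x y : ℤ) : iadd x y = x + y := by
  rcases x with m | m <;> rcases y with n | n
  · rfl
  · show isb m (Nat.succ n) = _
    rw [isb_eq, Int.negSucc_eq, Int.ofNat_eq_natCast]
    push_cast
    ring
  · show isb n (Nat.succ m) = _
    rw [isb_eq, Int.negSucc_eq, Int.ofNat_eq_natCast]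
    push_cast
    ring
  · show Int.negSucc (Nat.succ (Nat.add m n)) = _
    rw [Int.negSucc_eq, Int.negSucc_eq, Int.negSucc_eq]
    push_cast
    show -((m : ℤ) + n + 1 + 1) = _
    ring

theorem imul_eq (x y : ℤ) : imul x y = x * y := by
  rcases x with m | m <;> rcases y with n | n
  · show Int.ofNat (Nat.mul m n) = _
    rw [Int.ofNat_eq_natCast, Int.ofNat_eq_natCast, Int.ofNat_eq_natCast]
    exact Nat.cast_mul m n
  · show ineg (Nat.mul m (Nat.succ n)) = _
    rw [ineg_eq, Int.negSucc_eq, Int.ofNat_eq_natCast]
    have : ((Nat.mul m (Nat.succ n) : ℕ) : ℤ) = (m : ℤ) * ((n : ℤ) + 1) := by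
      show ((m * (n + 1) : ℕ) : ℤ) = _
      push_cast
      ring
    rw [this]
    ring
  · show ineg (Nat.mul (Nat.succ m) n) = _
    rw [ineg_eq, Int.negSucc_eq, Int.ofNat_eq_natCast]
    have : ((Nat.mul (Nat.succ m) n : ℕ) : ℤ) = ((m : ℤ) + 1) * (n : ℤ) := by
      show (((m + 1) * n : ℕ) : ℤ) = _
      push_cast
      ring
    rw [this]
    ring
  · show Int.ofNat (Nat.mul (Nat.succ m) (Nat.succ n)) = _
    rw [Int.ofNat_eq_natCast, Int.negSucc_eq, Int.negSucc_eq]
    have : ((Nat.mul (Nat.succ m) (Nat.succ n) : ℕ) : ℤ) = ((m : ℤ) + 1) * ((n : ℤ) + 1) := by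
      show (((m + 1) * (n + 1) : ℕ) : ℤ) = _
      push_cast
      ring
    rw [this]
    ring

theorem izero_iff (x : ℤ) : izero x = true ↔ x = 0 := by
  rcases x with m | m
  · show Nat.beq m 0 = true ↔ _
    rw [Nat.beq_eq]
    constructor
    · rintro rfl
      rfl
    · intro h
      have : (m : ℤ) = 0 := h
      exact_mod_cast this
  · constructor
    · intro h
      exact absurd h (by show ¬ (false = true); simp)
    · intro h
      exact absurd h (by simp)

theorem ipos_iff (x : ℤ) : ipos x = true ↔ 0 < x := by
  rcases x with m | m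
  · show Nat.ble 1 m = true ↔ _
    rw [Nat.ble_eq, Int.ofNat_eq_natCast]
    omega
  · constructor
    · intro h
      exact absurd h (by show ¬ (false = true); simp)
    · intro h
      rw [Int.negSucc_eq] at h
      omega

@[simp] theorem axpy_nil (k : ℤ) (acc : List ℤ) : axpy k [] acc = acc := rfl

@[simp] theorem axpy_cn (k c : ℤ) (e : List ℤ) : axpy k (c :: e) [] = k * c :: axpy k e [] := by
  rw [← imul_eq]
  rfl

@[simp] theorem axpy_cc (k c d : ℤ) (e acc : List ℤ) :
    axpy k (c :: e) (d :: acc) = (k * c + d) :: axpy k e acc := by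
  rw [← imul_eq, ← iadd_eq]
  rfl

/-- value of a form over a commutative ring -/
def evg {R : Type} [CommRing R] : List R → List ℤ → R
  | v :: vs, c :: cs => c * v + evg vs cs
  | _, _ => 0

section

variable {R : Type} [CommRing R]

@[simp] theorem evg_nil (x : List R) : evg x [] = 0 := by
  cases x <;> rfl

@[simp] theorem evg_nil' (e : List ℤ) : evg ([] : List R) e = 0 := rfl

@[simp] theorem evg_cons (v : R) (x : List R) (c : ℤ) (e : List ℤ) :
    evg (v :: x) (c :: e) = c * v + evg x e := rfl

theorem evg_axpy (k : ℤ) (e : List ℤ) : ∀ (x : List R) (acc : List ℤ),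
    evg x (axpy k e acc) = k * evg x e + evg x acc := by
  induction e with
  | nil => intro x acc; simp
  | cons c e ih =>
    intro x acc
    cases x with
    | nil => simp
    | cons v x =>
      cases acc with
      | nil =>
        simp only [axpy_cn, evg_cons, evg_nil, ih]
        push_cast
        ring
      | cons d acc =>
        simp only [axpy_cc, evg_cons, ih]
        push_cast
        ring

theorem allz_ev : ∀ (e : List ℤ), allz e = true → ∀ x : List R, evg x e = 0 := by
  intro e
  induction e with
  | nil => intro _ x; simp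
  | cons c e ih =>
    intro h x
    have h' : (izero c && allz e) = true := h
    rw [Bool.and_eq_true] at h'
    have hc : c = 0 := (izero_iff c).1 h'.1
    cases x with
    | nil => simp
    | cons v x =>
      rw [evg_cons, ih h'.2 x, hc]
      simp

end

theorem evg_map (e : List ℤ) : ∀ (vi : List ℤ), evg (vi.map (fun n : ℤ => (n : ℝ))) e =
    ((evg vi e : ℤ) : ℝ) := by
  induction e with
  | nil => intro vi; simp
  | cons c e ih =>
    intro vi
    cases vi with
    | nil => simp
    | cons v vi =>
      simp only [List.map_cons, evg_cons, ih]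
      push_cast
      simp

theorem evg_append_left {R : Type} [CommRing R] (e : List ℤ) : ∀ (x y : List R),
    allz (e.drop x.length) = true → evg (x ++ y) e = evg x e := by
  induction e with
  | nil => intro x y _; simp
  | cons c e ih =>
    intro x y h
    cases x with
    | nil =>
      simp only [List.nil_append, evg_nil']
      exact allz_ev _ h y
    | cons v x =>
      simp only [List.cons_append, evg_cons]
      rw [ih x y (by simpa using h)]

/-- a constraint holds -/
def hld (x : List ℝ) (c : Con) : Prop := if c.1 = true then 1 ≤ evg x c.2 else 0 < evg x c.2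

theorem fin_sound {x : List ℝ} (hx : ∃ y, x = 1 :: y) {acc : List ℤ} {S : ℤ} {st : Bool}
    (h : fin acc S st = true) : 0 < evg x acc + S ∨ (st = true ∧ 0 ≤ evg x acc + S) := by
  obtain ⟨y, rfl⟩ := hx
  unfold fin at h
  cases acc with
  | nil =>
    simp only [evg_nil, zero_add]
    simp only [Bool.or_eq_true, Bool.and_eq_true, ipos_iff, izero_iff] at h
    rcases h with h | ⟨h1, h2⟩
    · left
      exact_mod_cast h
    · right
      exact ⟨h2, by rw [h1]; simp⟩
  | cons C e =>
    simp only [Bool.or_eq_true, Bool.and_eq_true, ipos_iff, izero_iff] at h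
    obtain ⟨h0, h⟩ := h
    have h3 : evg ((1 : ℝ) :: y) (C :: e) = C := by
      rw [evg_cons, allz_ev e h0]
      simp
    rw [h3]
    have h4 : Int.add C S = C + S := rfl
    rw [h4] at h
    rcases h with h | ⟨h1, h2⟩
    · left
      exact_mod_cast h
    · right
      refine ⟨h2, ?_⟩
      have : ((C + S : ℤ) : ℝ) = 0 := by rw [h1]; simp
      push_cast at this
      linarith

theorem drp_sub (s : ℕ) : ∀ Q : List Con, ∀ c ∈ drp s Q, c ∈ Q := by
  induction s with
  | zero => intro Q c hc; exact hc
  | succ s ih =>
    intro Q c hc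
    cases Q with
    | nil => exact hc
    | cons d Q => exact List.mem_cons_of_mem _ (ih Q c hc)

theorem comb_sound {x : List ℝ} (hx : ∃ y, x = 1 :: y) (l : List (ℕ × ℕ)) :
    ∀ (Q : List Con) (acc : List ℤ) (S : ℤ) (st : Bool), (∀ c ∈ Q, hld x c) →
      comb l Q acc S st = true → 0 < evg x acc + S ∨ (st = true ∧ 0 ≤ evg x acc + S) := by
  induction l with
  | nil => intro Q acc S st _ h; exact fin_sound hx h
  | cons c l ih =>
    intro Q acc S st hQ h
    change (match drp c.1 Q with
      | [] => false
      | (true, e) :: Q' => comb l Q' (axpy (Int.negSucc c.2) e acc) (iadd S (Int.ofNat (Nat.succ c.2))) st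
      | (false, e) :: Q' => comb l Q' (axpy (Int.negSucc c.2) e acc) S true) = true at h
    have hm : ((Int.negSucc c.2 : ℤ) : ℝ) = -((c.2 : ℝ) + 1) := by
      rw [Int.negSucc_eq]
      push_cast
      ring
    have hc0 : (0 : ℝ) ≤ (c.2 : ℝ) := Nat.cast_nonneg _
    rcases hd : drp c.1 Q with _ | ⟨⟨t, e⟩, Q'⟩
    · rw [hd] at h
      exact absurd h (by simp)
    · rw [hd] at h
      have he : hld x (t, e) := hQ _ (drp_sub c.1 Q _ (by rw [hd]; exact List.mem_cons_self))
      have hQ' : ∀ c ∈ Q', hld x c := fun c' hc' =>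
        hQ _ (drp_sub c.1 Q _ (by rw [hd]; exact List.mem_cons_of_mem _ hc'))
      cases t with
      | true =>
        have h1 := ih Q' _ _ _ hQ' h
        rw [evg_axpy, iadd_eq, hm] at h1
        have he' : 1 ≤ evg x e := he
        have h2 : ((c.2 : ℝ) + 1) * 1 ≤ ((c.2 : ℝ) + 1) * evg x e :=
          mul_le_mul_of_nonneg_left he' (by linarith)
        have h3 : ((S + (Int.ofNat (Nat.succ c.2)) : ℤ) : ℝ) = S + ((c.2 : ℝ) + 1) := by
          rw [Int.ofNat_eq_natCast]
          push_cast
          ring
        rw [h3] at h1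
        rcases h1 with h1 | ⟨h0, h1⟩
        · left
          linarith
        · right
          exact ⟨h0, by linarith⟩
      | false =>
        have h1 := ih Q' _ _ _ hQ' h
        rw [evg_axpy, hm] at h1
        have he' : 0 < evg x e := he
        have h2 : 0 < ((c.2 : ℝ) + 1) * evg x e := mul_pos (by linarith) he'
        left
        rcases h1 with h1 | ⟨-, h1⟩ <;> linarith

theorem cert_sound {x : List ℝ} (hx : ∃ y, x = 1 :: y) {Q : List Con} (hQ : ∀ c ∈ Q, hld x c)
    {c : Cert} {g : List ℤ} (h : cert Q c g = true) : 0 < evg x g := by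
  unfold cert at h
  rcases hc : c.l0 with _ | n
  · rw [hc] at h
    have h1 := comb_sound hx _ _ _ _ _ hQ h
    simp only [Int.ofNat_eq_natCast] at h1
    push_cast at h1
    simpa using h1
  · rw [hc] at h
    have h1 := comb_sound hx _ _ _ _ _ hQ h
    rw [evg_axpy] at h1
    simp only [Int.ofNat_eq_natCast] at h1
    push_cast at h1
    simp only [evg_nil, add_zero, Bool.false_eq_true, false_and, or_false] at h1
    have h2 : (0 : ℝ) < (n : ℝ) + 2 := by positivity
    by_contra hcon
    push Not at hcon
    have := mul_nonpos_of_nonneg_of_nonpos h2.le hcon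
    linarith

end Helper11.CT
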