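import Pool.Agent.Helper11.CT.Sem
import Pool.Agent.Helper25.KW.Def

set_option autoImplicit false
set_option linter.unusedSectionVars false

/-!
# Certified decision trees: clusters and memberships
-/

noncomputable section

namespace Helper11.CT

open Helper25.KW Helper55.KE

/-- the generators are clusters -/
def GOk (Cl : ℤ → ℤ → ℤ → ℤ → ℝ → Prop) (x : List ℝ) (vi : List ℤ) :
    List ℤ → List ℤ → List (List ℤ) → List (List ℤ) → List (List ℤ) → Prop
  | N :: Ns, t :: ts, X :: gX, R :: gR, I :: gI =>
    (Cl N t (evg vi X) (evg vi R) (evg x I) ∧ evg x X = ((evg vi X : ℤ) : ℝ) ∧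
      evg x R = ((evg vi R : ℤ) : ℝ)) ∧ GOk Cl x vi Ns ts gX gR gI
  | [], [], [], [], [] => True
  | _, _, _, _, _ => False

/-- the valuation of a class in a world -/
structure Val (K : Cls) (p a b c J ds l q : ℤ) (D dl : ℝ) (Cl : ℤ → ℤ → ℤ → ℤ → ℝ → Prop)
    (vi : List ℤ) (vr : List ℝ) (Nr : List ℤ) : Prop extends
    Base p a b c J ds l q D dl Cl where
  h1 : ∃ y, vi = 1 :: y
  hn : vi.length = K.nI
  vds : K.ds = ds
  vP : evg vi K.P = p
  vP' : isI K K.P = true
  vA : evg vi K.A = a
  vA' : isI K K.A = true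
  vB : evg vi K.B = b
  vB' : isI K K.B = true
  vC : evg vi K.C = c
  vC' : isI K K.C = true
  vJ : evg vi K.J = J
  vJ' : isI K K.J = true
  vD : evg (vi.map (fun n : ℤ => (n : ℝ)) ++ vr) K.D = D
  gens : GOk Cl (vi.map (fun n : ℤ => (n : ℝ)) ++ vr) vi (p :: l :: Nr)
    (0 :: 1 :: List.replicate Nr.length 0) K.gX K.gR K.gI
  kn : ∀ w ∈ K.known, ¬ p ∣ evg (l :: Nr) w

section

variable {K : Cls} {p a b c J ds l q : ℤ} {D dl : ℝ} {Cl : ℤ → ℤ → ℤ → ℤ → ℝ → Prop}
  {vi : List ℤ} {vr : List ℝ} {Nr : List ℤ}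

/-- the real valuation -/
def xv (vi : List ℤ) (vr : List ℝ) : List ℝ := vi.map (fun n : ℤ => (n : ℝ)) ++ vr

theorem Base.zero (h : Base p a b c J ds l q D dl Cl) : Cl 0 0 0 0 0 := by
  have := h.add h.cp (h.neg h.cp)
  simpa using this

theorem Base.smulN (h : Base p a b c J ds l q D dl Cl) {N τ X R : ℤ} {I : ℝ}
    (hC : Cl N τ X R I) (k : ℕ) : Cl (k * N) (k * τ) (k * X) (k * R) (k * I) := by
  induction k with
  | zero => simpa using Base.zero h
  | succ k ih =>
    have := h.add ih hC
    push_cast
    rw [add_mul, add_mul, add_mul, add_mul, add_mul]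
    simpa using this

theorem Base.smul (h : Base p a b c J ds l q D dl Cl) {N τ X R : ℤ} {I : ℝ}
    (hC : Cl N τ X R I) (k : ℤ) : Cl (k * N) (k * τ) (k * X) (k * R) (k * I) := by
  rcases k with k | k
  · have := Base.smulN h hC k
    simpa using this
  · have := h.neg (Base.smulN h hC (k + 1))
    rw [Int.negSucc_eq]
    push_cast at this ⊢
    have e1 : ∀ y : ℤ, (-1 + -(k : ℤ)) * y = -(((k : ℤ) + 1) * y) := fun y => by ring
    have e2 : ∀ y : ℝ, (-1 + -(k : ℝ)) * y = -(((k : ℝ) + 1) * y) := fun y => by ring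
    have e3 : (-((k : ℤ) + 1)) = -1 + -(k : ℤ) := by ring
    have e4 : (-((k : ℝ) + 1)) = -1 + -(k : ℝ) := by ring
    rw [e3, e4, e1, e1, e1, e1, e2]
    exact this

theorem evg_lin {R : Type} [CommRing R] (x : List R) (g : List ℤ) (G : List (List ℤ)) (k : ℤ)
    (n : List ℤ) : evg x (lin (g :: G) (k :: n)) = k * evg x g + evg x (lin G n) := by
  change evg x (Bool.rec (motive := fun _ => List ℤ) (axpy k g (lin G n)) (lin G n) (izero k)) = _
  rcases h : izero k with _ | _
  · exact evg_axpy k g x _
  · rw [(izero_iff k).1 h]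
    simp

theorem gok_cl (h : Base p a b c J ds l q D dl Cl) {x : List ℝ} : ∀ (n Ns ts : List ℤ)
    (gX gR gI : List (List ℤ)), GOk Cl x vi Ns ts gX gR gI →
    Cl (evg Ns n) (evg ts n) (evg vi (lin gX n)) (evg vi (lin gR n)) (evg x (lin gI n)) ∧
      evg x (lin gX n) = ((evg vi (lin gX n) : ℤ) : ℝ) ∧
      evg x (lin gR n) = ((evg vi (lin gR n) : ℤ) : ℝ) := by
  intro n
  induction n with
  | nil =>
    intro Ns ts gX gR gI _
    have e : ∀ G : List (List ℤ), lin G [] = [] := fun G => by cases G <;> rfl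
    rw [e, e, e]
    simp only [evg_nil, Int.cast_zero, and_self, and_true]
    exact Base.zero h
  | cons k n ih =>
    intro Ns ts gX gR gI hG
    cases Ns with
    | nil =>
      cases ts <;> cases gX <;> cases gR <;> cases gI <;> simp only [GOk] at hG
      have e : lin [] (k :: n) = [] := rfl
      rw [e]
      simp only [evg_nil, evg_nil', Int.cast_zero, and_self, and_true]
      exact Base.zero h
    | cons N Ns =>
      cases ts <;> cases gX <;> cases gR <;> cases gI <;> simp only [GOk] at hG
      rename_i t ts X gX R gR I gI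
      obtain ⟨⟨h1, h2, h3⟩, h4⟩ := hG
      obtain ⟨i1, i2, i3⟩ := ih Ns ts gX gR gI h4
      simp only [evg_lin, evg_cons]
      refine ⟨h.add (Base.smul h h1 k) i1, ?_, ?_⟩
      · rw [i2, h2]
        push_cast
        rfl
      · rw [i3, h3]
        push_cast
        rfl

theorem evg_tau (k : ℕ) (n : List ℤ) : evg (0 :: 1 :: List.replicate k 0) n = tau n := by
  have h0 : ∀ (k : ℕ) (n : List ℤ), evg (List.replicate k (0 : ℤ)) n = 0 := by
    intro k
    induction k with
    | zero => intro n; simp
    | succ k ih =>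
      intro n
      cases n with
      | nil => simp
      | cons c n => simp [List.replicate_succ, ih]
  cases n with
  | nil => rfl
  | cons c n =>
    cases n with
    | nil => simp [tau]
    | cons d n =>
      simp only [evg_cons, h0, tau]
      simp

/-- index of a descriptor -/
def NN (p l : ℤ) (Nr : List ℤ) (n : List ℤ) : ℤ := evg (p :: l :: Nr) n

theorem Val.cln (h : Val K p a b c J ds l q D dl Cl vi vr Nr) (n : List ℤ) :
    Cl (NN p l Nr n) (tau n) (evg vi (fX K n)) (evg vi (fR K n)) (evg (xv vi vr) (fI K n)) := by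
  have := (gok_cl h.toBase n _ _ _ _ _ h.gens).1
  rw [evg_tau] at this
  exact this

theorem Val.xX (h : Val K p a b c J ds l q D dl Cl vi vr Nr) (n : List ℤ) :
    evg (xv vi vr) (fX K n) = ((evg vi (fX K n) : ℤ) : ℝ) :=
  (gok_cl h.toBase n _ _ _ _ _ h.gens).2.1

theorem Val.xR (h : Val K p a b c J ds l q D dl Cl vi vr Nr) (n : List ℤ) :
    evg (xv vi vr) (fR K n) = ((evg vi (fR K n) : ℤ) : ℝ) :=
  (gok_cl h.toBase n _ _ _ _ _ h.gens).2.2

theorem Val.xI (h : Val K p a b c J ds l q D dl Cl vi vr Nr) {e : List ℤ} (he : isI K e = true) :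
    evg (xv vi vr) e = ((evg vi e : ℤ) : ℝ) := by
  unfold xv
  rw [evg_append_left _ _ _ (by rw [List.length_map, h.hn]; exact he), evg_map]

theorem Val.hx (h : Val K p a b c J ds l q D dl Cl vi vr Nr) : ∃ y, xv vi vr = 1 :: y := by
  obtain ⟨y, hy⟩ := h.h1
  unfold xv
  rw [hy]
  exact ⟨y.map (fun n : ℤ => (n : ℝ)) ++ vr, by simp⟩

theorem Val.eP (h : Val K p a b c J ds l q D dl Cl vi vr Nr) : evg (xv vi vr) K.P = (p : ℝ) := by
  rw [h.xI h.vP', h.vP]

theorem Val.eA (h : Val K p a b c J ds l q D dl Cl vi vr Nr) : evg (xv vi vr) K.A = (a : ℝ) := by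
  rw [h.xI h.vA', h.vA]

theorem Val.eB (h : Val K p a b c J ds l q D dl Cl vi vr Nr) : evg (xv vi vr) K.B = (b : ℝ) := by
  rw [h.xI h.vB', h.vB]

theorem Val.eC (h : Val K p a b c J ds l q D dl Cl vi vr Nr) : evg (xv vi vr) K.C = (c : ℝ) := by
  rw [h.xI h.vC', h.vC]

theorem Val.eJ (h : Val K p a b c J ds l q D dl Cl vi vr Nr) : evg (xv vi vr) K.J = (J : ℝ) := by
  rw [h.xI h.vJ', h.vJ]

theorem Val.p0 (h : Val K p a b c J ds l q D dl Cl vi vr Nr) : 0 < p := by
  have := h.ha
  have := h.h2a
  omega

theorem tau_axpy (k : ℤ) (a b : List ℤ) : tau (axpy k a b) = k * tau a + tau b := by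
  have h := evg_axpy k a (0 :: 1 :: List.replicate 0 (0 : ℤ)) b
  rw [evg_tau, evg_tau, evg_tau] at h
  exact_mod_cast h

theorem NN_axpy (p l : ℤ) (Nr : List ℤ) (k : ℤ) (a b : List ℤ) :
    NN p l Nr (axpy k a b) = k * NN p l Nr a + NN p l Nr b := by
  have h := evg_axpy k a (p :: l :: Nr) b
  exact_mod_cast h

theorem lin_axpy {R : Type} [CommRing R] (x : List R) (k : ℤ) (v : List ℤ) :
    ∀ (G : List (List ℤ)) (w : List ℤ),
      evg x (lin G (axpy k v w)) = k * evg x (lin G v) + evg x (lin G w) := by
  have e : ∀ G : List (List ℤ), lin G [] = [] := fun G => by cases G <;> rfl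
  induction v with
  | nil =>
    intro G w
    rw [axpy_nil, e]
    simp
  | cons c v ih =>
    intro G w
    cases G with
    | nil =>
      have e2 : ∀ w : List ℤ, lin [] w = [] := fun w => rfl
      rw [e2, e2, e2]
      simp
    | cons g G =>
      cases w with
      | nil =>
        rw [axpy_cn, evg_lin, evg_lin, ih, e, e]
        simp only [evg_nil]
        push_cast
        ring
      | cons d w =>
        rw [axpy_cc, evg_lin, evg_lin, evg_lin, ih]
        push_cast
        ring

theorem leq_ev {R : Type} [CommRing R] : ∀ (v w : List ℤ), leq v w = true →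
    ∀ x : List R, evg x v = evg x w := by
  intro v
  induction v with
  | nil =>
    intro w h x
    cases w with
    | nil => rfl
    | cons b w =>
      rw [allz_ev (b :: w) h x]
      simp
  | cons a v ih =>
    intro w h x
    cases w with
    | nil =>
      have h' : allz (a :: v) = true := h
      rw [allz_ev _ h' x]
      simp
    | cons b w =>
      have h' : (ieq a b && leq v w) = true := h
      rw [Bool.and_eq_true] at h'
      have hab : a = b := by
        have h2 := h'.1
        rcases a with a | a <;> rcases b with b | b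
        · have : Nat.beq a b = true := h2
          rw [Nat.beq_eq] at this
          rw [this]
        · exact absurd h2 (by show ¬ (false = true); simp)
        · exact absurd h2 (by show ¬ (false = true); simp)
        · have : Nat.beq a b = true := h2
          rw [Nat.beq_eq] at this
          rw [this]
      cases x with
      | nil => simp
      | cons y x => rw [evg_cons, evg_cons, ih w h'.2 x, hab]

theorem ieq_iff (a b : ℤ) : ieq a b = true ↔ a = b := by
  rcases a with a | a <;> rcases b with b | b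
  · show Nat.beq a b = true ↔ _
    rw [Nat.beq_eq]
    simp
  · show false = true ↔ _
    simp
  · show false = true ↔ _
    simp
  · show Nat.beq a b = true ↔ _
    rw [Nat.beq_eq]
    simp

theorem t1_iff (t : ℤ) : t1 t = true ↔ |t| ≤ 1 := by
  rw [abs_le]
  rcases t with t | t
  · rcases t with _ | _ | t
    · exact ⟨fun _ => by constructor <;> decide, fun _ => rfl⟩
    · exact ⟨fun _ => by constructor <;> decide, fun _ => rfl⟩
    · constructor
      · intro h
        exact absurd h (by show ¬ (false = true); simp)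
      · intro h
        rw [Int.ofNat_eq_natCast] at h
        push_cast at h
        omega
  · rcases t with _ | t
    · exact ⟨fun _ => by constructor <;> decide, fun _ => rfl⟩
    · constructor
      · intro h
        exact absurd h (by show ¬ (false = true); simp)
      · intro h
        rw [Int.negSucc_eq] at h
        push_cast at h
        omega

theorem inl_mem {v : List ℤ} : ∀ {L : List (List ℤ)}, inl v L = true → ∃ w ∈ L, leq v w = true := by
  intro L
  induction L with
  | nil => intro h; exact absurd h (by simp [inl])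
  | cons w L ih =>
    intro h
    simp only [inl, Bool.or_eq_true] at h
    rcases h with h | h
    · exact ⟨w, List.mem_cons_self, h⟩
    · obtain ⟨w', h1, h2⟩ := ih h
      exact ⟨w', List.mem_cons_of_mem _ h1, h2⟩

theorem no_dvd {p R m : ℤ} (h1 : 0 < R - m * p) (h2 : 0 < (m + 1) * p - R) : ¬ p ∣ R := by
  rintro ⟨e, rfl⟩
  have h3 : 0 < p := by nlinarith
  have h4 : m < e := by
    by_contra hcon
    push Not at hcon
    nlinarith
  have h5 : e < m + 1 := by
    by_contra hcon
    push Not at hcon
    nlinarith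
  omega

theorem Val.nz (h : Val K p a b c J ds l q D dl Cl vi vr Nr) {Q : List Con}
    (hQ : ∀ c ∈ Q, hld (xv vi vr) c) {v : List ℤ} {z : NZ} (hz : nzc K Q v z = true) :
    ¬ p ∣ NN p l Nr v := by
  have hcl := h.cln v
  cases z with
  | k =>
    cases v with
    | nil => exact absurd hz (by simp [nzc])
    | cons e v =>
      simp only [nzc, Bool.or_eq_true] at hz
      have key : ∀ w : List ℤ, NN p l Nr (e :: v) = e * p + evg (l :: Nr) v := by
        intro _
        simp [NN]
      rw [key v]
      rcases hz with hz | hz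
      · obtain ⟨w, hw, h2⟩ := inl_mem hz
        rw [leq_ev _ _ h2]
        intro h3
        exact h.kn w hw ((dvd_add_right ⟨e, by ring⟩).1 h3)
      · obtain ⟨w, hw, h2⟩ := inl_mem hz
        have h4 := leq_ev _ _ h2 (l :: Nr)
        rw [evg_axpy] at h4
        simp only [evg_nil, add_zero, Int.cast_eq] at h4
        intro h3
        have h5 := (dvd_add_right ⟨e, by ring⟩).1 h3
        apply h.kn w hw
        rw [← h4]
        exact Dvd.dvd.mul_left h5 _
  | r m c1 c2 =>
    simp only [nzc, Bool.and_eq_true] at hz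
    have g1 := cert_sound h.hx hQ hz.1
    have g2 := cert_sound h.hx hQ hz.2
    rw [evg_axpy, h.eP, h.xR] at g1
    rw [evg_axpy, evg_axpy, h.eP, h.xR, evg_nil, add_zero] at g2
    intro h3
    refine no_dvd (p := p) (R := evg vi (fR K v)) (m := m) ?_ ?_ ((h.dvd hcl).1 h3)
    · have : ((Int.neg m : ℤ) : ℝ) = -(m : ℝ) := by
        show ((-m : ℤ) : ℝ) = _
        push_cast
        ring
      rw [this] at g1
      have g3 : (0 : ℝ) < ((evg vi (fR K v) - m * p : ℤ) : ℝ) := by
        push_cast
        linarith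
      exact_mod_cast g3
    · have : ((Int.add m 1 : ℤ) : ℝ) = (m : ℝ) + 1 := by
        show ((m + 1 : ℤ) : ℝ) = _
        push_cast
        ring
      rw [this] at g2
      have g3 : (0 : ℝ) < (((m + 1) * p - evg vi (fR K v) : ℤ) : ℝ) := by
        push_cast
        push_cast at g2
        linarith
      exact_mod_cast g3
  | x m c1 c2 =>
    simp only [nzc, Bool.and_eq_true] at hz
    have g1 := cert_sound h.hx hQ hz.1
    have g2 := cert_sound h.hx hQ hz.2
    rw [evg_axpy, h.eP, h.xX] at g1
    rw [evg_axpy, evg_axpy, h.eP, h.xX, evg_nil, add_zero] at g2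
    intro h3
    refine no_dvd (p := p) (R := evg vi (fX K v)) (m := m) ?_ ?_ (h.dvX hcl h3)
    · have : ((Int.neg m : ℤ) : ℝ) = -(m : ℝ) := by
        show ((-m : ℤ) : ℝ) = _
        push_cast
        ring
      rw [this] at g1
      have g3 : (0 : ℝ) < ((evg vi (fX K v) - m * p : ℤ) : ℝ) := by
        push_cast
        linarith
      exact_mod_cast g3
    · have : ((Int.add m 1 : ℤ) : ℝ) = (m : ℝ) + 1 := by
        show ((m + 1 : ℤ) : ℝ) = _
        push_cast
        ring
      rw [this] at g2
      have g3 : (0 : ℝ) < (((m + 1) * p - evg vi (fX K v) : ℤ) : ℝ) := by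
        push_cast
        push_cast at g2
        linarith
      exact_mod_cast g3
  | i s c1 c2 =>
    simp only [nzc, Bool.and_eq_true, izero_iff] at hz
    obtain ⟨⟨ht, hz1⟩, hz2⟩ := hz
    have g1 := cert_sound h.hx hQ hz1
    have g2 := cert_sound h.hx hQ hz2
    have hD : evg (xv vi vr) K.D = D := h.vD
    rw [evg_axpy, hD] at g1
    rw [evg_axpy, evg_axpy, hD] at g2
    rw [ht] at hcl
    have h3 := h.add hcl (Base.smul h.toBase h.cp s)
    simp only [mul_zero, add_zero] at h3
    have h4 := (h.pos0 h3).1 (by linarith)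
    have h5 := (h.ltp0 h3).1 (by push_cast at g2; linarith)
    intro h6
    have h7 : p ∣ NN p l Nr v + s * p := dvd_add h6 ⟨s, by ring⟩
    exact absurd (Int.le_of_dvd h4 h7) (by omega)

theorem Val.ex (h : Val K p a b c J ds l q D dl Cl vi vr Nr) {Q : List Con}
    (hQ : ∀ c ∈ Q, hld (xv vi vr) c) {n : List ℤ} {c' : Cert × Cert} {z : NZ}
    (he : exc K Q n c' z = true) : |tau n| ≤ 1 ∧ 0 < NN p l Nr n ∧ NN p l Nr n < p := by
  simp only [exc, Bool.and_eq_true, Bool.or_eq_true, t1_iff, izero_iff] at he
  obtain ⟨⟨⟨h1, h2⟩, h3⟩, h4⟩ := he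
  have hcl := h.cln n
  have g1 := cert_sound h.hx hQ h2
  have g2 := cert_sound h.hx hQ h3
  have hD : evg (xv vi vr) K.D = D := h.vD
  rw [evg_axpy, hD] at g2
  have g3 : evg (xv vi vr) (fI K n) < D := by push_cast at g2; linarith
  refine ⟨h1, ?_⟩
  rcases h4 with h4 | h4
  · rw [h4] at hcl
    exact ⟨(h.pos0 hcl).1 g1, (h.ltp0 hcl).1 g3⟩
  · have h5 := h.nz hQ h4
    have h6 := h.pos hcl (by rw [abs_le] at *; omega) g1
    have h7 := h.ltp hcl (by rw [abs_le] at *; omega) g3
    constructor
    · rcases h6.lt_or_eq with h8 | h8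
      · exact h8
      · exact absurd (h8 ▸ dvd_zero p) h5
    · rcases h7.lt_or_eq with h8 | h8
      · exact h8
      · exact absurd (Dvd.intro 1 (by rw [mul_one, h8])) h5

end

end Helper11.CT
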